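import Pool.Agent.K4H6.GL.Jt2

set_option autoImplicit false

/-! The joint law and the criterion for functions that agree with ours at the zeros of height at least one. -/

namespace Pool.Agent.K4H6.GL

open Filter Topology MeasureTheory Complex H370 ProbabilityTheory

noncomputable section

lemma tot_congr {T : ℝ} {p q : ℂ → Prop} (h : ∀ s ∈ Zb T, p s ↔ q s) : tot T p = tot T q :=
  le_antisymm (tot_mono fun s hs hp => (h s hs).1 hp) (tot_mono fun s hs hq => (h s hs).2 hq)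

/-- **the joint law at all zeros** -/
theorem lawG {c0 : ℝ} {g : ℂ → ℂ} (hg : ∀ T : ℝ, 1 ≤ T → ∀ s ∈ Zb T, g s = WW c0 s) (A : Set ℂ)
    (hA : stdGaussian ℂ (frontier A) = 0) : ∀ ε : ℝ, 0 < ε → ∀ᶠ X : ℝ in atTop,
    |cum (fun s => g s ∈ A) X - gs A * cum (fun _ => True) X| ≤ ε * cum (fun _ => True) X := by
  refine (asy_N _ (gs_nonneg A)).2 fun ε hε => ?_
  filter_upwards [(asy_N _ (gs_nonneg A)).1 (lawW c0 A hA) ε hε, eventually_ge_atTop 1] with T h1 h2
  rw [tot_congr (q := fun s => WW c0 s ∈ A) fun s hs => by rw [hg T h2 s hs]]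
  exact h1

/-- the joint law with the derivative -/
def Law2G (g : ℂ → ℂ) : Prop := ∀ A : Set ℂ, stdGaussian ℂ (frontier A) = 0 → ∀ ε : ℝ, 0 < ε → ∀ᶠ X : ℝ in atTop,
  |cum (fun s => sc s ∧ g s ∈ A) X - gs A * cum (fun _ => True) X| ≤ ε * cum (fun _ => True) X

theorem law2G_iff {c0 : ℝ} {g : ℂ → ℂ} (hg : ∀ T : ℝ, 1 ≤ T → ∀ s ∈ Zb T, g s = YD c0 s) :
    Law2G g ↔ Law2C c0 := by
  unfold Law2G Law2C
  refine forall_congr' fun A => forall_congr' fun hA => ?_
  rw [asy_N _ (gs_nonneg A), asy_N _ (gs_nonneg A)]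
  have e : ∀ᶠ T : ℝ in atTop, tot T (fun s => sc s ∧ g s ∈ A) = tot T (fun s => sc s ∧ YD c0 s ∈ A) := by
    filter_upwards [eventually_ge_atTop 1] with T hT
    exact tot_congr fun s hs => by rw [hg T hT s hs]
  constructor
  · intro h ε hε
    filter_upwards [h ε hε, e] with T h1 h2
    rw [← h2]
    exact h1
  · intro h ε hε
    filter_upwards [h ε hε, e] with T h1 h2
    rw [h2]
    exact h1

/-- **the criterion** -/
theorem criterionG {c0 : ℝ} {g : ℂ → ℂ} (hg : ∀ T : ℝ, 1 ≤ T → ∀ s ∈ Zb T, g s = YD c0 s) :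
    [LawC, Law2G g, IsoC].TFAE := by
  have h := criterion2 c0
  rw [← law2G_iff hg] at h
  exact h

end

end Pool.Agent.K4H6.GL
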