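import Pool.Agent.Y141.SW.DerArea

set_option autoImplicit false

/-! The area integral of `|log |zeta||` over strips of width `A / log T`, for every `A`
(after Pool/Agent/W354/ZP/Uni2.lean and Area.lean, which treat `A ≤ 10`). -/

namespace Pool.Agent.K4H6.GL

open MeasureTheory Filter Topology Set Metric Pool.Agent.H306R2 Pool.Agent.W184 Pool.Agent.W354.ZP Pool.Agent.Y141.SW

theorem uni_leftA (A : ℝ) (hA : 1 ≤ A) : ∀ᶠ T : ℝ in atTop, ∀ v : ℕ, Adm T v → ∀ Δ : ℝ, T ^ (-(3:ℝ)) ≤ Δ →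
    Δ ≤ A / Real.log T →
    ∫ t in (0:ℝ)..T, zn (1 / 2 - Δ) t ^ (2 / (v:ℝ)) ≤ Real.exp 23 * T := by
  filter_upwards [uni_right, sqrtlog_ev (200 * A), eventually_gt_atTop 1,
    (Real.tendsto_log_atTop.comp Real.tendsto_log_atTop).eventually_ge_atTop (4 * A ^ 2)] with T hU hL hT1 hll v hv Δ hΔ hΔ1
  have hv' := hv
  obtain ⟨hv, hvl, hvL⟩ := hv
  obtain ⟨-, -, h3, h4⟩ := kv hv
  have hv0 : (0:ℝ) < v := by exact_mod_cast (by omega : 0 < v)
  have hT0 : 0 < T := by linarith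
  have hL0 : 0 < Real.log T := by linarith
  have hΔ0 : 0 < Δ := lt_of_lt_of_le (Real.rpow_pos_of_pos hT0 _) hΔ
  have hΔ2 : Δ ≤ 1 / 200 := by
    refine hΔ1.trans ?_
    rw [div_le_div_iff₀ hL0 (by norm_num)]; linarith
  have hJ := hU v hv' Δ hΔ hΔ2
  have hc1 := zp_cont (σ := 1 / 2 - Δ) (p := 2 / (v:ℝ)) (by linarith) h3
  have hc2 := zp_cont (σ := 1 / 2 + Δ) (p := 2 / (v:ℝ)) (by linarith) h3
  have hX : T ^ (2 / (v:ℝ) * Δ) ≤ Real.exp 1 := by
    rw [Real.rpow_def_of_pos hT0]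
    refine Real.exp_le_exp.mpr ?_
    have h5 : Real.log T * Δ ≤ A := by
      have := mul_le_mul_of_nonneg_left hΔ1 hL0.le
      rwa [mul_div_cancel₀ _ hL0.ne'] at this
    have hv3 : 2 * A ≤ v := by
      have h7 : (2 * A) ^ 2 ≤ (v:ℝ) ^ 2 := by
        refine le_trans (le_of_eq ?_) (hll.trans hvl)
        ring
      exact le_of_sq_le_sq h7 hv0.le
    have h6 : 2 / (v:ℝ) * (Real.log T * Δ) ≤ 2 / (v:ℝ) * A := mul_le_mul_of_nonneg_left h5 h3.le
    have h7 : 2 / (v:ℝ) * A ≤ 1 := by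
      rw [div_mul_eq_mul_div, div_le_one hv0]
      exact hv3
    linarith [show Real.log T * (2 / (v:ℝ) * Δ) = 2 / (v:ℝ) * (Real.log T * Δ) by ring]
  have h5 : ∫ t in (0:ℝ)..T, zn (1 / 2 - Δ) t ^ (2 / (v:ℝ)) ≤
      ∫ t in (0:ℝ)..T, Real.exp 1 * (zn (1 / 2 + Δ) t ^ (2 / (v:ℝ)) + 2000) := by
    refine intervalIntegral.integral_mono_on hT0.le (hc1.intervalIntegrable _ _)
      (Continuous.intervalIntegrable (continuous_const.mul (hc2.add continuous_const)) _ _) fun x hx => ?_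
    have h6 := fe_p (τ := x) (X := T) h3 h4 hΔ0.le (by linarith) hT1.le (by
      rw [abs_of_nonneg hx.1]; exact hx.2)
    refine h6.trans (mul_le_mul_of_nonneg_right hX ?_)
    have := Real.rpow_nonneg (zn_nonneg (1 / 2 + Δ) x) (2 / (v:ℝ))
    positivity
  refine h5.trans ?_
  rw [intervalIntegral.integral_const_mul, intervalIntegral.integral_add (hc2.intervalIntegrable _ _)
    intervalIntegrable_const, intervalIntegral.integral_const, smul_eq_mul, sub_zero]
  have e32 : Real.exp 23 = Real.exp 1 * (Real.exp 21 * Real.exp 1) := by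
    rw [← Real.exp_add, ← Real.exp_add]; norm_num
  rw [e32, mul_assoc]
  refine mul_le_mul_of_nonneg_left ?_ (Real.exp_pos _).le
  have h7 : 2000 ≤ Real.exp 21 := by
    have h := Real.exp_one_gt_d9
    have e : Real.exp 21 = Real.exp 1 ^ 21 := by rw [← Real.exp_nat_mul]; norm_num
    rw [e]
    have h2 : (2.7182818283:ℝ) ^ 21 ≤ Real.exp 1 ^ 21 := pow_le_pow_left₀ (by norm_num) h.le 21
    linarith [show (2000:ℝ) ≤ (2.7182818283:ℝ) ^ 21 by norm_num]
  have h8 : Real.exp 21 + 2000 ≤ Real.exp 21 * Real.exp 1 := by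
    have h := Real.exp_one_gt_d9
    nlinarith
  have h9 := mul_le_mul_of_nonneg_right h8 hT0.le
  linarith

/-- the moments near the critical line -/
theorem uni_nearA (A : ℝ) (hA : 1 ≤ A) : ∀ᶠ T : ℝ in atTop, ∀ v : ℕ, Adm T v → ∀ σ : ℝ,
    T ^ (-(3:ℝ)) ≤ |σ - 1 / 2| → |σ - 1 / 2| ≤ A / Real.log T →
    ∫ t in (0:ℝ)..T, zn σ t ^ (2 / (v:ℝ)) ≤ Real.exp 23 * T := by
  filter_upwards [uni_right, uni_leftA A hA, sqrtlog_ev (200 * A), eventually_gt_atTop 1] with
    T hR hL hlog hT1 v hv σ h1 h2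
  have hT0 : 0 < T := by linarith
  have hL0 : 0 < Real.log T := by linarith
  rcases le_total (1 / 2) σ with h | h
  · rw [abs_of_nonneg (by linarith)] at h1 h2
    have h3 := hR v hv (σ - 1 / 2) h1 (h2.trans (by
      rw [div_le_div_iff₀ hL0 (by norm_num)]; linarith))
    rw [show 1 / 2 + (σ - 1 / 2) = σ by ring] at h3
    refine h3.trans (mul_le_mul_of_nonneg_right (Real.exp_le_exp.mpr (by norm_num)) hT0.le)
  · rw [abs_of_nonpos (by linarith)] at h1 h2
    have h3 := hL v hv (-(σ - 1 / 2)) h1 h2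
    rwa [show 1 / 2 - -(σ - 1 / 2) = σ by ring] at h3

theorem strip_areaA (A : ℝ) (hA : 1 ≤ A) : ∀ᶠ X : ℝ in atTop, ∀ v : ℕ, Adm X v → ∀ δ : ℝ, 1 / X ≤ δ →
    δ ≤ A / Real.log X →
    ∫⁻ z in Rect δ (X / 2), ENNReal.ofReal |Real.log ‖riemannZeta z‖| ≤
      ENNReal.ofReal (Real.exp 51 * (v * X * δ)) := by
  filter_upwards [uni_nearA A hA, sqrtlog_ev (200 * A), eventually_ge_atTop 100] with X hU hL hX v hv δ hδ1 hδ2
  have hv' := hv
  obtain ⟨hv2, -, -⟩ := hv
  obtain ⟨-, -, h3, h4⟩ := kv hv2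
  have hv0 : (0:ℝ) < v := by exact_mod_cast (by omega : 0 < v)
  have hX0 : 0 < X := by linarith
  have hL0 : 0 < Real.log X := by linarith
  have hδ0 : 0 < δ := lt_of_lt_of_le (by positivity) hδ1
  have hδ3 : δ ≤ 1 / 8 := by
    refine hδ2.trans ?_
    rw [div_le_div_iff₀ hL0 (by norm_num)]; linarith
  have hX3 : X ^ (-(3:ℝ)) = 1 / X ^ 3 := by
    rw [Real.rpow_neg hX0.le, one_div]
    congr 1
    exact_mod_cast Real.rpow_natCast X 3
  rw [rect_eq]
  set B1 : ENNReal := ENNReal.ofReal (Real.exp 21 / (2 / (v:ℝ)) * (25 * X ^ 2)) with hB1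
  set B2 : ENNReal := ENNReal.ofReal (Real.exp 21 / (2 / (v:ℝ)) * (Real.exp 23 * X + X)) with hB2
  have hE : 0 < Real.exp 21 / (2 / (v:ℝ)) := by positivity
  have hpt : ∀ σ ∈ Ioo (1 / 2 - δ) (1 / 2 + δ), ∫⁻ u in Ioo 0 (X / 2), Ab σ u ≤
      B2 + (Ioo (1 / 2 - X ^ (-(3:ℝ))) (1 / 2 + X ^ (-(3:ℝ)))).indicator (fun _ => B1) σ := by
    intro σ hσ
    have a0 : |σ - 1 / 2| < δ := by rw [abs_lt]; constructor <;> linarith [hσ.1, hσ.2]
    have a1 := ab_int (σ := σ) (T := X / 2) (p := 2 / (v:ℝ)) (by linarith [hσ.1]) (by linarith [hσ.2])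
      (by linarith) h3 h4
    rw [show 2 * (X / 2) = X by ring] at a1
    by_cases h : σ ∈ Ioo (1 / 2 - X ^ (-(3:ℝ))) (1 / 2 + X ^ (-(3:ℝ)))
    · rw [indicator_of_mem h]
      refine a1.trans (le_trans (ENNReal.ofReal_le_ofReal ?_) le_add_self)
      refine mul_le_mul_of_nonneg_left ?_ hE.le
      have a2 : ∫ t in (0:ℝ)..X, zn σ t ^ (2 / (v:ℝ)) ≤ (X - 0) * (12 * (1 + X)) := by
        refine int_le_of_le (zp_cont (by linarith [hσ.2]) h3) hX0.le fun x hx => ?_
        refine (zp_le h3 h4 (by linarith [hσ.1]) (by linarith [hσ.2])).trans ?_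
        rw [abs_of_nonneg hx.1]
        linarith [hx.2]
      nlinarith
    · rw [indicator_of_notMem h, add_zero]
      refine a1.trans (ENNReal.ofReal_le_ofReal ?_)
      refine mul_le_mul_of_nonneg_left ?_ hE.le
      have a2 : X ^ (-(3:ℝ)) ≤ |σ - 1 / 2| := by
        by_contra hc
        push Not at hc
        rw [abs_lt] at hc
        exact h ⟨by linarith [hc.1], by linarith [hc.2]⟩
      have a3 := hU v hv' σ a2 (a0.le.trans hδ2)
      linarith
  refine (setLIntegral_mono' measurableSet_Ioo hpt).trans ?_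
  rw [lintegral_add_left measurable_const, setLIntegral_const, Real.volume_Ioo]
  have hX3p : 0 < X ^ (-(3:ℝ)) := Real.rpow_pos_of_pos hX0 _
  have hind : ∫⁻ σ in Ioo (1 / 2 - δ) (1 / 2 + δ),
      (Ioo (1 / 2 - X ^ (-(3:ℝ))) (1 / 2 + X ^ (-(3:ℝ)))).indicator (fun _ => B1) σ ≤
      B1 * ENNReal.ofReal (2 * X ^ (-(3:ℝ))) := by
    refine (setLIntegral_le_lintegral _ _).trans ?_
    rw [lintegral_indicator measurableSet_Ioo, setLIntegral_const, Real.volume_Ioo]
    refine le_of_eq ?_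
    congr 2; ring
  refine (add_le_add le_rfl hind).trans ?_
  rw [hB1, hB2, ← ENNReal.ofReal_mul (by positivity), ← ENNReal.ofReal_mul (by positivity),
    ← ENNReal.ofReal_add]
  · refine ENNReal.ofReal_le_ofReal ?_
    rw [hX3]
    have e60 : Real.exp 51 = Real.exp 21 * Real.exp 23 * Real.exp 7 := by
      rw [← Real.exp_add, ← Real.exp_add]; norm_num
    have g32 : 1 ≤ Real.exp 23 := Real.one_le_exp (by norm_num)
    have g7 : 8 ≤ Real.exp 7 := by linarith [Real.add_one_le_exp (7:ℝ)]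
    have e1 : Real.exp 21 / (2 / (v:ℝ)) * (Real.exp 23 * X + X) * (1 / 2 + δ - (1 / 2 - δ)) +
        Real.exp 21 / (2 / (v:ℝ)) * (25 * X ^ 2) * (2 * (1 / X ^ 3)) =
        (Real.exp 21 * v) * ((Real.exp 23 + 1) * (X * δ) + 25 / X) := by
      field_simp
      ring
    rw [e1, e60]
    have a1 : 25 / X ≤ X * δ := by
      have b1 : 1 ≤ X * δ := by
        have := mul_le_mul_of_nonneg_left hδ1 hX0.le
        rwa [mul_one_div_cancel hX0.ne'] at this
      have b2 : 25 / X ≤ 1 := by rw [div_le_one hX0]; linarith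
      linarith
    have hXd : 0 ≤ X * δ := by positivity
    have a2 : (Real.exp 23 + 1) * (X * δ) + 25 / X ≤ Real.exp 23 * Real.exp 7 * (X * δ) := by
      nlinarith [mul_le_mul_of_nonneg_right (show Real.exp 23 + 2 ≤ Real.exp 23 * Real.exp 7 by nlinarith) hXd]
    calc (Real.exp 21 * v) * ((Real.exp 23 + 1) * (X * δ) + 25 / X) ≤
        (Real.exp 21 * v) * (Real.exp 23 * Real.exp 7 * (X * δ)) := by gcongr
      _ = _ := by ring
  · have : (1:ℝ) / 2 + δ - (1 / 2 - δ) = 2 * δ := by ring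
    rw [this]; positivity
  · positivity

/-- **the area integral over wide strips** -/
theorem arA : ∃ C : ℝ, 0 < C ∧ ∀ A : ℝ, 1 ≤ A → ∀ᶠ T : ℝ in atTop,
    ∫⁻ z in {z : ℂ | z.re ∈ Ioo (1 / 2 - A / Real.log T) (1 / 2 + A / Real.log T) ∧ z.im ∈ Ioo 0 (2 * T)},
      ENNReal.ofReal |Real.log ‖riemannZeta z‖| ≤
      ENNReal.ofReal (C * (Real.sqrt (Real.log (Real.log T)) * (T * (A / Real.log T)))) := by
  refine ⟨Real.exp 51 * 20, by positivity, fun A hA => ?_⟩
  have h4 : Tendsto (fun T : ℝ => 4 * T) atTop atTop := tendsto_id.const_mul_atTop (by norm_num)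
  have hll : ∀ᶠ T : ℝ in atTop, 10 ≤ Real.log (Real.log (4 * T)) :=
    h4.eventually ((Real.tendsto_log_atTop.comp Real.tendsto_log_atTop).eventually_ge_atTop 10)
  filter_upwards [h4.eventually (strip_areaA (2 * A) (by linarith)), hll, tendsto_S.eventually_ge_atTop 3,
    eventually_ge_atTop (100:ℝ)] with T hAr hl hS hT
  obtain ⟨v, hv, hv0, hvle⟩ := adm_choice hl (by linarith)
  have hT0 : 0 < T := by linarith
  have hlT : 1 ≤ Real.log T := by
    rw [Real.le_log_iff_exp_le hT0]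
    have := Real.exp_one_lt_d9
    linarith
  have hL0 : 0 < Real.log T := by linarith
  have hlog4 : Real.log (4 * T) ≤ 2 * Real.log T := by
    rw [Real.log_mul (by norm_num) hT0.ne']
    have : Real.log 4 ≤ Real.log T := Real.log_le_log (by norm_num) (by linarith)
    linarith
  have hl4 : 0 < Real.log (4 * T) := Real.log_pos (by linarith)
  set S := Real.sqrt (Real.log (Real.log T)) with hSd
  have h1 := hAr v hv (A / Real.log T) (by
      rw [div_le_div_iff₀ (by linarith) hL0]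
      have h2 := Real.log_le_sub_one_of_pos hT0
      nlinarith) (by
    rw [div_le_div_iff₀ hL0 hl4]
    nlinarith)
  have hset : Rect (A / Real.log T) (4 * T / 2) =
      {z : ℂ | z.re ∈ Ioo (1 / 2 - A / Real.log T) (1 / 2 + A / Real.log T) ∧ z.im ∈ Ioo 0 (2 * T)} := by
    unfold Rect
    rw [show 4 * T / 2 = 2 * T by ring]
  rw [hset] at h1
  refine h1.trans (ENNReal.ofReal_le_ofReal ?_)
  have hll0 : 0 < Real.log (Real.log T) := by
    by_contra h
    push Not at h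
    have : S = 0 := Real.sqrt_eq_zero_of_nonpos h
    linarith
  have hsq : S ^ 2 = Real.log (Real.log T) := Real.sq_sqrt hll0.le
  have hv5 : (v : ℝ) ≤ 5 * S := by
    have h2 : Real.log (Real.log (4 * T)) ≤ (2 * S) ^ 2 := by
      have h3 : Real.log (Real.log (4 * T)) ≤ Real.log (2 * Real.log T) := Real.log_le_log hl4 hlog4
      rw [Real.log_mul (by norm_num) hL0.ne', ← hsq] at h3
      have := Real.log_two_lt_d9
      nlinarith
    have h3 : Real.sqrt (Real.log (Real.log (4 * T))) ≤ 2 * S := by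
      rw [Real.sqrt_le_left (by linarith)]
      exact h2
    linarith
  calc Real.exp 51 * (v * (4 * T) * (A / Real.log T)) ≤
      Real.exp 51 * (5 * S * (4 * T) * (A / Real.log T)) := by gcongr
    _ = _ := by ring

end Pool.Agent.K4H6.GL
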