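import Pool.Agent.K4H6.GL.Gt
import Pool.Agent.TH803.UC.Dyad

set_option autoImplicit false

/-! Zeros far from the line; crowded zeros, for wide neighbourhoods; weighted overlap. -/

namespace Pool.Agent.K4H6.GL

open Filter Topology MeasureTheory Complex H370 Pool.Agent.K4H6.Win Pool.Agent.K4H6.Qn Pool.Agent.K4H6.Cov

noncomputable section

/-- few zeros are far from the critical line -/
theorem farA {ε : ℝ} (hε : 0 < ε) : ∃ A0 : ℝ, 1 ≤ A0 ∧ ∀ᶠ T : ℝ in atTop,
    tot T (fun s => A0 / Real.log T < |s.re - 1 / 2|) ≤ ε * EE T := by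
  have hpi := Real.pi_pos
  obtain ⟨κ, C, T0, hκ, hC, hT0, h⟩ := TH803UC.dens_zeta
  obtain ⟨A0, hA0⟩ : ∃ A0, A0 = max 1 (Real.log (2 * Real.pi * C / ε) / κ) := ⟨_, rfl⟩
  have hA1 : 1 ≤ A0 := by rw [hA0]; exact le_max_left _ _
  have hA2 : 2 * Real.pi * C / ε ≤ Real.exp (κ * A0) := by
    have h1 : Real.log (2 * Real.pi * C / ε) / κ ≤ A0 := by rw [hA0]; exact le_max_right _ _
    rw [div_le_iff₀ hκ] at h1
    rw [← Real.log_le_iff_le_exp (by positivity)]
    linarith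
  refine ⟨A0, hA1, ?_⟩
  filter_upwards [eventually_ge_atTop T0, EE_pos] with T hT hE
  have hT10 : 10 ≤ T := hT0.trans hT
  have hL0 : 0 < Real.log T := Real.log_pos (by linarith)
  have h1 := h T hT
  have h2 : tot T (fun s => A0 / Real.log T < |s.re - 1 / 2|) * Real.exp (κ * A0) ≤ C * (T * Real.log T) := by
    refine le_trans ?_ h1
    unfold tot
    rw [Finset.sum_mul]
    refine Finset.sum_le_sum fun s _ => ?_
    by_cases hs : A0 / Real.log T < |s.re - 1 / 2|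
    · rw [ind_pos (p := fun s => A0 / Real.log T < |s.re - 1 / 2|) hs]
      refine mul_le_mul_of_nonneg_left ?_ (Nat.cast_nonneg _)
      rw [Real.exp_le_exp, zz_im, abs_neg]
      rw [div_lt_iff₀ hL0] at hs
      exact mul_le_mul_of_nonneg_left hs.le hκ.le
    · rw [ind_neg (p := fun s => A0 / Real.log T < |s.re - 1 / 2|) hs, zero_mul]
      positivity
  have h3 : C * (T * Real.log T) = 2 * Real.pi * C * EE T := by
    unfold EE
    field_simp
  rw [h3] at h2
  have h4 : tot T (fun s => A0 / Real.log T < |s.re - 1 / 2|) * (2 * Real.pi * C / ε) ≤ 2 * Real.pi * C * EE T :=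
    (mul_le_mul_of_nonneg_left hA2 (tot_nonneg _)).trans h2
  rw [mul_div_assoc', div_le_iff₀ hε] at h4
  have h5 : 0 < 2 * Real.pi * C := by positivity
  have h6 : 2 * Real.pi * C * tot T (fun s => A0 / Real.log T < |s.re - 1 / 2|) ≤ 2 * Real.pi * C * (ε * EE T) := by
    linarith
  exact le_of_mul_le_mul_left h6 h5

/-- the number of zeros close to `s` -/
def nrA (A T : ℝ) (s : ℂ) : ℝ :=
  ∑ s' ∈ Zb T, Set.indicator (fun s' => |s'.im - s.im| ≤ A / Real.log T) (fun s => (mult riemannZeta s : ℝ)) s'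

/-- few zeros are crowded -/
theorem crowdA {ε : ℝ} (hε : 0 < ε) : ∃ A1 : ℝ, 1 ≤ A1 ∧ ∀ A : ℝ, A1 ≤ A → ∀ᶠ T : ℝ in atTop,
    tot T (fun s => 2 * A < nrA A T s) ≤ ε * EE T := by
  have hpi := Real.pi_pos
  have hpi3 := Real.pi_gt_three
  obtain ⟨h0, hh0, hN⟩ := arbN (show 0 < ε / 8 by positivity)
  refine ⟨max h0 1, le_max_right _ _, fun A hA => ?_⟩
  have hA0 : h0 ≤ A := (le_max_left _ _).trans hA
  have hA1 : 1 ≤ A := (le_max_right _ _).trans hA
  filter_upwards [hN, tot_ends (show (1:ℝ) ≤ 5 by norm_num) (show 0 < ε / 2 by positivity),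
    Real.tendsto_log_atTop.eventually_ge_atTop 1, Real.tendsto_log_atTop.eventually_ge_atTop (4 * A),
    log_small 20 1 (show (0:ℝ) < 1 by norm_num), eventually_ge_atTop 10, EE_pos] with T tN tE tL th tsm tT tEE
  rw [pow_one] at tsm
  set L := Real.log T with hL
  have hL0 : 0 < L := by linarith
  have hT0 : 0 < T := by linarith
  obtain ⟨H, hH⟩ : ∃ H, H = 4 * A / L := ⟨_, rfl⟩
  have hH0 : 0 < H := by rw [hH]; positivity
  have hH1 : H ≤ 1 := by rw [hH, div_le_one hL0]; exact th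
  have hHL : H * L = 4 * A := by rw [hH]; field_simp
  obtain ⟨E0, hE0⟩ : ∃ E0, E0 = 4 * A / (2 * Real.pi) := ⟨_, rfl⟩
  have hE00 : 0 < E0 := by rw [hE0]; positivity
  have hE2 : 2 * E0 ≤ 2 * A := by
    rw [hE0]
    have : 4 * A / (2 * Real.pi) ≤ A := by
      rw [div_le_iff₀ (by positivity)]
      nlinarith
    linarith
  set J := Set.Icc (T + 3 * L) (2 * T - 3 * L - H) with hJ
  set B : Set ℝ := J ∩ {t | 2 * E0 < Gm (fun m => (m:ℝ)) T (2 * T) H t} with hB
  have hBm : MeasurableSet B := measurableSet_Icc.inter (measurableSet_lt measurable_const (Gm_meas _ _ _ _))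
  have hBJ : B ⊆ J := Set.inter_subset_left
  have hBf : volume B ≠ ⊤ := ne_top_of_le_ne_top (by simp [hJ]) (measure_mono hBJ)
  have h1 := tN H (by rw [hH]; gcongr; linarith) B hBm hBJ
  rw [hHL, ← hE0] at h1
  have h2 : volume.real B * (2 * E0) ≤ ∫ t in B, Gm (fun m => (m:ℝ)) T (2 * T) H t := by
    have h3 : ∫ _ in B, (2 * E0) ≤ ∫ t in B, Gm (fun m => (m:ℝ)) T (2 * T) H t :=
      setIntegral_mono_on (integrableOn_const hBf) (Gm_int _ _ _ _ hBf) hBm fun t ht => le_of_lt ht.2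
    rw [setIntegral_const, smul_eq_mul] at h3
    exact h3
  have h3 := (abs_le.1 h1).2
  have h4 : ∫ t in B, Gm (fun m => (m:ℝ)) T (2 * T) H t ≤ 2 * (ε / 8 * T * E0) := by linarith
  have h5 : H / 2 * tot T (fun s => (T + 5 * L < s.im ∧ s.im ≤ 2 * T - 5 * L) ∧ 2 * A < nrA A T s) ≤
      ∫ t in B, Gm (fun m => (m:ℝ)) T (2 * T) H t := by
    refine near_low (Zb T) (fun s => (T + 5 * L < s.im ∧ s.im ≤ 2 * T - 5 * L) ∧ 2 * A < nrA A T s)
      (m := fun s => (mult riemannZeta s : ℝ)) (fun s => Nat.cast_nonneg _) hBf (by positivity) ?_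
    rintro s hs ⟨⟨hs1, hs2⟩, hs3⟩
    obtain ⟨d, hd⟩ : ∃ d, d = A / L := ⟨_, rfl⟩
    have hd0 : 0 < d := by rw [hd]; positivity
    have hdH : 4 * d = H := by rw [hd, hH]; ring
    refine ⟨s.im - H + d, ?_, by linarith, by linarith⟩
    intro t ht
    refine ⟨⟨by linarith [ht.1], by linarith [ht.2]⟩, ?_⟩
    have h10 : 2 * E0 < nrA A T s := lt_of_le_of_lt hE2 hs3
    refine lt_of_lt_of_le h10 ?_
    unfold nrA Gm
    rw [← hL, ← hd]
    refine Finset.sum_le_sum fun s' _ => ?_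
    by_cases h11 : |s'.im - s.im| ≤ d
    · rw [ind_pos (p := fun s' => |s'.im - s.im| ≤ d) h11, if_pos]
      have h12 := abs_le.1 h11
      constructor
      · linarith [ht.2, h12.1]
      · linarith [ht.1, h12.2]
    · rw [ind_neg (p := fun s' => |s'.im - s.im| ≤ d) h11]
      split_ifs <;> simp
  have h6 : tot T (fun s => (T + 5 * L < s.im ∧ s.im ≤ 2 * T - 5 * L) ∧ 2 * A < nrA A T s) ≤
      ε / 2 * EE T := by
    have h7 := h5.trans h4
    have e : 2 * (ε / 8 * T * E0) = H / 2 * (ε / 2 * EE T) := by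
      rw [hE0]
      unfold EE
      rw [← hL, ← hHL]
      ring
    rw [e] at h7
    exact le_of_mul_le_mul_left h7 (by positivity)
  have h7 : tot T (fun s => 2 * A < nrA A T s) ≤
      tot T (fun s => (¬ (T + 5 * L < s.im ∧ s.im ≤ 2 * T - 5 * L)) ∨
        ((T + 5 * L < s.im ∧ s.im ≤ 2 * T - 5 * L) ∧ 2 * A < nrA A T s)) := by
    refine tot_mono fun s _ hs => ?_
    by_cases h8 : T + 5 * L < s.im ∧ s.im ≤ 2 * T - 5 * L
    · exact Or.inr ⟨h8, hs⟩
    · exact Or.inl h8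
  have h8 := tot_or (T := T) (fun s => ¬ (T + 5 * L < s.im ∧ s.im ≤ 2 * T - 5 * L))
    (fun s => (T + 5 * L < s.im ∧ s.im ≤ 2 * T - 5 * L) ∧ 2 * A < nrA A T s)
  linarith

lemma near_nrA {A T : ℝ} {s : ℂ} {F : Finset ℂ} (hF : F ⊆ Zb T) (h : ∀ w ∈ F, |w.im - s.im| ≤ A / Real.log T) :
    ∑ w ∈ F, (mult riemannZeta w : ℝ) ≤ nrA A T s := by
  unfold nrA
  refine le_trans ?_ (Finset.sum_le_sum_of_subset_of_nonneg hF fun w _ _ =>
    ind_nonneg (fun s' => |s'.im - s.im| ≤ A / Real.log T) w)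
  refine Finset.sum_le_sum fun w hw => ?_
  rw [ind_pos (p := fun s' => |s'.im - s.im| ≤ A / Real.log T) (h w hw)]

open Classical in
/-- sets with bounded overlap, with weights -/
lemma overlapW {α : Type*} [MeasurableSpace α] (μ : Measure α) (F : Finset ℂ) (m : ℂ → ℕ) (B : ℂ → Set α) (O : Set α)
    (hB : ∀ s ∈ F, MeasurableSet (B s)) (hsub : ∀ s ∈ F, B s ⊆ O) (hO : MeasurableSet O) {K : ℝ}
    (h : ∀ x, ∀ s0 ∈ F, x ∈ B s0 → ∀ G : Finset ℂ, G ⊆ F → (∀ s ∈ G, x ∈ B s) → ∑ s ∈ G, (m s : ℝ) ≤ K) :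
    ∑ s ∈ F, (m s : ENNReal) * μ (B s) ≤ ENNReal.ofReal K * μ O := by
  have e1 : ∑ s ∈ F, (m s : ENNReal) * μ (B s) =
      ∫⁻ x, ∑ s ∈ F, (B s).indicator (fun _ => (m s : ENNReal)) x ∂μ := by
    rw [lintegral_finsetSum' _ fun s hs => (measurable_const.indicator (hB s hs)).aemeasurable]
    refine Finset.sum_congr rfl fun s hs => ?_
    rw [lintegral_indicator (hB s hs)]
    simp
  have e2 : ENNReal.ofReal K * μ O = ∫⁻ x, O.indicator (fun _ => ENNReal.ofReal K) x ∂μ := by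
    rw [lintegral_indicator hO]
    simp
  rw [e1, e2]
  refine lintegral_mono fun x => ?_
  have e3 : ∑ s ∈ F, (B s).indicator (fun _ => (m s : ENNReal)) x =
      ∑ s ∈ F.filter (fun s => x ∈ B s), (m s : ENNReal) := by
    rw [Finset.sum_filter]
    refine Finset.sum_congr rfl fun s _ => ?_
    by_cases h : x ∈ B s
    · rw [Set.indicator_of_mem h, if_pos h]
    · rw [Set.indicator_of_notMem h, if_neg h]
  rw [e3]
  by_cases hx : ∃ s0 ∈ F, x ∈ B s0
  · obtain ⟨s0, h1, h2⟩ := hx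
    rw [Set.indicator_of_mem (hsub s0 h1 h2)]
    have h3 := h x s0 h1 h2 (F.filter (fun s => x ∈ B s)) (Finset.filter_subset _ _) fun s hs => by
      rw [Finset.mem_filter] at hs
      exact hs.2
    have h4 : ∑ s ∈ F.filter (fun s => x ∈ B s), (m s : ENNReal) =
        ENNReal.ofReal (∑ s ∈ F.filter (fun s => x ∈ B s), (m s : ℝ)) := by
      rw [ENNReal.ofReal_sum_of_nonneg fun _ _ => Nat.cast_nonneg _]
      refine Finset.sum_congr rfl fun s _ => ?_
      rw [ENNReal.ofReal_natCast]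
    rw [h4]
    exact ENNReal.ofReal_le_ofReal h3
  · have : F.filter (fun s => x ∈ B s) = ∅ := by
      rw [Finset.filter_eq_empty_iff]
      intro s hs hxs
      exact hx ⟨s, hs, hxs⟩
    rw [this]
    simp

end

end Pool.Agent.K4H6.GL
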