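import Pool.Agent.K4H6.GL.Gt
import Pool.Agent.H370R2.Dyadic

set_option autoImplicit false

/-! From dyadic blocks to all heights and back. -/

namespace Pool.Agent.K4H6.GL

open Filter Topology MeasureTheory H370

noncomputable section

/-- the nontrivial zeros up to height `X` -/
def Z0 (X : ℝ) : Finset ℂ := (zeta_zeros_finite X).toFinset

lemma mem_Z0 {X : ℝ} {s : ℂ} : s ∈ Z0 X ↔ s ∈ zset riemannZeta 0 X := by
  unfold Z0
  rw [Set.Finite.mem_toFinset]

/-- the total multiplicity of the zeros up to height `X` with a property -/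
def cum (p : ℂ → Prop) (X : ℝ) : ℝ := ∑ s ∈ Z0 X, Set.indicator (fun s => p s) (fun s => (mult riemannZeta s : ℝ)) s

lemma cum_nonneg (p : ℂ → Prop) (X : ℝ) : 0 ≤ cum p X := Finset.sum_nonneg fun _ _ => ind_nonneg _ _

lemma cum_mono (p : ℂ → Prop) {X Y : ℝ} (h : X ≤ Y) : cum p X ≤ cum p Y := by
  unfold cum
  refine Finset.sum_le_sum_of_subset_of_nonneg ?_ fun s _ _ => ind_nonneg _ _
  intro s hs
  rw [mem_Z0] at hs ⊢
  exact ⟨hs.1, hs.2.1, hs.2.2.1, hs.2.2.2.1.trans h, hs.2.2.2.2⟩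

lemma cum_split (p : ℂ → Prop) {T : ℝ} (hT : 1 ≤ T) : cum p (2 * T) = cum p T + tot T p := by
  classical
  unfold cum tot
  rw [← Finset.sum_union]
  · refine Finset.sum_congr ?_ fun _ _ => rfl
    ext s
    rw [Finset.mem_union, mem_Z0, mem_Z0, mem_Zb hT]
    constructor
    · rintro ⟨a1, a2, a3, a4, a5⟩
      rcases le_or_gt s.im T with h | h
      · exact Or.inl ⟨a1, a2, a3, h, a5⟩
      · exact Or.inr ⟨a1, a2, h, a4, a5⟩
    · rintro (⟨a1, a2, a3, a4, a5⟩ | ⟨a1, a2, a3, a4, a5⟩)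
      · exact ⟨a1, a2, a3, by linarith, a5⟩
      · exact ⟨a1, a2, by linarith, a4, a5⟩
  · rw [Finset.disjoint_left]
    intro s h1 h2
    rw [mem_Z0] at h1
    rw [mem_Zb hT] at h2
    linarith [h1.2.2.2.1, h2.2.2.1]

/-- dyadic induction -/
lemma dyad {h : ℝ → ℝ} {A C : ℝ} (hA : 0 < A) (h1 : ∀ T, A ≤ T → h T ≤ h (2 * T)) (h2 : ∀ T, A ≤ T → T ≤ 2 * A → -C ≤ h T) :
    ∀ T, A ≤ T → -C ≤ h T := by
  have key : ∀ k : ℕ, ∀ T, A ≤ T → T ≤ 2 ^ k * (2 * A) → -C ≤ h T := by
    intro k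
    induction k with
    | zero =>
      intro T hT1 hT2
      rw [pow_zero, one_mul] at hT2
      exact h2 T hT1 hT2
    | succ k ih =>
      intro T hT1 hT2
      by_cases hT : T ≤ 2 * A
      · exact h2 T hT1 hT
      · have h3 := ih (T / 2) (by linarith) (by
          rw [pow_succ] at hT2
          linarith)
        have h4 := h1 (T / 2) (by linarith)
        rw [mul_div_cancel₀ _ (by norm_num : (2:ℝ) ≠ 0)] at h4
        linarith
  intro T hT
  obtain ⟨k, hk⟩ := pow_unbounded_of_one_lt (T / (2 * A)) (by norm_num : (1:ℝ) < 2)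
  refine key k T hT ?_
  rw [div_lt_iff₀ (by linarith)] at hk
  exact hk.le

lemma EE_double : ∀ ε : ℝ, 0 < ε → ∀ᶠ T : ℝ in atTop, 2 * EE T ≤ EE (2 * T) ∧ EE (2 * T) ≤ (2 + ε) * EE T := by
  intro ε hε
  have hpi := Real.pi_pos
  filter_upwards [eventually_ge_atTop 10, Real.tendsto_log_atTop.eventually_ge_atTop (2 * Real.log 2 / ε)] with T h1 h2
  have hT : 0 < T := by linarith
  have hl2 : 0 < Real.log 2 := Real.log_pos (by norm_num)
  unfold EE
  rw [Real.log_mul (by norm_num) hT.ne']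
  rw [div_le_iff₀ hε] at h2
  have e1 : 2 * T * (Real.log 2 + Real.log T) / (2 * Real.pi) =
      2 * (T * Real.log T / (2 * Real.pi)) + 2 * T * Real.log 2 / (2 * Real.pi) := by ring
  rw [e1]
  constructor
  · have : 0 ≤ 2 * T * Real.log 2 / (2 * Real.pi) := by positivity
    linarith
  · have e2 : (2 + ε) * (T * Real.log T / (2 * Real.pi)) =
      2 * (T * Real.log T / (2 * Real.pi)) + T * (Real.log T * ε) / (2 * Real.pi) := by ring
    rw [e2]
    have h3 : 2 * T * Real.log 2 / (2 * Real.pi) ≤ T * (Real.log T * ε) / (2 * Real.pi) := by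
      refine div_le_div_of_nonneg_right ?_ (by positivity)
      calc 2 * T * Real.log 2 = T * (2 * Real.log 2) := by ring
        _ ≤ _ := mul_le_mul_of_nonneg_left h2 hT.le
    linarith

lemma EE_tendsto : Tendsto EE atTop atTop := by
  have h1 : Tendsto (fun T : ℝ => T * Real.log T) atTop atTop := tendsto_id.atTop_mul_atTop₀ Real.tendsto_log_atTop
  have h2 : Tendsto (fun T : ℝ => T * Real.log T / (2 * Real.pi)) atTop atTop :=
    h1.atTop_div_const (by have := Real.pi_pos; positivity)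
  exact h2

/-- upper bounds, from blocks to all heights -/
lemma up_cum (p : ℂ → Prop) {g : ℝ} (hg : 0 ≤ g) (h : ∀ ε : ℝ, 0 < ε → ∀ᶠ T : ℝ in atTop, tot T p ≤ (g + ε) * EE T) :
    ∀ ε : ℝ, 0 < ε → ∀ᶠ X : ℝ in atTop, cum p X ≤ (g + ε) * EE X := by
  intro ε hε
  obtain ⟨A, hA⟩ := Filter.eventually_atTop.1 ((h (ε / 2) (by positivity)).and ((EE_pos).and
    ((EE_double (1 / 2) (by norm_num)).and (eventually_ge_atTop 10))))
  obtain ⟨B, hBd⟩ : ∃ B, B = max A 10 := ⟨_, rfl⟩
  have hB10 : 10 ≤ B := by rw [hBd]; exact le_max_right _ _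
  have hBA : A ≤ B := by rw [hBd]; exact le_max_left _ _
  have h1 := dyad (h := fun X => (g + ε / 2) * EE X - cum p X) (A := B) (C := cum p (2 * B)) (by linarith)
    (fun T hT => by
      obtain ⟨t1, t2, t3, t4⟩ := hA T (hBA.trans hT)
      have h2 := cum_split p (T := T) (by linarith)
      beta_reduce
      rw [h2]
      have h3 : (g + ε / 2) * (2 * EE T) ≤ (g + ε / 2) * EE (2 * T) := mul_le_mul_of_nonneg_left t3.1 (by positivity)
      linarith) (fun T hT1 hT2 => by
      obtain ⟨t1, t2, t3, t4⟩ := hA T (hBA.trans hT1)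
      beta_reduce
      have h2 := cum_mono p hT2
      have h3 : 0 ≤ (g + ε / 2) * EE T := by positivity
      linarith)
  filter_upwards [EE_tendsto.eventually_ge_atTop (cum p (2 * B) * (2 / ε)), eventually_ge_atTop B] with X h2 h3
  have h4 := h1 X h3
  beta_reduce at h4
  have h5 : cum p (2 * B) ≤ ε / 2 * EE X := by
    have h6 := mul_le_mul_of_nonneg_left h2 (by positivity : 0 ≤ ε / 2)
    have e : ε / 2 * (cum p (2 * B) * (2 / ε)) = cum p (2 * B) := by field_simp
    linarith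
  linarith

/-- lower bounds, from blocks to all heights -/
lemma lo_cum (p : ℂ → Prop) {g : ℝ} (hg : 0 ≤ g) (h : ∀ ε : ℝ, 0 < ε → ∀ᶠ T : ℝ in atTop, (g - ε) * EE T ≤ tot T p) :
    ∀ ε : ℝ, 0 < ε → ∀ᶠ X : ℝ in atTop, (g - ε) * EE X ≤ cum p X := by
  intro ε hε
  rcases le_or_gt (g - ε / 2) 0 with hg2 | hg2
  · filter_upwards [EE_pos] with X hX
    have h1 : (g - ε) * EE X ≤ 0 := mul_nonpos_of_nonpos_of_nonneg (by linarith) hX.le
    exact h1.trans (cum_nonneg _ _)
  obtain ⟨η, hη⟩ : ∃ η, η = ε / (4 * (g + 1)) := ⟨_, rfl⟩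
  have hη0 : 0 < η := by rw [hη]; positivity
  have hgη : (g - ε / 2) * (1 + η) ≤ g - ε / 4 := by
    have h1 : g * η ≤ ε / 4 := by
      rw [hη]
      rw [mul_div_assoc', div_le_div_iff₀ (by positivity) (by norm_num)]
      nlinarith
    nlinarith [mul_pos hε hη0]
  obtain ⟨A, hA⟩ := Filter.eventually_atTop.1 ((h (ε / 4) (by positivity)).and ((EE_pos).and
    ((EE_double η hη0).and (eventually_ge_atTop 10))))
  obtain ⟨B, hBd⟩ : ∃ B, B = max A 10 := ⟨_, rfl⟩
  have hB10 : 10 ≤ B := by rw [hBd]; exact le_max_right _ _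
  have hBA : A ≤ B := by rw [hBd]; exact le_max_left _ _
  obtain ⟨C, hC⟩ : ∃ C, C = (g - ε / 2) * (2 * B * Real.log (2 * B) / (2 * Real.pi)) := ⟨_, rfl⟩
  have hpi := Real.pi_pos
  have h1 := dyad (h := fun X => cum p X - (g - ε / 2) * EE X) (A := B) (C := C) (by linarith)
    (fun T hT => by
      obtain ⟨t1, t2, t3, t4⟩ := hA T (hBA.trans hT)
      have h2 := cum_split p (T := T) (by linarith)
      beta_reduce
      rw [h2]
      have h3 : (g - ε / 2) * EE (2 * T) ≤ (g - ε / 2) * ((2 + η) * EE T) := mul_le_mul_of_nonneg_left t3.2 hg2.le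
      have h4 : (g - ε / 2) * (1 + η) * EE T ≤ (g - ε / 4) * EE T := mul_le_mul_of_nonneg_right hgη t2.le
      linarith) (fun T hT1 hT2 => by
      beta_reduce
      have h2 := cum_nonneg p T
      have h3 : (g - ε / 2) * EE T ≤ C := by
        rw [hC]
        refine mul_le_mul_of_nonneg_left ?_ hg2.le
        unfold EE
        have h4 : Real.log T ≤ Real.log (2 * B) := Real.log_le_log (by linarith) hT2
        have h5 : 0 ≤ Real.log T := Real.log_nonneg (by linarith)
        have h6 : 0 ≤ T := by linarith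
        gcongr
      linarith)
  have hC0 : 0 ≤ C := by
    rw [hC]
    have : 0 ≤ Real.log (2 * B) := Real.log_nonneg (by linarith)
    positivity
  filter_upwards [EE_tendsto.eventually_ge_atTop (C * (2 / ε)), eventually_ge_atTop B] with X h2 h3
  have h4 := h1 X h3
  beta_reduce at h4
  have h5 : C ≤ ε / 2 * EE X := by
    have h6 := mul_le_mul_of_nonneg_left h2 (by positivity : 0 ≤ ε / 2)
    have e : ε / 2 * (C * (2 / ε)) = C := by field_simp
    linarith
  linarith

/-- asymptotics, from blocks to all heights -/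
lemma asy_cum (p : ℂ → Prop) {g : ℝ} (hg : 0 ≤ g)
    (h : ∀ ε : ℝ, 0 < ε → ∀ᶠ T : ℝ in atTop, |tot T p - g * EE T| ≤ ε * EE T) :
    ∀ ε : ℝ, 0 < ε → ∀ᶠ X : ℝ in atTop, |cum p X - g * EE X| ≤ ε * EE X := by
  intro ε hε
  filter_upwards [up_cum p hg (fun e he => by
      filter_upwards [h e he] with T hT
      linarith [(abs_le.1 hT).2]) ε hε, lo_cum p hg (fun e he => by
      filter_upwards [h e he] with T hT
      linarith [(abs_le.1 hT).1]) ε hε] with X h1 h2
  rw [abs_le]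
  constructor <;> linarith

/-- asymptotics, from all heights to blocks -/
lemma asy_tot (p : ℂ → Prop) {g : ℝ} (hg : 0 ≤ g)
    (h : ∀ ε : ℝ, 0 < ε → ∀ᶠ X : ℝ in atTop, |cum p X - g * EE X| ≤ ε * EE X) :
    ∀ ε : ℝ, 0 < ε → ∀ᶠ T : ℝ in atTop, |tot T p - g * EE T| ≤ ε * EE T := by
  intro ε hε
  obtain ⟨η, hη⟩ : ∃ η, η = min 1 (ε / (4 * (g + 1))) := ⟨_, rfl⟩
  have hη0 : 0 < η := by rw [hη]; positivity
  have hη1 : η ≤ 1 := by rw [hη]; exact min_le_left _ _
  have hgη : g * η ≤ ε / 4 := by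
    have h1 : η ≤ ε / (4 * (g + 1)) := by rw [hη]; exact min_le_right _ _
    rw [le_div_iff₀ (by positivity)] at h1
    nlinarith
  have h2t : Tendsto (fun T : ℝ => 2 * T) atTop atTop := tendsto_id.const_mul_atTop (by norm_num)
  filter_upwards [h (ε / 8) (by positivity), h2t.eventually (h (ε / 8) (by positivity)), EE_double η hη0, EE_pos,
    eventually_ge_atTop 10] with T t1 t2 t3 t4 t5
  have h1 := cum_split p (T := T) (by linarith)
  have e : tot T p - g * EE T = (cum p (2 * T) - g * EE (2 * T)) - (cum p T - g * EE T) +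
      g * (EE (2 * T) - 2 * EE T) := by rw [h1]; ring
  have h2 : 0 ≤ g * (EE (2 * T) - 2 * EE T) := mul_nonneg hg (by linarith [t3.1])
  have h3 : g * (EE (2 * T) - 2 * EE T) ≤ ε / 4 * EE T := by
    have h4 : g * (EE (2 * T) - 2 * EE T) ≤ g * (η * EE T) := mul_le_mul_of_nonneg_left (by linarith [t3.2]) hg
    have h5 : g * η * EE T ≤ ε / 4 * EE T := mul_le_mul_of_nonneg_right hgη t4.le
    linarith
  have h4 : ε / 8 * EE (2 * T) ≤ ε / 8 * (3 * EE T) := by
    refine mul_le_mul_of_nonneg_left ?_ (by positivity)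
    have : η * EE T ≤ 1 * EE T := mul_le_mul_of_nonneg_right hη1 t4.le
    linarith [t3.2]
  have h5 := abs_le.1 t1
  have h6 := abs_le.1 t2
  have h7 : 0 < ε * EE T := by positivity
  rw [e, abs_le]
  constructor <;> linarith [h5.1, h5.2, h6.1, h6.2]

/-- the number of all zeros -/
lemma cum_all : ∀ ε : ℝ, 0 < ε → ∀ᶠ X : ℝ in atTop, |cum (fun _ => True) X - EE X| ≤ ε * EE X := by
  intro ε hε
  have h := asy_cum (fun _ => True) (g := 1) (by norm_num) (fun e he => by
    filter_upwards [tot_all he] with T hT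
    rw [one_mul]
    exact hT) ε hε
  filter_upwards [h] with X hX
  rwa [one_mul] at hX

/-- asymptotics relative to the number of all zeros -/
lemma asy_N (p : ℂ → Prop) {g : ℝ} (hg : 0 ≤ g) :
    (∀ ε : ℝ, 0 < ε → ∀ᶠ X : ℝ in atTop, |cum p X - g * cum (fun _ => True) X| ≤ ε * cum (fun _ => True) X) ↔
    ∀ ε : ℝ, 0 < ε → ∀ᶠ T : ℝ in atTop, |tot T p - g * EE T| ≤ ε * EE T := by
  constructor
  · intro h
    refine asy_tot p hg fun ε hε => ?_
    filter_upwards [h (ε / 4) (by positivity), cum_all (min (1 / 2) (ε / (4 * (g + 1)))) (by positivity), EE_pos] with X h1 h2 h3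
    have h4 := abs_le.1 h1
    have h5 := abs_le.1 h2
    have h6 : min (1 / 2) (ε / (4 * (g + 1))) * EE X ≤ 1 / 2 * EE X := mul_le_mul_of_nonneg_right (min_le_left _ _) h3.le
    have h7 : g * (min (1 / 2) (ε / (4 * (g + 1))) * EE X) ≤ ε / 4 * EE X := by
      have h8 : min (1 / 2) (ε / (4 * (g + 1))) ≤ ε / (4 * (g + 1)) := min_le_right _ _
      rw [le_div_iff₀ (by positivity)] at h8
      have h9 : 0 < min (1 / 2) (ε / (4 * (g + 1))) := by positivity
      have h10 : g * min (1 / 2) (ε / (4 * (g + 1))) ≤ ε / 4 := by nlinarith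
      have := mul_le_mul_of_nonneg_right h10 h3.le
      linarith
    have h8 : g * (cum (fun _ => True) X - EE X) ≤ g * (min (1 / 2) (ε / (4 * (g + 1))) * EE X) :=
      mul_le_mul_of_nonneg_left h5.2 hg
    have h9 : g * (-(min (1 / 2) (ε / (4 * (g + 1))) * EE X)) ≤ g * (cum (fun _ => True) X - EE X) :=
      mul_le_mul_of_nonneg_left h5.1 hg
    have h10 : ε / 4 * cum (fun _ => True) X ≤ ε / 4 * (2 * EE X) := mul_le_mul_of_nonneg_left (by linarith) (by positivity)
    have h11 : 0 < ε * EE X := by positivity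
    rw [abs_le]
    constructor <;> linarith [h4.1, h4.2]
  · intro h ε hε
    filter_upwards [asy_cum p hg h (ε / 4) (by positivity), cum_all (min (1 / 2) (ε / (8 * (g + 1)))) (by positivity),
      EE_pos] with X h1 h2 h3
    have h4 := abs_le.1 h1
    have h5 := abs_le.1 h2
    have h6 : min (1 / 2) (ε / (8 * (g + 1))) * EE X ≤ 1 / 2 * EE X := mul_le_mul_of_nonneg_right (min_le_left _ _) h3.le
    have h7 : g * (min (1 / 2) (ε / (8 * (g + 1))) * EE X) ≤ ε / 8 * EE X := by
      have h8 : min (1 / 2) (ε / (8 * (g + 1))) ≤ ε / (8 * (g + 1)) := min_le_right _ _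
      rw [le_div_iff₀ (by positivity)] at h8
      have h9 : 0 < min (1 / 2) (ε / (8 * (g + 1))) := by positivity
      have h10 : g * min (1 / 2) (ε / (8 * (g + 1))) ≤ ε / 8 := by nlinarith
      have := mul_le_mul_of_nonneg_right h10 h3.le
      linarith
    have h8 : g * (cum (fun _ => True) X - EE X) ≤ g * (min (1 / 2) (ε / (8 * (g + 1))) * EE X) :=
      mul_le_mul_of_nonneg_left h5.2 hg
    have h9 : g * (-(min (1 / 2) (ε / (8 * (g + 1))) * EE X)) ≤ g * (cum (fun _ => True) X - EE X) :=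
      mul_le_mul_of_nonneg_left h5.1 hg
    have h10 : ε * (1 / 2 * EE X) ≤ ε * cum (fun _ => True) X := mul_le_mul_of_nonneg_left (by linarith) hε.le
    have h11 : 0 < ε * EE X := by positivity
    rw [abs_le]
    constructor <;> linarith [h4.1, h4.2]

/-- upper bounds relative to the number of all zeros -/
lemma up_N (p : ℂ → Prop) {g : ℝ} (hg : 0 ≤ g) (hg1 : g ≤ 1)
    (h : ∀ ε : ℝ, 0 < ε → ∀ᶠ T : ℝ in atTop, tot T p ≤ (g + ε) * EE T) :
    ∀ ε : ℝ, 0 < ε → ∀ᶠ X : ℝ in atTop, cum p X ≤ (g + ε) * cum (fun _ => True) X := by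
  intro ε hε
  filter_upwards [up_cum p hg h (ε / 4) (by positivity), cum_all (min (1 / 2) (ε / 8)) (by positivity),
      EE_pos] with X h1 h2 h3
  have h5 := abs_le.1 h2
  have h6 : min (1 / 2) (ε / 8) * EE X ≤ 1 / 2 * EE X := mul_le_mul_of_nonneg_right (min_le_left _ _) h3.le
  have h7 : min (1 / 2) (ε / 8) * EE X ≤ ε / 8 * EE X := mul_le_mul_of_nonneg_right (min_le_right _ _) h3.le
  have h8 : g * (EE X - cum (fun _ => True) X) ≤ g * (ε / 8 * EE X) := mul_le_mul_of_nonneg_left (by linarith [h5.1]) hg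
  have h9 : g * (ε / 8 * EE X) ≤ 1 * (ε / 8 * EE X) := mul_le_mul_of_nonneg_right hg1 (by positivity)
  have h10 : ε * (1 / 2 * EE X) ≤ ε * cum (fun _ => True) X := mul_le_mul_of_nonneg_left (by linarith [h5.1]) hε.le
  have h11 : 0 < ε * EE X := by positivity
  linarith

end

end Pool.Agent.K4H6.GL
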