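import Pool.Agent.K4H6.Qn.Fd
import Pool.Agent.K4H6.Qn.Bn
import Pool.Agent.Y745.SW.Final

set_option autoImplicit false

/-! The zeros of zeta in short windows around arbitrary sets of heights, in the block `(T, 2T]`. -/

namespace Pool.Agent.K4H6.GL

open Filter Topology MeasureTheory Complex H370 Pool.Agent.K4H6.Win Pool.Agent.K4H6.Qn Pool.Agent.K4H6.Cov

noncomputable section

lemma Gm_change {f : ℕ → ℝ} {V1 V2 U1 U2 t H : ℝ} (h1 : 1 ≤ V1) (h1' : 1 ≤ U1) (a : V1 ≤ t) (b : t + H ≤ V2)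
    (c : U1 ≤ t) (d : t + H ≤ U2) : Gm f V1 V2 H t = Gm f U1 U2 H t := by
  unfold Gm
  rw [← Finset.sum_filter, ← Finset.sum_filter]
  refine Finset.sum_congr ?_ fun _ _ => rfl
  ext s
  rw [Finset.mem_filter, Finset.mem_filter, mem_Zf good_zeta h1, mem_Zf good_zeta h1']
  constructor
  · rintro ⟨⟨x1, x2, x3, x4, x5⟩, y1, y2⟩
    exact ⟨⟨x1, x2, by linarith, by linarith, x5⟩, y1, y2⟩
  · rintro ⟨⟨x1, x2, x3, x4, x5⟩, y1, y2⟩
    exact ⟨⟨x1, x2, by linarith, by linarith, x5⟩, y1, y2⟩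

/-- the number of zeros in short windows around a set of heights -/
theorem arbN {ε : ℝ} (hε : 0 < ε) : ∃ h0 : ℝ, 0 < h0 ∧ ∀ᶠ T : ℝ in atTop, ∀ H : ℝ, h0 / Real.log T ≤ H →
    ∀ S : Set ℝ, MeasurableSet S → S ⊆ Set.Icc (T + 3 * Real.log T) (2 * T - 3 * Real.log T - H) →
    |(∫ t in S, Gm (fun m => m) T (2 * T) H t) - volume.real S * (H * Real.log T / (2 * Real.pi))| ≤
        ε * T * (H * Real.log T / (2 * Real.pi)) := by
  have hB : BoxSum (n := 1) (fun _ => 1 / 4) (fun _ => 2) := by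
    refine ⟨fun i => by norm_num, fun i => by norm_num, fun i => by norm_num, ?_⟩
    simp
    norm_num
  have hker := ker_n hB
  have hRi : (∫ x in (0:ℝ)..1, x * Rn (n := 1) (fun _ => 1 / 4) (fun _ => 2) x) ≤ 1 / 2 :=
    (Rn_int_le hB).trans (by norm_num)
  have hR0 : Rn (n := 1) (fun _ => 1 / 4) (fun _ => 2) 0 ≤ 5 := by
    unfold Rn trap
    simp
    norm_num
  obtain ⟨h0, hh0, h⟩ := arbD hker hR0 hRi (ε := min ε (1 / 10)) (by positivity) (min_le_right _ _)
  refine ⟨h0, hh0, ?_⟩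
  filter_upwards [h, Real.tendsto_log_atTop.eventually_ge_atTop 1, eventually_ge_atTop 10] with T hT hL hT10
  obtain ⟨U1, U2, hU1, hU1', hU2, hU2', hmn⟩ := hT
  intro H hH S hS hSI
  have h1 := (hmn H hH S hS hSI).2
  have hH0 : 0 < H := lt_of_lt_of_le (by positivity) hH
  have e : ∫ t in S, Gm (fun m => m) T (2 * T) H t = ∫ t in S, Gm (fun m => m) U1 U2 H t :=
    setIntegral_congr_fun hS fun t ht => by
      have h2 := hSI ht
      exact Gm_change (by linarith) (by linarith) (by linarith [h2.1]) (by linarith [h2.2]) (by linarith [h2.1])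
        (by linarith [h2.2])
  rw [e]
  refine h1.trans ?_
  have hpi := Real.pi_pos
  gcongr
  exact min_le_left _ _

end

end Pool.Agent.K4H6.GL
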