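import Mathlib

set_option autoImplicit false

/-! Dividing out the zeros near a simple zero. -/

namespace Pool.Agent.K4H6.GL

open Filter Topology Metric

/-- dividing out one zero -/
lemma div_zero1 {U : Set ℂ} (hU : IsOpen U) {f : ℂ → ℂ} (hf : DifferentiableOn ℂ f U) {w : ℂ} (hw : w ∈ U)
    (hfin : analyticOrderAt f w ≠ ⊤) : ∃ g : ℂ → ℂ, DifferentiableOn ℂ g U ∧ g w ≠ 0 ∧
    ∀ z, f z = (z - w) ^ (analyticOrderNatAt f w) * g z := by
  classical
  have ha : AnalyticAt ℂ f w := hf.analyticAt (hU.mem_nhds hw)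
  obtain ⟨g0, hg0, hg0w, he⟩ := (ha.analyticOrderAt_ne_top).1 hfin
  set n := analyticOrderNatAt f w with hn
  have hgne : ∀ z : ℂ, z ≠ w → (z - w) ^ n ≠ 0 := fun z hz => pow_ne_zero _ (sub_ne_zero.2 hz)
  refine ⟨fun z => if z = w then g0 w else f z / (z - w) ^ n, ?_, ?_, ?_⟩
  · intro z hz
    rcases eq_or_ne z w with h | h
    · rw [h]
      have h1 : (fun z => if z = w then g0 w else f z / (z - w) ^ n) =ᶠ[𝓝 w] g0 := by
        filter_upwards [he] with z hz
        by_cases h2 : z = w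
        · rw [if_pos h2, h2]
        · rw [if_neg h2, hz, smul_eq_mul, mul_div_cancel_left₀ _ (hgne z h2)]
      exact (h1.differentiableAt_iff.2 hg0.differentiableAt).differentiableWithinAt
    · have h1 : (fun z => if z = w then g0 w else f z / (z - w) ^ n) =ᶠ[𝓝 z] fun z => f z / (z - w) ^ n := by
        filter_upwards [isOpen_ne.mem_nhds h] with u hu
        rw [if_neg hu]
      have h2 : DifferentiableAt ℂ f z := (hf z hz).differentiableAt (hU.mem_nhds hz)
      refine (h1.differentiableAt_iff.2 ?_).differentiableWithinAt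
      exact h2.div (by fun_prop) (hgne z h)
  · beta_reduce
    rw [if_pos rfl]
    exact hg0w
  · intro z
    beta_reduce
    by_cases h2 : z = w
    · rw [if_pos h2, h2]
      have := he.self_of_nhds
      beta_reduce at this
      rw [smul_eq_mul] at this
      exact this
    · rw [if_neg h2, mul_div_cancel₀ _ (hgne z h2)]

/-- dividing out finitely many zeros -/
lemma fac {U : Set ℂ} (hU : IsOpen U) {f : ℂ → ℂ} (hf : DifferentiableOn ℂ f U) (Z : Finset ℂ)
    (hZ : ∀ w ∈ Z, w ∈ U ∧ analyticOrderAt f w ≠ ⊤) : ∃ F : ℂ → ℂ, DifferentiableOn ℂ F U ∧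
    (∀ w ∈ Z, F w ≠ 0) ∧ ∀ z, f z = (∏ w ∈ Z, (z - w) ^ (analyticOrderNatAt f w)) * F z := by
  classical
  induction Z using Finset.induction_on with
  | empty => exact ⟨f, hf, fun w hw => absurd hw (Finset.notMem_empty w), fun z => by simp⟩
  | insert w' Z hw' ih =>
    obtain ⟨F, hF, hF1, hF2⟩ := ih fun w hw => hZ w (Finset.mem_insert_of_mem hw)
    obtain ⟨hwU, hfin⟩ := hZ w' (Finset.mem_insert_self _ _)
    have hFa : AnalyticAt ℂ F w' := hF.analyticAt (hU.mem_nhds hwU)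
    have hPd : Differentiable ℂ (fun z : ℂ => ∏ w ∈ Z, (z - w) ^ (analyticOrderNatAt f w)) := by fun_prop
    have hPa : AnalyticAt ℂ (fun z : ℂ => ∏ w ∈ Z, (z - w) ^ (analyticOrderNatAt f w)) w' := hPd.analyticAt w'
    have hP0 : (fun z : ℂ => ∏ w ∈ Z, (z - w) ^ (analyticOrderNatAt f w)) w' ≠ 0 := by
      beta_reduce
      rw [Finset.prod_ne_zero_iff]
      intro w hw
      refine pow_ne_zero _ (sub_ne_zero.2 ?_)
      rintro rfl
      exact hw' hw
    have he : f = (fun z : ℂ => ∏ w ∈ Z, (z - w) ^ (analyticOrderNatAt f w)) * F := funext hF2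
    have hord : analyticOrderAt F w' = analyticOrderAt f w' := by
      have h1 : analyticOrderAt f w' = analyticOrderAt ((fun z : ℂ => ∏ w ∈ Z, (z - w) ^ (analyticOrderNatAt f w)) * F) w' := by
        rw [← he]
      rw [h1, analyticOrderAt_mul hPa hFa, hPa.analyticOrderAt_eq_zero.2 hP0, zero_add]
    obtain ⟨g, hg, hg1, hg2⟩ := div_zero1 hU hF hwU (by rw [hord]; exact hfin)
    have hnat : analyticOrderNatAt F w' = analyticOrderNatAt f w' := by
      unfold analyticOrderNatAt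
      rw [hord]
    rw [hnat] at hg2
    refine ⟨g, hg, ?_, ?_⟩
    · intro w hw
      rw [Finset.mem_insert] at hw
      rcases hw with h | h
      · rw [h]; exact hg1
      · intro h0
        refine hF1 w h ?_
        rw [hg2 w, h0, mul_zero]
    · intro z
      rw [Finset.prod_insert hw', hF2 z, hg2 z]
      ring

/-- the function without the zeros near a simple zero -/
theorem local_fac {U : Set ℂ} (hU : IsOpen U) {f : ℂ → ℂ} (hf : DifferentiableOn ℂ f U) {s : ℂ} {r : ℝ} (hr : 0 < r)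
    (hball : closedBall s (2 * r) ⊆ U) (hs0 : f s = 0) (hs1 : deriv f s ≠ 0) (Z : Finset ℂ) (hZs : s ∉ Z)
    (hZ : ∀ w ∈ Z, w ∈ closedBall s r ∧ f w = 0 ∧ analyticOrderAt f w ≠ ⊤)
    (hall : ∀ w ∈ closedBall s r, f w = 0 → w = s ∨ w ∈ Z) {M : ℝ}
    (hM : ∀ z ∈ sphere s (2 * r), ‖f z‖ ≤ Real.exp M) :
    ∃ F : ℂ → ℂ, AnalyticOnNhd ℂ F (closedBall s r) ∧ F s = 0 ∧ deriv F s ≠ 0 ∧
      (∀ z ∈ closedBall s r, z ≠ s → F z ≠ 0) ∧
      (∀ z ∈ closedBall s r, ‖F z‖ ≤ Real.exp (M + (∑ w ∈ Z, (analyticOrderNatAt f w : ℝ)) * Real.log 2)) ∧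
      Real.log ‖deriv F s‖ = Real.log ‖deriv f s‖ +
        ∑ w ∈ Z, (analyticOrderNatAt f w : ℝ) * Real.log (2 * r / ‖s - w‖) ∧
      ∀ z, f z ≠ 0 → Real.log ‖F z‖ = Real.log ‖f z‖ +
        ∑ w ∈ Z, (analyticOrderNatAt f w : ℝ) * Real.log (2 * r / ‖z - w‖) := by
  have h2r : 0 < 2 * r := by linarith
  obtain ⟨G, hG, hG1, hG2⟩ := fac hU hf Z fun w hw =>
    ⟨hball (closedBall_subset_closedBall (by linarith) (hZ w hw).1), (hZ w hw).2.2⟩
  obtain ⟨m, hm⟩ : ∃ m : ℂ → ℕ, m = fun w => analyticOrderNatAt f w := ⟨_, rfl⟩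
  have hm' : ∀ w, analyticOrderNatAt f w = m w := fun w => by rw [hm]
  simp_rw [hm'] at hG2 ⊢
  obtain ⟨P, hP⟩ : ∃ P : ℂ → ℂ, P = fun z => ∏ w ∈ Z, (z - w) ^ (m w) := ⟨_, rfl⟩
  have hPe : ∀ z, ∏ w ∈ Z, (z - w) ^ (m w) = P z := fun z => by rw [hP]
  simp_rw [hPe] at hG2
  obtain ⟨c, hc⟩ : ∃ c : ℝ, c = ∏ w ∈ Z, (2 * r) ^ (m w) := ⟨_, rfl⟩
  have hc0 : 0 < c := by rw [hc]; exact Finset.prod_pos fun w _ => pow_pos h2r _
  have hcC : (c : ℂ) ≠ 0 := by exact_mod_cast hc0.ne'
  have hPd : Differentiable ℂ P := by rw [hP]; fun_prop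
  have hPn : ∀ z, (∀ w ∈ Z, z ≠ w) → P z ≠ 0 := by
    intro z hz
    rw [hP]
    beta_reduce
    rw [Finset.prod_ne_zero_iff]
    exact fun w hw => pow_ne_zero _ (sub_ne_zero.2 (hz w hw))
  have hlog : ∀ z, (∀ w ∈ Z, z ≠ w) → Real.log c - Real.log ‖P z‖ = ∑ w ∈ Z, (m w : ℝ) * Real.log (2 * r / ‖z - w‖) := by
    intro z hz
    rw [hc, hP, Real.log_prod (fun w _ => (pow_pos h2r _).ne')]
    beta_reduce
    rw [norm_prod, Real.log_prod (fun w hw => by
      rw [norm_pow]
      exact pow_ne_zero _ (norm_ne_zero_iff.2 (sub_ne_zero.2 (hz w hw)))), ← Finset.sum_sub_distrib]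
    refine Finset.sum_congr rfl fun w hw => ?_
    rw [norm_pow, Real.log_pow, Real.log_pow, Real.log_div h2r.ne' (norm_ne_zero_iff.2 (sub_ne_zero.2 (hz w hw)))]
    ring
  have hsZ : ∀ w ∈ Z, s ≠ w := by
    rintro w hw rfl
    exact hZs hw
  have hPs : P s ≠ 0 := hPn s hsZ
  have hGs : G s = 0 := by
    have h1 := hG2 s
    rw [hs0] at h1
    rcases mul_eq_zero.1 h1.symm with h | h
    · exact absurd h hPs
    · exact h
  have hsU : s ∈ U := hball (mem_closedBall_self h2r.le)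
  have hGd : DifferentiableAt ℂ G s := (hG s hsU).differentiableAt (hU.mem_nhds hsU)
  have hder : deriv f s = P s * deriv G s := by
    have h1 : f = fun z => P z * G z := funext hG2
    have h2 := (hPd s).hasDerivAt.mul hGd.hasDerivAt
    have h3 : deriv f s = deriv P s * G s + P s * deriv G s := by
      rw [h1]
      exact h2.deriv
    rw [h3, hGs, mul_zero, zero_add]
  have hGs1 : deriv G s ≠ 0 := by
    intro h
    exact hs1 (by rw [hder, h, mul_zero])
  have hFd : DifferentiableOn ℂ (fun z => (c : ℂ) * G z) U := hG.const_mul _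
  have hFder : deriv (fun z => (c : ℂ) * G z) s = c * deriv G s := deriv_const_mul _ hGd
  refine ⟨fun z => (c : ℂ) * G z, (hFd.analyticOnNhd hU).mono ((closedBall_subset_closedBall (by linarith)).trans hball),
    ?_, ?_, ?_, ?_, ?_, ?_⟩
  · beta_reduce
    rw [hGs, mul_zero]
  · rw [hFder]
    exact mul_ne_zero hcC hGs1
  · intro z hz hzs h0
    beta_reduce at h0
    have h1 : G z = 0 := by
      rcases mul_eq_zero.1 h0 with h | h
      · exact absurd h hcC
      · exact h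
    have h2 : f z = 0 := by rw [hG2 z, h1, mul_zero]
    rcases hall z hz h2 with h | h
    · exact hzs h
    · exact hG1 z h h1
  · -- the maximum principle
    intro z hz
    beta_reduce
    refine Complex.norm_le_of_forall_mem_frontier_norm_le (U := ball s (2 * r)) isBounded_ball
      (f := fun z => (c : ℂ) * G z) (hFd.diffContOnCl_ball hball) ?_ ?_
    · intro u hu
      rw [frontier_ball s h2r.ne'] at hu
      have h1 := hM u hu
      rw [mem_sphere, dist_eq_norm] at hu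
      have hd : ∀ w ∈ Z, r ≤ ‖u - w‖ := by
        intro w hw
        have h2 := (hZ w hw).1
        rw [mem_closedBall, dist_eq_norm] at h2
        have h3 : ‖u - s‖ ≤ ‖u - w‖ + ‖w - s‖ := by
          have := norm_add_le (u - w) (w - s)
          rwa [sub_add_sub_cancel] at this
        linarith
      have hPlow : ∏ w ∈ Z, r ^ (m w) ≤ ‖P u‖ := by
        rw [hP]
        beta_reduce
        rw [norm_prod]
        refine Finset.prod_le_prod (fun w _ => by positivity) fun w hw => ?_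
        rw [norm_pow]
        exact pow_le_pow_left₀ hr.le (hd w hw) _
      have hrp : 0 < ∏ w ∈ Z, r ^ (m w) := Finset.prod_pos fun w _ => pow_pos hr _
      have hc2 : c = (∏ w ∈ Z, (2:ℝ) ^ (m w)) * ∏ w ∈ Z, r ^ (m w) := by
        rw [hc, ← Finset.prod_mul_distrib]
        refine Finset.prod_congr rfl fun w _ => ?_
        rw [mul_pow]
      have h2p : 0 < ∏ w ∈ Z, (2:ℝ) ^ (m w) := Finset.prod_pos fun w _ => pow_pos (by norm_num) _
      have hexp : Real.exp ((∑ w ∈ Z, (m w : ℝ)) * Real.log 2) = ∏ w ∈ Z, (2:ℝ) ^ (m w) := by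
        rw [Finset.sum_mul, Real.exp_sum]
        refine Finset.prod_congr rfl fun w _ => ?_
        rw [Real.exp_nat_mul, Real.exp_log (by norm_num)]
      beta_reduce
      rw [norm_mul, Complex.norm_real, Real.norm_of_nonneg hc0.le, Real.exp_add, hexp]
      have h4 : ‖f u‖ = ‖P u‖ * ‖G u‖ := by rw [hG2 u, norm_mul]
      have h5 : (∏ w ∈ Z, r ^ (m w)) * ‖G u‖ ≤ ‖f u‖ := by
        rw [h4]
        exact mul_le_mul_of_nonneg_right hPlow (norm_nonneg _)
      calc c * ‖G u‖ = (∏ w ∈ Z, (2:ℝ) ^ (m w)) * ((∏ w ∈ Z, r ^ (m w)) * ‖G u‖) := by rw [hc2]; ring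
        _ ≤ (∏ w ∈ Z, (2:ℝ) ^ (m w)) * Real.exp M := mul_le_mul_of_nonneg_left (h5.trans h1) h2p.le
        _ = _ := by ring
    · rw [closure_ball s h2r.ne']
      exact closedBall_subset_closedBall (by linarith) hz
  · rw [hFder, hder, norm_mul, norm_mul, Complex.norm_real, Real.norm_of_nonneg hc0.le,
      Real.log_mul hc0.ne' (norm_ne_zero_iff.2 hGs1), Real.log_mul (norm_ne_zero_iff.2 hPs) (norm_ne_zero_iff.2 hGs1),
      ← hlog s hsZ]
    ring
  · intro z hz
    beta_reduce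
    have hzZ : ∀ w ∈ Z, z ≠ w := by
      rintro w hw rfl
      exact hz (hZ z hw).2.1
    have hPz := hPn z hzZ
    have hGz : G z ≠ 0 := by
      intro h
      exact hz (by rw [hG2 z, h, mul_zero])
    rw [hG2 z, norm_mul, norm_mul, Complex.norm_real, Real.norm_of_nonneg hc0.le,
      Real.log_mul hc0.ne' (norm_ne_zero_iff.2 hGz), Real.log_mul (norm_ne_zero_iff.2 hPz) (norm_ne_zero_iff.2 hGz),
      ← hlog z hzZ]
    ring

end Pool.Agent.K4H6.GL
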