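import Pool.Agent.K4H6.GL.Fac
import Pool.Agent.Y655.SW.Har

set_option autoImplicit false

/-! Dividing out all the zeros near a zero of any multiplicity. -/

namespace Pool.Agent.K4H6.GL

open Filter Topology Metric

/-- the leading Taylor coefficient -/
lemma lead_eq {f g : ℂ → ℂ} {s : ℂ} {n : ℕ} (hg : AnalyticAt ℂ g s) (hgs : g s ≠ 0)
    (h : ∀ z, f z = (z - s) ^ n * g z) : meromorphicTrailingCoeffAt f s = g s := by
  refine AnalyticAt.meromorphicTrailingCoeffAt_of_ne_zero_of_eq_nhdsNE (n := (n : ℤ)) hg hgs ?_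
  refine Filter.Eventually.of_forall fun z => ?_
  beta_reduce
  rw [h z, zpow_natCast, smul_eq_mul]

/-- the function without the zeros near a zero -/
theorem local_facG {U : Set ℂ} (hU : IsOpen U) {f : ℂ → ℂ} (hf : DifferentiableOn ℂ f U) {s : ℂ} {r : ℝ} (hr : 0 < r)
    (hball : closedBall s (2 * r) ⊆ U) (Z : Finset ℂ) (hZs : s ∉ Z)
    (hs : analyticOrderAt f s ≠ ⊤) (hs0 : f s = 0)
    (hZ : ∀ w ∈ Z, w ∈ closedBall s r ∧ f w = 0 ∧ analyticOrderAt f w ≠ ⊤)
    (hall : ∀ w ∈ closedBall s r, f w = 0 → w = s ∨ w ∈ Z) {M : ℝ}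
    (hM : ∀ z ∈ sphere s (2 * r), ‖f z‖ ≤ Real.exp M) :
    ∃ F : ℂ → ℂ, AnalyticOnNhd ℂ F (closedBall s r) ∧
      (∀ z ∈ closedBall s r, F z ≠ 0) ∧
      (∀ z ∈ closedBall s r, ‖F z‖ ≤
        Real.exp (M + ((analyticOrderNatAt f s : ℝ) + ∑ w ∈ Z, (analyticOrderNatAt f w : ℝ)) * Real.log 2)) ∧
      Real.log ‖F s‖ = Real.log ‖meromorphicTrailingCoeffAt f s‖ +
        ((analyticOrderNatAt f s : ℝ) * Real.log (2 * r) +
          ∑ w ∈ Z, (analyticOrderNatAt f w : ℝ) * Real.log (2 * r / ‖s - w‖)) ∧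
      ∀ z, f z ≠ 0 → Real.log ‖F z‖ = Real.log ‖f z‖ +
        ((analyticOrderNatAt f s : ℝ) * Real.log (2 * r / ‖z - s‖) +
          ∑ w ∈ Z, (analyticOrderNatAt f w : ℝ) * Real.log (2 * r / ‖z - w‖)) := by
  classical
  have h2r : 0 < 2 * r := by linarith
  obtain ⟨G, hG, hG1, hG2⟩ := fac hU hf (insert s Z) fun w hw => by
    rw [Finset.mem_insert] at hw
    rcases hw with h | h
    · rw [h]
      exact ⟨hball (mem_closedBall_self h2r.le), hs⟩
    · exact ⟨hball (closedBall_subset_closedBall (by linarith) (hZ w h).1), (hZ w h).2.2⟩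
  obtain ⟨m, hm⟩ : ∃ m : ℂ → ℕ, m = fun w => analyticOrderNatAt f w := ⟨_, rfl⟩
  have hm' : ∀ w, analyticOrderNatAt f w = m w := fun w => by rw [hm]
  simp_rw [hm'] at hG2 ⊢
  have hsI : ∀ g : ℂ → ℝ, (g s + ∑ w ∈ Z, g w) = ∑ w ∈ insert s Z, g w := fun g => by
    rw [Finset.sum_insert hZs]
  obtain ⟨P, hP⟩ : ∃ P : ℂ → ℂ, P = fun z => ∏ w ∈ insert s Z, (z - w) ^ (m w) := ⟨_, rfl⟩
  have hPe : ∀ z, ∏ w ∈ insert s Z, (z - w) ^ (m w) = P z := fun z => by rw [hP]
  obtain ⟨c, hc⟩ : ∃ c : ℝ, c = ∏ w ∈ insert s Z, (2 * r) ^ (m w) := ⟨_, rfl⟩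
  have hc0 : 0 < c := by rw [hc]; exact Finset.prod_pos fun w _ => pow_pos h2r _
  have hcC : (c : ℂ) ≠ 0 := by exact_mod_cast hc0.ne'
  have hPn : ∀ z, (∀ w ∈ insert s Z, z ≠ w) → P z ≠ 0 := by
    intro z hz
    rw [hP]
    beta_reduce
    rw [Finset.prod_ne_zero_iff]
    exact fun w hw => pow_ne_zero _ (sub_ne_zero.2 (hz w hw))
  have hlog : ∀ z, (∀ w ∈ insert s Z, z ≠ w) → Real.log c - Real.log ‖P z‖ =
      ∑ w ∈ insert s Z, (m w : ℝ) * Real.log (2 * r / ‖z - w‖) := by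
    intro z hz
    rw [hc, hP, Real.log_prod (fun w _ => (pow_pos h2r _).ne')]
    beta_reduce
    rw [norm_prod, Real.log_prod (fun w hw => by
      rw [norm_pow]
      exact pow_ne_zero _ (norm_ne_zero_iff.2 (sub_ne_zero.2 (hz w hw)))), ← Finset.sum_sub_distrib]
    refine Finset.sum_congr rfl fun w hw => ?_
    rw [norm_pow, Real.log_pow, Real.log_pow, Real.log_div h2r.ne' (norm_ne_zero_iff.2 (sub_ne_zero.2 (hz w hw)))]
    ring
  have hsZ : ∀ w ∈ Z, s ≠ w := by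
    rintro w hw rfl
    exact hZs hw
  have hGs : G s ≠ 0 := hG1 s (Finset.mem_insert_self _ _)
  have hsU : s ∈ U := hball (mem_closedBall_self h2r.le)
  have hGa : AnalyticAt ℂ G s := hG.analyticAt (hU.mem_nhds hsU)
  have hQd : Differentiable ℂ fun z : ℂ => ∏ w ∈ Z, (z - w) ^ (m w) := by fun_prop
  have hQs : (∏ w ∈ Z, (s - w) ^ (m w)) ≠ 0 := by
    rw [Finset.prod_ne_zero_iff]
    exact fun w hw => pow_ne_zero _ (sub_ne_zero.2 (hsZ w hw))
  have hlead : meromorphicTrailingCoeffAt f s = (∏ w ∈ Z, (s - w) ^ (m w)) * G s := by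
    refine lead_eq (g := fun z => (∏ w ∈ Z, (z - w) ^ (m w)) * G z) (n := m s) ((hQd.analyticAt s).mul hGa)
      (mul_ne_zero hQs hGs) fun z => ?_
    rw [hG2 z, Finset.prod_insert hZs]
    ring
  simp_rw [hPe] at hG2
  have hFd : DifferentiableOn ℂ (fun z => (c : ℂ) * G z) U := hG.const_mul _
  refine ⟨fun z => (c : ℂ) * G z, (hFd.analyticOnNhd hU).mono ((closedBall_subset_closedBall (by linarith)).trans hball),
    ?_, ?_, ?_, ?_⟩
  · intro z hz h0
    beta_reduce at h0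
    have h1 : G z = 0 := by
      rcases mul_eq_zero.1 h0 with h | h
      · exact absurd h hcC
      · exact h
    have h2 : f z = 0 := by rw [hG2 z, h1, mul_zero]
    rcases hall z hz h2 with h | h
    · rw [h] at h1
      exact hGs h1
    · exact hG1 z (Finset.mem_insert_of_mem h) h1
  · -- the maximum principle
    intro z hz
    beta_reduce
    rw [hsI (fun w => (m w : ℝ))]
    refine Complex.norm_le_of_forall_mem_frontier_norm_le (U := ball s (2 * r)) isBounded_ball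
      (f := fun z => (c : ℂ) * G z) (hFd.diffContOnCl_ball hball) ?_ ?_
    · intro u hu
      rw [frontier_ball s h2r.ne'] at hu
      have h1 := hM u hu
      rw [mem_sphere, dist_eq_norm] at hu
      have hd : ∀ w ∈ insert s Z, r ≤ ‖u - w‖ := by
        intro w hw
        rw [Finset.mem_insert] at hw
        rcases hw with h | h
        · rw [h, hu]
          linarith
        · have h2 := (hZ w h).1
          rw [mem_closedBall, dist_eq_norm] at h2
          have h3 : ‖u - s‖ ≤ ‖u - w‖ + ‖w - s‖ := by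
            have := norm_add_le (u - w) (w - s)
            rwa [sub_add_sub_cancel] at this
          linarith
      have hPlow : ∏ w ∈ insert s Z, r ^ (m w) ≤ ‖P u‖ := by
        rw [hP]
        beta_reduce
        rw [norm_prod]
        refine Finset.prod_le_prod (fun w _ => by positivity) fun w hw => ?_
        rw [norm_pow]
        exact pow_le_pow_left₀ hr.le (hd w hw) _
      have hrp : 0 < ∏ w ∈ insert s Z, r ^ (m w) := Finset.prod_pos fun w _ => pow_pos hr _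
      have hc2 : c = (∏ w ∈ insert s Z, (2:ℝ) ^ (m w)) * ∏ w ∈ insert s Z, r ^ (m w) := by
        rw [hc, ← Finset.prod_mul_distrib]
        refine Finset.prod_congr rfl fun w _ => ?_
        rw [mul_pow]
      have h2p : 0 < ∏ w ∈ insert s Z, (2:ℝ) ^ (m w) := Finset.prod_pos fun w _ => pow_pos (by norm_num) _
      have hexp : Real.exp ((∑ w ∈ insert s Z, (m w : ℝ)) * Real.log 2) = ∏ w ∈ insert s Z, (2:ℝ) ^ (m w) := by
        rw [Finset.sum_mul, Real.exp_sum]
        refine Finset.prod_congr rfl fun w _ => ?_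
        rw [Real.exp_nat_mul, Real.exp_log (by norm_num)]
      beta_reduce
      rw [norm_mul, Complex.norm_real, Real.norm_of_nonneg hc0.le, Real.exp_add, hexp]
      have h4 : ‖f u‖ = ‖P u‖ * ‖G u‖ := by rw [hG2 u, norm_mul]
      have h5 : (∏ w ∈ insert s Z, r ^ (m w)) * ‖G u‖ ≤ ‖f u‖ := by
        rw [h4]
        exact mul_le_mul_of_nonneg_right hPlow (norm_nonneg _)
      calc c * ‖G u‖ = (∏ w ∈ insert s Z, (2:ℝ) ^ (m w)) * ((∏ w ∈ insert s Z, r ^ (m w)) * ‖G u‖) := by rw [hc2]; ring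
        _ ≤ (∏ w ∈ insert s Z, (2:ℝ) ^ (m w)) * Real.exp M := mul_le_mul_of_nonneg_left (h5.trans h1) h2p.le
        _ = _ := by ring
    · rw [closure_ball s h2r.ne']
      exact closedBall_subset_closedBall (by linarith) hz
  · rw [hlead, norm_mul, norm_mul, Complex.norm_real, Real.norm_of_nonneg hc0.le,
      Real.log_mul hc0.ne' (norm_ne_zero_iff.2 hGs), Real.log_mul (norm_ne_zero_iff.2 hQs) (norm_ne_zero_iff.2 hGs)]
    have h1 : Real.log c = (m s : ℝ) * Real.log (2 * r) + ∑ w ∈ Z, (m w : ℝ) * Real.log (2 * r) := by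
      rw [hc, Real.log_prod (fun w _ => (pow_pos h2r _).ne'), Finset.sum_insert hZs, Real.log_pow]
      congr 1
      refine Finset.sum_congr rfl fun w _ => ?_
      rw [Real.log_pow]
    have h2 : Real.log ‖∏ w ∈ Z, (s - w) ^ (m w)‖ = ∑ w ∈ Z, (m w : ℝ) * Real.log ‖s - w‖ := by
      rw [norm_prod, Real.log_prod (fun w hw => by
        rw [norm_pow]
        exact pow_ne_zero _ (norm_ne_zero_iff.2 (sub_ne_zero.2 (hsZ w hw))))]
      refine Finset.sum_congr rfl fun w _ => ?_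
      rw [norm_pow, Real.log_pow]
    have h3 : ∑ w ∈ Z, (m w : ℝ) * Real.log (2 * r / ‖s - w‖) = ∑ w ∈ Z, (m w : ℝ) * Real.log (2 * r) -
        ∑ w ∈ Z, (m w : ℝ) * Real.log ‖s - w‖ := by
      rw [← Finset.sum_sub_distrib]
      refine Finset.sum_congr rfl fun w hw => ?_
      rw [Real.log_div h2r.ne' (norm_ne_zero_iff.2 (sub_ne_zero.2 (hsZ w hw)))]
      ring
    rw [h1, h2, h3]
    ring
  · intro z hz
    beta_reduce
    have hzZ : ∀ w ∈ insert s Z, z ≠ w := by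
      rintro w hw rfl
      rw [Finset.mem_insert] at hw
      rcases hw with h | h
      · rw [h] at hz
        exact hz hs0
      · exact hz (hZ z h).2.1
    have hPz := hPn z hzZ
    have hGz : G z ≠ 0 := by
      intro h
      exact hz (by rw [hG2 z, h, mul_zero])
    rw [hsI (fun w => (m w : ℝ) * Real.log (2 * r / ‖z - w‖)), hG2 z, norm_mul, norm_mul, Complex.norm_real,
      Real.norm_of_nonneg hc0.le, Real.log_mul hc0.ne' (norm_ne_zero_iff.2 hGz),
      Real.log_mul (norm_ne_zero_iff.2 hPz) (norm_ne_zero_iff.2 hGz), ← hlog z hzZ]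
    ring

/-- a function without zeros varies slowly -/
lemma harG {C : ℝ}
    (hH : ∀ (f : ℂ → ℂ) (ρ s1 : ℂ) (r M θ : ℝ), 0 < r → 0 < θ → θ ≤ 1 / 4 →
      AnalyticOnNhd ℂ f (Metric.closedBall ρ r) → f ρ = 0 → deriv f ρ ≠ 0 →
      (∀ z ∈ Metric.closedBall ρ r, z ≠ ρ → f z ≠ 0) → (∀ z ∈ Metric.closedBall ρ r, ‖f z‖ ≤ Real.exp M) →
      s1 ≠ ρ → ‖s1 - ρ‖ ≤ θ * r →
        |Real.log ‖deriv f ρ‖ - (Real.log ‖f s1‖ - Real.log ‖s1 - ρ‖)| ≤
          C * θ * (M - Real.log r - (Real.log ‖f s1‖ - Real.log ‖s1 - ρ‖)))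
    {F : ℂ → ℂ} {s s1 : ℂ} {r M θ : ℝ} (hr : 0 < r) (hθ : 0 < θ) (hθ1 : θ ≤ 1 / 4)
    (hF : AnalyticOnNhd ℂ F (closedBall s r)) (hF0 : ∀ z ∈ closedBall s r, F z ≠ 0)
    (hFM : ∀ z ∈ closedBall s r, ‖F z‖ ≤ Real.exp M) (hs1 : s1 ≠ s) (hs1r : ‖s1 - s‖ ≤ θ * r) :
    |Real.log ‖F s‖ - Real.log ‖F s1‖| ≤ C * θ * (M - Real.log ‖F s1‖) := by
  have hsm : s ∈ closedBall s r := mem_closedBall_self hr.le
  have hd : HasDerivAt (fun z => (z - s) * F z) (F s) s := by
    have h1 := ((hasDerivAt_id s).sub_const s).mul (hF s hsm).differentiableAt.hasDerivAt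
    have e : (1:ℂ) * F s + (id s - s) * deriv F s = F s := by simp
    rw [e] at h1
    exact h1
  have hs1m : s1 ∈ closedBall s r := by
    rw [mem_closedBall, dist_eq_norm]
    refine hs1r.trans ?_
    nlinarith
  have h := hH (fun z => (z - s) * F z) s s1 r (Real.log r + M) θ hr hθ hθ1
    (fun z hz => (by fun_prop : AnalyticAt ℂ (fun z : ℂ => z - s) z).mul (hF z hz)) (by simp)
    (by rw [hd.deriv]; exact hF0 s hsm) (fun z hz hzs => mul_ne_zero (sub_ne_zero.2 hzs) (hF0 z hz))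
    (fun z hz => by
      rw [norm_mul, Real.exp_add, Real.exp_log hr]
      have h1 := hFM z hz
      rw [mem_closedBall, dist_eq_norm] at hz
      exact mul_le_mul hz h1 (norm_nonneg _) hr.le) hs1 hs1r
  rw [hd.deriv] at h
  beta_reduce at h
  rw [norm_mul, Real.log_mul (norm_ne_zero_iff.2 (sub_ne_zero.2 hs1)) (norm_ne_zero_iff.2 (hF0 s1 hs1m))] at h
  rw [show Real.log ‖s1 - s‖ + Real.log ‖F s1‖ - Real.log ‖s1 - s‖ = Real.log ‖F s1‖ by ring,
    show Real.log r + M - Real.log r - Real.log ‖F s1‖ = M - Real.log ‖F s1‖ by ring] at h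
  exact h

end Pool.Agent.K4H6.GL
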