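import Pool.Agent.K4H6.GL.Three
import Pool.Agent.K4H6.GL.Cum

set_option autoImplicit false

/-! The criterion for all heights. -/

namespace Pool.Agent.K4H6.GL

open Filter Topology MeasureTheory Metric H370
open Pool.Agent.Y745.SW (Px nrm)

noncomputable section

/-- the normalised logarithm of the derivative, with the height of the zero -/
def YC (s : ℂ) : ℝ := nrm s.im (Real.log ‖deriv riemannZeta s‖)

/-- no other nontrivial zero is near `s` -/
def isoC (ε : ℝ) (s : ℂ) : Prop := ∀ w : ℂ, riemannZeta w = 0 → 0 < w.re → w.re < 1 → w ≠ s →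
  Real.exp (-ε * Real.sqrt (Real.log (Real.log s.im))) / Real.log s.im ≤ ‖w - s‖

/-- the law of the derivative -/
def LawC : Prop := ∀ a b : ℝ, a < b → ∀ ε : ℝ, 0 < ε → ∀ᶠ X : ℝ in atTop,
  |cum (fun s => sc s ∧ a < YC s ∧ YC s < b) X - nm a b * cum (fun _ => True) X| ≤ ε * cum (fun _ => True) X

/-- almost all zeros are simple, on the line and isolated -/
def IsoC : Prop := ∀ ε : ℝ, 0 < ε → ∀ δ : ℝ, 0 < δ → ∀ᶠ X : ℝ in atTop,
  cum (fun s => ¬ (sc s ∧ isoC ε s)) X ≤ δ * cum (fun _ => True) X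

/-- changing the height in the normalisation -/
lemma nrm_cmp : ∀ᶠ T : ℝ in atTop, ∀ t : ℝ, T < t → t ≤ 2 * T → ∀ y : ℝ,
    |nrm T y - nrm t y| ≤ (|nrm t y| + 2) / Real.log T ∧ (0 ≤ nrm t y → nrm t y ≤ nrm T y) := by
  filter_upwards [Pool.Agent.Y745.SW.loglog_tendsto.eventually_ge_atTop 1, Real.tendsto_log_atTop.eventually_ge_atTop 1,
    eventually_ge_atTop 10] with T h1 h2 h3
  intro t ht1 ht2 y
  set L := Real.log T with hL
  have hL0 : 0 < L := by linarith
  have hT0 : 0 < T := by linarith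
  have hlt1 : L ≤ Real.log t := Real.log_le_log hT0 ht1.le
  have hlt2 : Real.log t ≤ L + 1 := by
    have h4 := Real.log_le_log (by linarith) ht2
    rw [Real.log_mul (by norm_num) hT0.ne', ← hL] at h4
    have := Real.log_two_lt_d9
    linarith
  set ℓ := Real.log L with hℓ
  set ℓ' := Real.log (Real.log t) with hℓ'
  have hη0 : 0 ≤ ℓ' - ℓ := by
    have := Real.log_le_log hL0 hlt1
    linarith
  have hη1 : ℓ' - ℓ ≤ 1 / L := by
    have h5 : ℓ' ≤ Real.log (L + 1) := Real.log_le_log (by linarith) hlt2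
    have h6 : Real.log (L + 1) = ℓ + Real.log (1 + 1 / L) := by
      rw [hℓ, ← Real.log_mul hL0.ne' (by positivity)]
      congr 1
      field_simp
    have h7 : Real.log (1 + 1 / L) ≤ 1 / L := by
      have := Real.log_le_sub_one_of_pos (show (0:ℝ) < 1 + 1 / L by positivity)
      linarith
    linarith
  set S := Real.sqrt ℓ with hS
  set S' := Real.sqrt ℓ' with hS'
  have hS1 : 1 ≤ S := by rw [hS, Real.one_le_sqrt]; exact h1
  have hSS : S ≤ S' := Real.sqrt_le_sqrt (by linarith)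
  have hS0 : 0 < S := by linarith
  have hS0' : 0 < S' := by linarith
  have hsq : S ^ 2 = ℓ := Real.sq_sqrt (by linarith)
  have hsq' : S' ^ 2 = ℓ' := Real.sq_sqrt (by linarith)
  set x := nrm t y with hx
  have hx1 : x = Real.sqrt 2 * (y - ℓ') / S' := by rw [hx]; unfold nrm; rw [← hℓ', ← hS']; ring
  have hx2 : nrm T y - x = x * ((S' - S) / S) + Real.sqrt 2 * (ℓ' - ℓ) / S := by
    rw [hx1]; unfold nrm; rw [← hL, ← hℓ, ← hS]
    field_simp
    ring
  have hs20 := Real.sqrt_nonneg 2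
  have hs2 : Real.sqrt 2 ≤ 2 := by
    rw [Real.sqrt_le_left (by norm_num)]; norm_num
  have e0 : 0 ≤ (S' - S) / S := div_nonneg (by linarith) hS0.le
  have e1 : (S' - S) / S ≤ ℓ' - ℓ := by
    rw [div_le_iff₀ hS0]
    nlinarith
  have e3 : 0 ≤ Real.sqrt 2 * (ℓ' - ℓ) / S := by positivity
  have e2 : Real.sqrt 2 * (ℓ' - ℓ) / S ≤ 2 * (ℓ' - ℓ) := by
    rw [div_le_iff₀ hS0]
    have : Real.sqrt 2 * (ℓ' - ℓ) ≤ 2 * (ℓ' - ℓ) := mul_le_mul_of_nonneg_right hs2 hη0
    nlinarith
  constructor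
  · rw [hx2]
    calc |x * ((S' - S) / S) + Real.sqrt 2 * (ℓ' - ℓ) / S| ≤ |x * ((S' - S) / S)| + |Real.sqrt 2 * (ℓ' - ℓ) / S| :=
          abs_add_le _ _
      _ ≤ |x| * (ℓ' - ℓ) + 2 * (ℓ' - ℓ) := by
          rw [abs_mul, abs_of_nonneg e0, abs_of_nonneg e3]
          exact add_le_add (mul_le_mul_of_nonneg_left e1 (abs_nonneg _)) e2
      _ = (|x| + 2) * (ℓ' - ℓ) := by ring
      _ ≤ (|x| + 2) * (1 / L) := mul_le_mul_of_nonneg_left hη1 (by positivity)
      _ = _ := by ring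
  · intro h0
    have : 0 ≤ x * ((S' - S) / S) := mul_nonneg h0 e0
    linarith

/-- from the height of the zero to the height of the block -/
lemma nrm_rev {a a' b b' : ℝ} (ha : a < a') (hb : b' < b) : ∀ᶠ T : ℝ in atTop, ∀ t : ℝ, T < t → t ≤ 2 * T →
    ∀ y : ℝ, a' < nrm t y → nrm t y < b' → a < nrm T y ∧ nrm T y < b := by
  have hm : 0 < min (a' - a) (b - b') := by rw [lt_min_iff]; constructor <;> linarith
  filter_upwards [nrm_cmp, Real.tendsto_log_atTop.eventually_ge_atTop 1,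
    Real.tendsto_log_atTop.eventually_gt_atTop ((|a'| + |b'| + 2) / min (a' - a) (b - b'))] with T h1 h2 h3
  intro t ht1 ht2 y hy1 hy2
  have hxM : |nrm t y| ≤ |a'| + |b'| := by
    rw [abs_le]
    constructor
    · linarith [neg_abs_le a', abs_nonneg b']
    · linarith [le_abs_self b', abs_nonneg a']
  have h4 := (h1 t ht1 ht2 y).1
  have h5 : (|nrm t y| + 2) / Real.log T < min (a' - a) (b - b') := by
    rw [div_lt_iff₀ hm] at h3
    rw [div_lt_iff₀ (by linarith)]
    linarith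
  have h6 := abs_lt.1 (lt_of_le_of_lt h4 h5)
  have h7 := min_le_left (a' - a) (b - b')
  have h8 := min_le_right (a' - a) (b - b')
  constructor <;> linarith [h6.1, h6.2]

/-- the same for tails -/
lemma nrm_tail {a a' : ℝ} (ha : a < a') : ∀ᶠ T : ℝ in atTop, ∀ t : ℝ, T < t → t ≤ 2 * T →
    ∀ y : ℝ, a' < nrm t y → a < nrm T y := by
  filter_upwards [nrm_cmp, Real.tendsto_log_atTop.eventually_ge_atTop 1,
    Real.tendsto_log_atTop.eventually_gt_atTop ((|a'| + 2) / (a' - a))] with T h1 h2 h3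
  intro t ht1 ht2 y hy1
  obtain ⟨h4, h5⟩ := h1 t ht1 ht2 y
  by_cases h0 : 0 ≤ nrm t y
  · have := h5 h0
    linarith
  · have hxM : |nrm t y| ≤ |a'| := by
      rw [abs_le]
      constructor
      · linarith [neg_abs_le a']
      · linarith [abs_nonneg a']
    have h5 : (|nrm t y| + 2) / Real.log T < a' - a := by
      rw [div_lt_iff₀ (by linarith)] at h3
      rw [div_lt_iff₀ (by linarith)]
      linarith
    have h6 := abs_lt.1 (lt_of_le_of_lt h4 h5)
    linarith [h6.1]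

lemma sandwich {P Q : ℝ → ℝ → ℝ → ℝ}
    (h1 : ∀ a a' b b' : ℝ, a < a' → b' < b → ∀ᶠ T : ℝ in atTop, P T a' b' ≤ Q T a b)
    (h2 : ∀ a a' b b' : ℝ, a < a' → b' < b → ∀ᶠ T : ℝ in atTop, Q T a' b' ≤ P T a b)
    (hP : ∀ a b : ℝ, a < b → ∀ ε : ℝ, 0 < ε → ∀ᶠ T : ℝ in atTop, |P T a b - nm a b * EE T| ≤ ε * EE T) :
    ∀ a b : ℝ, a < b → ∀ ε : ℝ, 0 < ε → ∀ᶠ T : ℝ in atTop, |Q T a b - nm a b * EE T| ≤ ε * EE T := by
  intro a b hab ε hε
  obtain ⟨θ, hθ⟩ : ∃ θ, θ = min (ε / 8) ((b - a) / 4) := ⟨_, rfl⟩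
  have hθ0 : 0 < θ := by rw [hθ]; exact lt_min (by positivity) (by linarith)
  have hθ1 : θ ≤ ε / 8 := by rw [hθ]; exact min_le_left _ _
  have hθ2 : θ ≤ (b - a) / 4 := by rw [hθ]; exact min_le_right _ _
  filter_upwards [h1 a (a + θ) b (b - θ) (by linarith) (by linarith), h2 (a - θ) a (b + θ) b (by linarith) (by linarith),
    hP (a + θ) (b - θ) (by linarith) (ε / 2) (by positivity), hP (a - θ) (b + θ) (by linarith) (ε / 2) (by positivity),
    EE_pos] with T t1 t2 t3 t4 tE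
  have n1 := nm_le_len (a := a) (b := a + θ) (by linarith)
  have n2 := nm_le_len (a := b - θ) (b := b) (by linarith)
  have n3 := nm_add a (a + θ) (b - θ)
  have n4 := nm_add a (b - θ) b
  have n5 := nm_le_len (a := a - θ) (b := a) (by linarith)
  have n6 := nm_le_len (a := b) (b := b + θ) (by linarith)
  have n7 := nm_add (a - θ) a b
  have n8 := nm_add (a - θ) b (b + θ)
  have h5 : (nm a b - ε / 4) * EE T ≤ nm (a + θ) (b - θ) * EE T := mul_le_mul_of_nonneg_right (by linarith) tE.le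
  have h6 : nm (a - θ) (b + θ) * EE T ≤ (nm a b + ε / 4) * EE T := mul_le_mul_of_nonneg_right (by linarith) tE.le
  have h7 : 0 < ε * EE T := by positivity
  have h8 := abs_le.1 t3
  have h9 := abs_le.1 t4
  rw [abs_le]
  constructor <;> linarith [h8.1, h8.2, h9.1, h9.2]

lemma mem_block {T : ℝ} (hT : 1 ≤ T) {s : ℂ} (hs : s ∈ Zb T) : T < s.im ∧ s.im ≤ 2 * T := by
  have := (mem_Zb hT).1 hs
  exact ⟨this.2.2.1, this.2.2.2.1⟩

lemma cmp1 (a a' b b' : ℝ) (ha : a < a') (hb : b' < b) : ∀ᶠ T : ℝ in atTop,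
    tot T (fun s => sc s ∧ a' < YY T s ∧ YY T s < b') ≤ tot T (fun s => sc s ∧ a < YC s ∧ YC s < b) := by
  filter_upwards [Pool.Agent.Y745.SW.nrm_ev ha hb, eventually_ge_atTop 1] with T h1 h2
  refine tot_mono fun s hs hb => ?_
  obtain ⟨h3, h4⟩ := mem_block h2 hs
  exact ⟨hb.1, h1 s.im h3 h4 _ hb.2.1 hb.2.2⟩

lemma cmp2 (a a' b b' : ℝ) (ha : a < a') (hb : b' < b) : ∀ᶠ T : ℝ in atTop,
    tot T (fun s => sc s ∧ a' < YC s ∧ YC s < b') ≤ tot T (fun s => sc s ∧ a < YY T s ∧ YY T s < b) := by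
  filter_upwards [nrm_rev ha hb, eventually_ge_atTop 1] with T h1 h2
  refine tot_mono fun s hs hb => ?_
  obtain ⟨h3, h4⟩ := mem_block h2 hs
  exact ⟨hb.1, h1 s.im h3 h4 _ hb.2.1 hb.2.2⟩

lemma nm_nonneg' {a b : ℝ} (h : a < b) : 0 ≤ nm a b := nm_nonneg h.le

theorem lawC_iff : LawC ↔ LawB := by
  constructor
  · intro h
    exact sandwich (P := fun T a b => tot T (fun s => sc s ∧ a < YC s ∧ YC s < b))
      (Q := fun T a b => tot T (fun s => sc s ∧ a < YY T s ∧ YY T s < b)) cmp2 cmp1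
      (fun a b hab => (asy_N _ (nm_nonneg' hab)).1 (h a b hab))
  · intro h a b hab
    have h1 := sandwich (P := fun T a b => tot T (fun s => sc s ∧ a < YY T s ∧ YY T s < b))
      (Q := fun T a b => tot T (fun s => sc s ∧ a < YC s ∧ YC s < b)) cmp1 cmp2 h
    exact (asy_N _ (nm_nonneg' hab)).2 (h1 a b hab)

/-- upper half of the law -/
theorem upperC (a : ℝ) : ∀ ε : ℝ, 0 < ε → ∀ᶠ X : ℝ in atTop,
    cum (fun s => sc s ∧ a < YC s) X ≤ (tail a + ε) * cum (fun _ => True) X := by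
  refine up_N _ (tail_nonneg a) (tail_le_one a) fun ε hε => ?_
  filter_upwards [upperB (a := a - ε / 2) (show 0 < ε / 2 by positivity), nrm_tail (show a - ε / 2 < a by linarith),
    eventually_ge_atTop 1, EE_pos] with T h1 h2 h3 hE
  have h4 : tot T (fun s => sc s ∧ a < YC s) ≤ tot T (fun s => sc s ∧ a - ε / 2 < YY T s) := by
    refine tot_mono fun s hs hb => ?_
    obtain ⟨h5, h6⟩ := mem_block h3 hs
    exact ⟨hb.1, h2 s.im h5 h6 _ hb.2⟩
  refine h4.trans (h1.trans ?_)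
  have h5 := tail_split (a := a - ε / 2) (b := a)
  have h6 := nm_le_len (a := a - ε / 2) (b := a) (by linarith)
  exact mul_le_mul_of_nonneg_right (by linarith) hE.le

lemma rad_mono {ε T t : ℝ} (hε : 0 < ε) (hL : 1 < Real.log T) (hT : 0 < T) (h : T ≤ t) :
    Real.exp (-ε * Real.sqrt (Real.log (Real.log t))) / Real.log t ≤
      Real.exp (-ε * Real.sqrt (Real.log (Real.log T))) / Real.log T := by
  have h1 : Real.log T ≤ Real.log t := Real.log_le_log hT h
  have h2 : Real.log (Real.log T) ≤ Real.log (Real.log t) := Real.log_le_log (by linarith) h1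
  have h3 : Real.sqrt (Real.log (Real.log T)) ≤ Real.sqrt (Real.log (Real.log t)) := Real.sqrt_le_sqrt h2
  have h4 : Real.exp (-ε * Real.sqrt (Real.log (Real.log t))) ≤ Real.exp (-ε * Real.sqrt (Real.log (Real.log T))) := by
    rw [Real.exp_le_exp]
    nlinarith
  exact div_le_div₀ (Real.exp_pos _).le h4 (by linarith) h1

lemma rad_rev {ε : ℝ} (hε : 0 < ε) : ∀ᶠ T : ℝ in atTop, ∀ t : ℝ, T < t → t ≤ 2 * T →
    Real.exp (-ε * Real.sqrt (Real.log (Real.log T))) / Real.log T <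
      Real.exp (-(ε / 2) * Real.sqrt (Real.log (Real.log t))) / Real.log t := by
  filter_upwards [Real.tendsto_log_atTop.eventually_ge_atTop 10, eventually_ge_atTop 10,
    loglog_tt.eventually_ge_atTop (max 1 (4 / ε + 1))] with T h1 h2 h3
  intro t ht1 ht2
  have hT0 : 0 < T := by linarith
  have hL0 : 0 < Real.log T := by linarith
  have hlt1 : Real.log T ≤ Real.log t := Real.log_le_log hT0 ht1.le
  have hlt2 : Real.log t ≤ 2 * Real.log T := by
    have h4 := Real.log_le_log (by linarith) ht2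
    rw [Real.log_mul (by norm_num) hT0.ne'] at h4
    have := Real.log_two_lt_d9
    linarith
  have hS1 : 1 ≤ Real.sqrt (Real.log (Real.log T)) := (le_max_left _ _).trans h3
  have hS2 : 4 / ε + 1 ≤ Real.sqrt (Real.log (Real.log T)) := (le_max_right _ _).trans h3
  have hll : 1 ≤ Real.log (Real.log T) := by rwa [Real.one_le_sqrt] at hS1
  have h5 : Real.log (Real.log t) ≤ Real.log (Real.log T) + 1 := by
    have h6 := Real.log_le_log (by linarith) hlt2
    rw [Real.log_mul (by norm_num) hL0.ne'] at h6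
    have := Real.log_two_lt_d9
    linarith
  have h6 : Real.sqrt (Real.log (Real.log t)) ≤ Real.sqrt (Real.log (Real.log T)) + 1 := by
    rw [Real.sqrt_le_left (by linarith)]
    have h7 := Real.sq_sqrt (show 0 ≤ Real.log (Real.log T) by linarith)
    nlinarith
  obtain ⟨x, hx⟩ : ∃ x, x = Real.sqrt (Real.log (Real.log T)) := ⟨_, rfl⟩
  obtain ⟨x', hx'⟩ : ∃ x', x' = Real.sqrt (Real.log (Real.log t)) := ⟨_, rfl⟩
  rw [← hx, ← hx'] at h6
  rw [← hx] at hS2 hS1
  rw [← hx, ← hx']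
  have h7 : 4 ≤ ε * (x - 1) := by
    have : 4 / ε ≤ x - 1 := by linarith
    rw [div_le_iff₀ hε] at this
    linarith
  rw [div_lt_div_iff₀ hL0 (by linarith)]
  have h8 : Real.exp (-ε * x) * 2 < Real.exp (-(ε / 2) * x') := by
    have h9 : Real.exp (-ε * x) * Real.exp 1 ≤ Real.exp (-(ε / 2) * x') := by
      rw [← Real.exp_add, Real.exp_le_exp]
      have h10 : ε / 2 * x' ≤ ε / 2 * (x + 1) := mul_le_mul_of_nonneg_left h6 (by positivity)
      linarith
    have h10 : (2:ℝ) < Real.exp 1 := by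
      have := Real.exp_one_gt_d9
      linarith
    have h11 : Real.exp (-ε * x) * 2 < Real.exp (-ε * x) * Real.exp 1 := mul_lt_mul_of_pos_left h10 (Real.exp_pos _)
    linarith
  calc Real.exp (-ε * x) * Real.log t ≤ Real.exp (-ε * x) * (2 * Real.log T) :=
        mul_le_mul_of_nonneg_left hlt2 (Real.exp_pos _).le
    _ = (Real.exp (-ε * x) * 2) * Real.log T := by ring
    _ < _ := mul_lt_mul_of_pos_right h8 hL0

theorem isoC_iff : IsoC ↔ IsoB := by
  have key : IsoC ↔ ∀ ε : ℝ, 0 < ε → ∀ δ : ℝ, 0 < δ → ∀ᶠ T : ℝ in atTop,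
      tot T (fun s => ¬ (sc s ∧ isoC ε s)) ≤ δ * EE T := by
    constructor
    · intro h ε hε
      have h1 := (asy_N (fun s => ¬ (sc s ∧ isoC ε s)) (le_refl (0:ℝ))).1 (fun δ hδ => by
        filter_upwards [h ε hε δ hδ] with X hX
        rw [zero_mul, sub_zero, abs_of_nonneg (cum_nonneg _ _)]
        exact hX)
      intro δ hδ
      filter_upwards [h1 δ hδ] with T hT
      rw [zero_mul, sub_zero] at hT
      exact (le_abs_self _).trans hT
    · intro h ε hε
      have h1 := (asy_N (fun s => ¬ (sc s ∧ isoC ε s)) (le_refl (0:ℝ))).2 (fun δ hδ => by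
        filter_upwards [h ε hε δ hδ] with X hX
        rw [zero_mul, sub_zero, abs_of_nonneg (tot_nonneg _)]
        exact hX)
      intro δ hδ
      filter_upwards [h1 δ hδ] with T hT
      rw [zero_mul, sub_zero] at hT
      exact (le_abs_self _).trans hT
  rw [key]
  constructor
  · intro h ε hε δ hδ
    filter_upwards [h (ε / 2) (by positivity) δ hδ, rad_rev hε, eventually_ge_atTop 1] with T h1 h2 h3
    have h4 : tot T (fun s => ¬ (sc s ∧ iso ε T s)) ≤ tot T (fun s => ¬ (sc s ∧ isoC (ε / 2) s)) := by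
      refine tot_mono fun s hs hb => ?_
      rintro ⟨hc1, hc2⟩
      refine hb ⟨hc1, fun w hw hws => ?_⟩
      obtain ⟨h5, h6⟩ := mem_block h3 hs
      have h7 := (mem_Zb h3).1 hw
      exact lt_of_lt_of_le (h2 s.im h5 h6) (hc2 w h7.2.2.2.2 h7.1 h7.2.1 hws)
    exact h4.trans h1
  · intro h ε hε δ hδ
    filter_upwards [h ε hε (δ / 2) (by positivity), tot_ends (show (1:ℝ) ≤ 5 by norm_num) (show 0 < δ / 2 by positivity),
      eventually_ge_atTop 10, Real.tendsto_log_atTop.eventually_ge_atTop 2] with T h1 h2 h3 h4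
    have h5 : tot T (fun s => ¬ (sc s ∧ isoC ε s)) ≤ tot T (fun s => (¬ (sc s ∧ iso ε T s)) ∨
        ¬ (T + 5 * Real.log T < s.im ∧ s.im ≤ 2 * T - 5 * Real.log T)) := by
      refine tot_mono fun s hs hb => ?_
      by_contra hcon
      rw [not_or, not_not, not_not] at hcon
      obtain ⟨⟨n1, n2⟩, n3, n4⟩ := hcon
      refine hb ⟨n1, fun w w1 w2 w3 w4 => ?_⟩
      have h6 := rad_mono hε (by linarith) (by linarith : 0 < T) (show T ≤ s.im by linarith)
      by_contra hlt
      push Not at hlt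
      have h7 : Real.exp (-ε * Real.sqrt (Real.log (Real.log T))) / Real.log T ≤ 1 := by
        rw [div_le_one (by linarith)]
        have h8 : Real.exp (-ε * Real.sqrt (Real.log (Real.log T))) ≤ 1 := by
          rw [Real.exp_le_one_iff]
          have := Real.sqrt_nonneg (Real.log (Real.log T))
          nlinarith
        linarith
      have h8 : ‖w - s‖ < 1 := lt_of_lt_of_le hlt (h6.trans h7)
      have h9 := (Complex.abs_im_le_norm _).trans_lt h8
      rw [Complex.sub_im, abs_lt] at h9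
      have h10 : w ∈ Zb T := (mem_Zb (by linarith)).2 ⟨w2, w3, by linarith [h9.1], by linarith [h9.2], w1⟩
      have h11 := n2 w h10 w4
      linarith
    have h6 := tot_or (T := T) (fun s => ¬ (sc s ∧ iso ε T s))
      (fun s => ¬ (T + 5 * Real.log T < s.im ∧ s.im ≤ 2 * T - 5 * Real.log T))
    linarith

/-- **the criterion** -/
theorem criterion : LawC ↔ IsoC := by
  rw [lawC_iff, isoC_iff]
  exact ⟨iso_of_law, law_of_iso⟩

end

end Pool.Agent.K4H6.GL
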