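import Pool.Agent.K4H6.GL.Nm

set_option autoImplicit false

/-! The Gaussian law of the prime sum at the zeros; crowded zeros. -/

namespace Pool.Agent.K4H6.GL

open Filter Topology MeasureTheory Complex H370 Pool.Agent.K4H6.Win Pool.Agent.K4H6.Qn Pool.Agent.K4H6.Cov
open Pool.Agent.Y745.SW (Gm01 SB Px nrm)

noncomputable section

/-- the normalised real part of the prime sum -/
def XX (T t : ℝ) : ℝ := Real.sqrt 2 * ((Px T t).re / Real.sqrt (Real.log (Real.log T)))

lemma sb {a b δ : ℝ} (hab : a < b) (hδ : 0 < δ) : ∀ᶠ T : ℝ in atTop, MeasurableSet (SB a b T) ∧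
    |volume.real (SB a b T) - T * nm a b| ≤ δ * T := by
  have h := Pool.Agent.Y745.SW.a_IND (fun _ => 0) continuous_const (fun _ _ => le_rfl) (fun _ => 0) continuous_const
    (fun _ => 0) (fun n => by simp [ArithmeticFunction.vonMangoldt_nonneg]) (1/4) (1/16) (1/4) (by norm_num)
    (by norm_num) (by norm_num) (by norm_num) (by norm_num) (by norm_num)
    ⟨0, Filter.Eventually.of_forall fun T => by
      unfold Pool.Agent.Y745.SW.Zq
      simp⟩ a b δ hab hδ
  filter_upwards [h] with T hT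
  refine ⟨hT.1, ?_⟩
  have := hT.2.1
  rw [← Gm01_eq hab]
  exact this

/-- the zeros near a set of heights, integrated -/
lemma near_int (Z : Finset ℂ) (p : ℂ → Prop) {m : ℂ → ℝ} (hm : ∀ s, 0 ≤ m s) {H : ℝ} (hH : 0 ≤ H)
    {S : Set ℝ} (hSf : volume S ≠ ⊤)
    (h : ∀ s ∈ Z, (∃ t ∈ S, t < s.im ∧ s.im ≤ t + H) → p s) :
    ∫ t in S, (∑ s ∈ Z, if t < s.im ∧ s.im ≤ t + H then m s else 0) ≤ H * ∑ s ∈ Z, Set.indicator (fun s => p s) m s := by
  have hmeas : ∀ s : ℂ, MeasurableSet {t : ℝ | t < s.im ∧ s.im ≤ t + H} := fun s =>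
    (measurableSet_lt measurable_id measurable_const).inter
      (measurableSet_le measurable_const (measurable_id.add_const H))
  have e1 : ∀ (s : ℂ) (t : ℝ), (if t < s.im ∧ s.im ≤ t + H then m s else 0) =
      {t : ℝ | t < s.im ∧ s.im ≤ t + H}.indicator (fun _ => m s) t := by
    intro s t
    by_cases h : t < s.im ∧ s.im ≤ t + H
    · rw [if_pos h, Set.indicator_of_mem (by exact h)]
    · rw [if_neg h, Set.indicator_of_notMem (by exact h)]
  simp_rw [e1]
  have hi : ∀ s ∈ Z, IntegrableOn (fun t => {t : ℝ | t < s.im ∧ s.im ≤ t + H}.indicator (fun _ => m s) t) S := by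
    intro s _
    exact Integrable.indicator (integrableOn_const hSf) (hmeas s)
  rw [integral_finsetSum _ hi, Finset.mul_sum]
  refine Finset.sum_le_sum fun s hs => ?_
  rw [integral_indicator (hmeas s), setIntegral_const, smul_eq_mul]
  by_cases hp : p s
  · rw [Set.indicator_of_mem (by exact hp)]
    refine mul_le_mul_of_nonneg_right ?_ (hm s)
    have h1 : {t : ℝ | t < s.im ∧ s.im ≤ t + H} = Set.Ico (s.im - H) s.im := by
      ext t
      simp only [Set.mem_setOf_eq, Set.mem_Ico]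
      constructor <;> intro h <;> constructor <;> linarith [h.1, h.2]
    have h2 : (volume.restrict S) {t : ℝ | t < s.im ∧ s.im ≤ t + H} ≤ volume {t : ℝ | t < s.im ∧ s.im ≤ t + H} :=
      Measure.restrict_le_self _
    have h3 : volume {t : ℝ | t < s.im ∧ s.im ≤ t + H} = ENNReal.ofReal H := by
      rw [h1, Real.volume_Ico]
      congr 1; ring
    rw [h3] at h2
    calc ((volume.restrict S).real {t : ℝ | t < s.im ∧ s.im ≤ t + H}) ≤ (ENNReal.ofReal H).toReal :=
          ENNReal.toReal_mono ENNReal.ofReal_ne_top h2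
      _ = H := ENNReal.toReal_ofReal hH
  · rw [Set.indicator_of_notMem (by exact hp), mul_zero]
    have h1 : (volume.restrict S) {t : ℝ | t < s.im ∧ s.im ≤ t + H} = 0 := by
      rw [Measure.restrict_apply (hmeas s)]
      have : {t : ℝ | t < s.im ∧ s.im ≤ t + H} ∩ S = ∅ := by
        ext t
        simp only [Set.mem_inter_iff, Set.mem_setOf_eq, Set.mem_empty_iff_false, iff_false, not_and]
        exact fun h1 h2 => hp (h s hs ⟨t, h2, h1⟩)
      rw [this, measure_empty]
    rw [Measure.real, h1]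
    simp

/-- lower bound -/
lemma near_low (Z : Finset ℂ) (p : ℂ → Prop) {m : ℂ → ℝ} (hm : ∀ s, 0 ≤ m s) {H d : ℝ}
    {S : Set ℝ} (hSf : volume S ≠ ⊤) (hd : 0 ≤ d)
    (h : ∀ s ∈ Z, p s → ∃ c : ℝ, Set.Ico c (c + d) ⊆ S ∧ s.im - H ≤ c ∧ c + d ≤ s.im) :
    d * ∑ s ∈ Z, Set.indicator (fun s => p s) m s ≤
      ∫ t in S, (∑ s ∈ Z, if t < s.im ∧ s.im ≤ t + H then m s else 0) := by
  have hmeas : ∀ s : ℂ, MeasurableSet {t : ℝ | t < s.im ∧ s.im ≤ t + H} := fun s =>
    (measurableSet_lt measurable_id measurable_const).inter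
      (measurableSet_le measurable_const (measurable_id.add_const H))
  have e1 : ∀ (s : ℂ) (t : ℝ), (if t < s.im ∧ s.im ≤ t + H then m s else 0) =
      {t : ℝ | t < s.im ∧ s.im ≤ t + H}.indicator (fun _ => m s) t := by
    intro s t
    by_cases h : t < s.im ∧ s.im ≤ t + H
    · rw [if_pos h, Set.indicator_of_mem (by exact h)]
    · rw [if_neg h, Set.indicator_of_notMem (by exact h)]
  simp_rw [e1]
  have hi : ∀ s ∈ Z, IntegrableOn (fun t => {t : ℝ | t < s.im ∧ s.im ≤ t + H}.indicator (fun _ => m s) t) S := by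
    intro s _
    exact Integrable.indicator (integrableOn_const hSf) (hmeas s)
  rw [integral_finsetSum _ hi, Finset.mul_sum]
  refine Finset.sum_le_sum fun s hs => ?_
  rw [integral_indicator (hmeas s), setIntegral_const, smul_eq_mul]
  by_cases hp : p s
  · rw [Set.indicator_of_mem (by exact hp)]
    refine mul_le_mul_of_nonneg_right ?_ (hm s)
    obtain ⟨c, h1, h2, h3⟩ := h s hs hp
    have h4 : Set.Ico c (c + d) ⊆ {t : ℝ | t < s.im ∧ s.im ≤ t + H} ∩ S := by
      intro t ht
      exact ⟨⟨by linarith [ht.2], by linarith [ht.1]⟩, h1 ht⟩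
    rw [measureReal_def, Measure.restrict_apply (hmeas s), ← measureReal_def]
    calc d = volume.real (Set.Ico c (c + d)) := by
          rw [Real.volume_real_Ico_of_le (by linarith)]
          ring
      _ ≤ _ := measureReal_mono h4 (ne_top_of_le_ne_top hSf (measure_mono Set.inter_subset_right))
  · rw [Set.indicator_of_notMem (by exact hp), mul_zero]
    exact mul_nonneg measureReal_nonneg (hm s)

lemma Gm_nonneg {f : ℕ → ℝ} (hf : ∀ m, 0 ≤ f m) (U1 U2 H t : ℝ) : 0 ≤ Gm f U1 U2 H t := by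
  unfold Gm
  exact Finset.sum_nonneg fun s _ => by split_ifs <;> simp [hf]

/-- the total multiplicity of the zeros of the block with a property -/
def tot (T : ℝ) (p : ℂ → Prop) : ℝ := ∑ s ∈ Zb T, Set.indicator (fun s => p s) (fun s => (mult riemannZeta s : ℝ)) s

lemma ind_nonneg (p : ℂ → Prop) (s : ℂ) : 0 ≤ Set.indicator (fun s => p s) (fun s => (mult riemannZeta s : ℝ)) s :=
  Set.indicator_nonneg (fun _ _ => Nat.cast_nonneg _) s

lemma ind_pos {p : ℂ → Prop} {s : ℂ} (h : p s) :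
    Set.indicator (fun s => p s) (fun s => (mult riemannZeta s : ℝ)) s = mult riemannZeta s :=
  Set.indicator_of_mem (by exact h) _

lemma ind_neg {p : ℂ → Prop} {s : ℂ} (h : ¬ p s) :
    Set.indicator (fun s => p s) (fun s => (mult riemannZeta s : ℝ)) s = 0 :=
  Set.indicator_of_notMem (by exact h) _

lemma tot_mono {T : ℝ} {p q : ℂ → Prop} (h : ∀ s ∈ Zb T, p s → q s) : tot T p ≤ tot T q := by
  unfold tot
  refine Finset.sum_le_sum fun s hs => ?_
  by_cases hp : p s
  · rw [ind_pos hp, ind_pos (h s hs hp)]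
  · rw [ind_neg hp]
    exact ind_nonneg _ _

lemma tot_or {T : ℝ} (p q : ℂ → Prop) : tot T (fun s => p s ∨ q s) ≤ tot T p + tot T q := by
  unfold tot
  rw [← Finset.sum_add_distrib]
  refine Finset.sum_le_sum fun s _ => ?_
  by_cases hp : p s
  · rw [ind_pos (p := fun s => p s ∨ q s) (Or.inl hp), ind_pos hp]
    have := ind_nonneg q s
    linarith
  · by_cases hq : q s
    · rw [ind_pos (p := fun s => p s ∨ q s) (Or.inr hq), ind_pos hq]
      have := ind_nonneg p s
      linarith
    · rw [ind_neg (p := fun s => p s ∨ q s) (not_or.2 ⟨hp, hq⟩)]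
      exact add_nonneg (ind_nonneg _ _) (ind_nonneg _ _)

lemma tot_nonneg {T : ℝ} (p : ℂ → Prop) : 0 ≤ tot T p := Finset.sum_nonneg fun _ _ => ind_nonneg _ _

/-- disjoint properties -/
lemma tot_add {T : ℝ} {p q r : ℂ → Prop} (h : ∀ s ∈ Zb T, p s → q s → False) (h1 : ∀ s ∈ Zb T, p s → r s)
    (h2 : ∀ s ∈ Zb T, q s → r s) : tot T p + tot T q ≤ tot T r := by
  unfold tot
  rw [← Finset.sum_add_distrib]
  refine Finset.sum_le_sum fun s hs => ?_
  by_cases hp : p s
  · have hq : ¬ q s := fun hq => h s hs hp hq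
    rw [ind_pos hp, ind_neg hq, ind_pos (h1 s hs hp), add_zero]
  · rw [ind_neg hp, zero_add]
    by_cases hq : q s
    · rw [ind_pos hq, ind_pos (h2 s hs hq)]
    · rw [ind_neg hq]
      exact ind_nonneg _ _

lemma loglog_tt : Tendsto (fun T : ℝ => Real.sqrt (Real.log (Real.log T))) atTop atTop :=
  Real.tendsto_sqrt_atTop.comp (Real.tendsto_log_atTop.comp Real.tendsto_log_atTop)

/-- the Gaussian law at the zeros, lower bound -/
theorem lowG {a b ε : ℝ} (hab : a < b) (hε : 0 < ε) : ∀ᶠ T : ℝ in atTop,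
    (nm a b - ε) * (T * Real.log T / (2 * Real.pi)) ≤ tot T (fun s => a < XX T s.im ∧ XX T s.im < b) := by
  have hpi := Real.pi_pos
  obtain ⟨θ, hθ, hab', hG⟩ := Pool.Agent.Y745.SW.Gm01_shrink hab (show 0 < ε / 8 by positivity)
  rw [Gm01_eq hab, Gm01_eq hab'] at hG
  obtain ⟨h0, hh0, hN⟩ := arbN (show 0 < ε / 8 by positivity)
  filter_upwards [hN, sb hab' (show 0 < ε / 8 by positivity),
    Pool.Agent.Y895.SW.t_BV h0 (ε / 8) hh0 (by positivity), loglog_tt.eventually_ge_atTop (2 / θ),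
    Real.tendsto_log_atTop.eventually_ge_atTop 1, Real.tendsto_log_atTop.eventually_ge_atTop h0,
    log_small 5 1 (show 0 < ε / 8 by positivity), eventually_ge_atTop 10] with T tN tsb tbv tσ tL th0 tsm tT
  obtain ⟨tm, tI⟩ := tsb
  obtain ⟨Bd, hBdm, hBd1, hBd2, hBd3⟩ := tbv
  rw [pow_one] at tsm
  set L := Real.log T with hL
  obtain ⟨σ, hσd⟩ : ∃ σ, σ = Real.sqrt (Real.log L) := ⟨_, rfl⟩
  rw [← hσd] at tσ
  have hσ0 : 0 < σ := lt_of_lt_of_le (by positivity) tσ
  have hL0 : 0 < L := by linarith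
  have hT0 : 0 < T := by linarith
  obtain ⟨H, hH⟩ : ∃ H, H = h0 / L := ⟨_, rfl⟩
  have hH0 : 0 < H := by rw [hH]; positivity
  have hH1 : H ≤ 1 := by rw [hH, div_le_one hL0]; exact th0
  set SS := SB (a + θ) (b - θ) T with hSS
  have hSSI : SS ⊆ Set.Icc (T + L) (2 * T - L) := fun t ht => ht.1
  set J := Set.Icc (T + 3 * L) (2 * T - 3 * L - H) with hJ
  set S := (SS \ Bd) ∩ J with hS
  have hSm : MeasurableSet S := (tm.diff hBdm).inter measurableSet_Icc
  have hSI : S ⊆ J := Set.inter_subset_right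
  have hSf : volume S ≠ ⊤ := ne_top_of_le_ne_top (by simp [hJ]) (measure_mono hSI)
  have h1 := tN H (by rw [hH]) S hSm hSI
  -- the measure of `S`
  have hvol : volume.real SS ≤ volume.real S + volume.real Bd + 5 * L := by
    have h2 : SS ⊆ (S ∪ Bd) ∪ (Set.Icc (T + L) (T + 3 * L) ∪ Set.Icc (2 * T - 3 * L - H) (2 * T - L)) := by
      intro t ht
      by_cases hb : t ∈ Bd
      · exact Or.inl (Or.inr hb)
      · have h3 := hSSI ht
        by_cases h4 : t < T + 3 * L
        · exact Or.inr (Or.inl ⟨h3.1, h4.le⟩)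
        · by_cases h5 : 2 * T - 3 * L - H < t
          · exact Or.inr (Or.inr ⟨h5.le, h3.2⟩)
          · exact Or.inl (Or.inl ⟨⟨ht, hb⟩, ⟨not_lt.1 h4, not_lt.1 h5⟩⟩)
    have hBf : volume Bd ≠ ⊤ := ne_top_of_le_ne_top (by simp) (measure_mono hBd1)
    have h3 : volume ((S ∪ Bd) ∪ (Set.Icc (T + L) (T + 3 * L) ∪ Set.Icc (2 * T - 3 * L - H) (2 * T - L))) ≠ ⊤ := by
      refine (measure_union_lt_top (measure_union_lt_top (lt_top_iff_ne_top.2 hSf) (lt_top_iff_ne_top.2 hBf))
        (measure_union_lt_top ?_ ?_)).ne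
      · rw [Real.volume_Icc]; exact ENNReal.ofReal_lt_top
      · rw [Real.volume_Icc]; exact ENNReal.ofReal_lt_top
    have h4 := measureReal_mono h2 h3
    have h5 := measureReal_union_le (μ := volume) (S ∪ Bd)
      (Set.Icc (T + L) (T + 3 * L) ∪ Set.Icc (2 * T - 3 * L - H) (2 * T - L))
    have h6 := measureReal_union_le (μ := volume) S Bd
    have h7 := measureReal_union_le (μ := volume) (Set.Icc (T + L) (T + 3 * L))
      (Set.Icc (2 * T - 3 * L - H) (2 * T - L))
    rw [Real.volume_real_Icc_of_le (by linarith), Real.volume_real_Icc_of_le (by linarith)] at h7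
    linarith
  have hlow : T * nm a b - (5 * ε / 8) * T ≤ volume.real S := by
    have h2 := (abs_le.1 tI).1
    have h3 : T * (nm a b - ε / 8) ≤ T * nm (a + θ) (b - θ) := mul_le_mul_of_nonneg_left hG hT0.le
    linarith
  -- the zeros near `S`
  have hnear := near_int (Zb T) (fun s => a < XX T s.im ∧ XX T s.im < b) (m := fun s => (mult riemannZeta s : ℝ))
    (fun s => Nat.cast_nonneg _) hH0.le hSf ?_
  · change (∫ t in S, Gm (fun m => (m:ℝ)) T (2 * T) H t) ≤ H * tot T (fun s => a < XX T s.im ∧ XX T s.im < b) at hnear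
    have h2 := (abs_le.1 h1).1
    have h3 : (volume.real S - ε / 8 * T) * (H * L / (2 * Real.pi)) ≤
        H * tot T (fun s => a < XX T s.im ∧ XX T s.im < b) := by
      refine le_trans ?_ hnear
      linarith
    have h4 : (volume.real S - ε / 8 * T) * (H * L / (2 * Real.pi)) =
        H * ((volume.real S - ε / 8 * T) * (L / (2 * Real.pi))) := by ring
    rw [h4] at h3
    have h5 := le_of_mul_le_mul_left h3 hH0
    refine le_trans ?_ h5
    have e : (nm a b - ε) * (T * L / (2 * Real.pi)) = ((nm a b - ε) * T) * (L / (2 * Real.pi)) := by ring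
    rw [e]
    refine mul_le_mul_of_nonneg_right ?_ (by positivity)
    have : 0 < ε * T := by positivity
    linarith
  · rintro s - ⟨t, ht, ht1, ht2⟩
    obtain ⟨⟨⟨ht3, ht4, ht5⟩, ht6⟩, ht7, ht8⟩ := ht
    have h2 := hBd3 t ⟨by linarith, by linarith⟩ ht6 (s.im - t) (by
      rw [abs_of_pos (by linarith), ← hH]; linarith)
    rw [add_sub_cancel] at h2
    have h3 := (Complex.abs_re_le_norm _).trans h2
    rw [Complex.sub_re] at h3
    have h6 : Real.sqrt 2 ≤ 2 := by
      rw [Real.sqrt_le_left (by norm_num)]; norm_num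
    have h7 := Real.sqrt_nonneg 2
    have h8 : |XX T s.im - XX T t| ≤ θ := by
      unfold XX
      rw [← hL, ← hσd, ← mul_sub, ← sub_div, abs_mul, abs_of_nonneg h7, abs_div, abs_of_pos hσ0]
      have h9 : |(Px T s.im).re - (Px T t).re| / σ ≤ 1 / σ := by gcongr
      have h10 : 1 / σ ≤ θ / 2 := by
        rw [div_le_div_iff₀ hσ0 (by norm_num)]
        rw [div_le_iff₀ hθ] at tσ
        linarith
      calc Real.sqrt 2 * (|(Px T s.im).re - (Px T t).re| / σ) ≤ 2 * (θ / 2) :=
            mul_le_mul h6 (h9.trans h10) (by positivity) (by norm_num)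
        _ = θ := by ring
    have h9 := abs_le.1 h8
    have h10 : a + θ < XX T t := ht4
    have h11 : XX T t < b - θ := ht5
    constructor
    · linarith [h9.1]
    · linarith [h9.2]

end

end Pool.Agent.K4H6.GL
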