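import Pool.Agent.K4H6.GL.Gs

set_option autoImplicit false

/-! The Gaussian law of the prime sum at the zeros: tails; crowded zeros. -/

namespace Pool.Agent.K4H6.GL

open Filter Topology MeasureTheory Complex H370 Pool.Agent.K4H6.Win Pool.Agent.K4H6.Qn Pool.Agent.K4H6.Cov
open Pool.Agent.Y745.SW (Gm01 SB Px nrm)

noncomputable section

/-- the expected number of zeros of the block -/
def EE (T : ℝ) : ℝ := T * Real.log T / (2 * Real.pi)

lemma tail_split {a b : ℝ} : tail a = nm a b + tail b := by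
  unfold tail nm
  exact (intervalIntegral.integral_interval_add_Ioi phi0_integrable.integrableOn phi0_integrable.integrableOn).symm

lemma tail_le_one (a : ℝ) : tail a ≤ 1 := by
  unfold tail
  rw [← phi0_total]
  exact setIntegral_le_integral phi0_integrable (Filter.Eventually.of_forall fun x => phi0_nonneg x)

lemma tot_filter (T : ℝ) (p : ℂ → Prop) [DecidablePred p] : tot T p = ∑ s ∈ (Zb T).filter p, (mult riemannZeta s : ℝ) := by
  unfold tot
  rw [Finset.sum_filter]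
  refine Finset.sum_congr rfl fun s _ => ?_
  by_cases hp : p s
  · rw [ind_pos hp, if_pos hp]
  · rw [ind_neg hp, if_neg hp]

/-- the number of all zeros -/
lemma tot_all {ε : ℝ} (hε : 0 < ε) : ∀ᶠ T : ℝ in atTop, |tot T (fun _ => True) - EE T| ≤ ε * EE T := by
  have hpi := Real.pi_pos
  filter_upwards [total (show 0 < ε / (2 * Real.pi) by positivity)] with T hT
  unfold EE
  rw [tot_filter, Finset.filter_true]
  refine hT.trans (le_of_eq ?_)
  ring

lemma tot_ends {A ε : ℝ} (hA : 1 ≤ A) (hε : 0 < ε) : ∀ᶠ T : ℝ in atTop,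
    tot T (fun s => ¬ (T + A * Real.log T < s.im ∧ s.im ≤ 2 * T - A * Real.log T)) ≤ ε * EE T := by
  have hpi := Real.pi_pos
  filter_upwards [ends hA (show 0 < ε / (2 * Real.pi) by positivity)] with T hT
  rw [tot_filter]
  refine hT.trans (le_of_eq ?_)
  unfold EE
  ring

lemma EE_pos : ∀ᶠ T : ℝ in atTop, 0 < EE T := by
  have hpi := Real.pi_pos
  filter_upwards [eventually_ge_atTop 10, Real.tendsto_log_atTop.eventually_ge_atTop 1] with T h1 h2
  unfold EE
  have : 0 < T := by linarith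
  have : 0 < Real.log T := by linarith
  positivity

theorem lowG' {a b ε : ℝ} (hab : a < b) (hε : 0 < ε) : ∀ᶠ T : ℝ in atTop,
    (nm a b - ε) * EE T ≤ tot T (fun s => a < XX T s.im ∧ XX T s.im < b) := lowG hab hε

theorem lowT {ε : ℝ} (hε : 0 < ε) (a : ℝ) : ∀ᶠ T : ℝ in atTop,
    (tail a - ε) * EE T ≤ tot T (fun s => a < XX T s.im) := by
  obtain ⟨M, hM, hM2⟩ := tail_large (show 0 < ε / 2 by positivity) a
  have haM : a < M := by linarith [le_abs_self a]
  filter_upwards [lowG' haM (show 0 < ε / 2 by positivity), EE_pos] with T hT hE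
  have h1 := (hM2 M le_rfl).2
  have h2 : tot T (fun s => a < XX T s.im ∧ XX T s.im < M) ≤ tot T (fun s => a < XX T s.im) :=
    tot_mono fun s _ hs => hs.1
  refine le_trans ?_ (hT.trans h2)
  exact mul_le_mul_of_nonneg_right (by linarith) hE.le

theorem upT {ε : ℝ} (hε : 0 < ε) (a : ℝ) : ∀ᶠ T : ℝ in atTop,
    tot T (fun s => a ≤ XX T s.im) ≤ (tail a + ε) * EE T := by
  obtain ⟨M, hM, hM2⟩ := tail_large (show 0 < ε / 4 by positivity) a
  have haM : -M < a := by linarith [neg_abs_le a]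
  filter_upwards [lowG' haM (show 0 < ε / 4 by positivity), EE_pos, tot_all (show 0 < ε / 4 by positivity)]
    with T hT hE hA
  have h1 := (hM2 M le_rfl).1
  have h2 : tot T (fun s => -M < XX T s.im ∧ XX T s.im < a) + tot T (fun s => a ≤ XX T s.im) ≤ tot T (fun _ => True) :=
    tot_add (fun s _ h1 h2 => by linarith [h1.2]) (fun _ _ _ => trivial) (fun _ _ _ => trivial)
  have h3 := (abs_le.1 hA).2
  have h5 : (1 - tail a - ε / 4 - ε / 4) * EE T ≤ (nm (-M) a - ε / 4) * EE T :=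
    mul_le_mul_of_nonneg_right (by linarith) hE.le
  have h6 : 0 < ε * EE T := by positivity
  linarith

theorem upG {a b ε : ℝ} (hab : a ≤ b) (hε : 0 < ε) : ∀ᶠ T : ℝ in atTop,
    tot T (fun s => a ≤ XX T s.im ∧ XX T s.im ≤ b) ≤ (nm a b + ε) * EE T := by
  filter_upwards [lowT (show 0 < ε / 2 by positivity) b, upT (show 0 < ε / 2 by positivity) a] with T h1 h2
  have h3 : tot T (fun s => a ≤ XX T s.im ∧ XX T s.im ≤ b) + tot T (fun s => b < XX T s.im) ≤
      tot T (fun s => a ≤ XX T s.im) :=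
    tot_add (fun s _ h1 h2 => by linarith [h1.2]) (fun _ _ h => h.1) (fun _ _ h => hab.trans (le_of_lt h))
  have h4 := tail_split (a := a) (b := b)
  have e : (nm a b + ε) * EE T = (tail a + ε / 2) * EE T - (tail b - ε / 2) * EE T := by rw [h4]; ring
  rw [e]
  linarith

/-- few zeros have a large value of the prime sum -/
theorem bigG {ε : ℝ} (hε : 0 < ε) : ∃ M0 : ℝ, 1 ≤ M0 ∧ ∀ M : ℝ, M0 ≤ M → ∀ᶠ T : ℝ in atTop,
    tot T (fun s => M ≤ |XX T s.im|) ≤ ε * EE T := by
  obtain ⟨M, hM, hM2⟩ := nm_large (show 0 < ε / 4 by positivity)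
  refine ⟨M, hM, fun M' hM' => ?_⟩
  have hab : -M' < M' := by linarith
  filter_upwards [lowG' hab (show 0 < ε / 4 by positivity), EE_pos, tot_all (show 0 < ε / 4 by positivity)]
    with T hT hE hA
  have h1 := hM2 M' hM'
  have h2 : tot T (fun s => -M' < XX T s.im ∧ XX T s.im < M') + tot T (fun s => M' ≤ |XX T s.im|) ≤
      tot T (fun _ => True) :=
    tot_add (fun s _ h1 h2 => by
      have := abs_lt.2 h1
      linarith) (fun _ _ _ => trivial) (fun _ _ _ => trivial)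
  have h3 := (abs_le.1 hA).2
  have h5 : (1 - ε / 4 - ε / 4) * EE T ≤ (nm (-M') M' - ε / 4) * EE T :=
    mul_le_mul_of_nonneg_right (by linarith) hE.le
  have h6 : 0 < ε * EE T := by positivity
  linarith

/-- the number of zeros close to `s` -/
def nr (T : ℝ) (s : ℂ) : ℝ :=
  ∑ s' ∈ Zb T, Set.indicator (fun s' => |s'.im - s.im| ≤ 2 / Real.log T) (fun s => (mult riemannZeta s : ℝ)) s'

/-- few zeros are crowded -/
theorem crowd {ε : ℝ} (hε : 0 < ε) : ∃ K0 : ℝ, 1 ≤ K0 ∧ ∀ᶠ T : ℝ in atTop,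
    tot T (fun s => K0 < nr T s) ≤ ε * EE T := by
  have hpi := Real.pi_pos
  obtain ⟨h0, hh0, hN⟩ := arbN (show 0 < ε / 8 by positivity)
  obtain ⟨h, hhd⟩ : ∃ h, h = max h0 8 := ⟨_, rfl⟩
  have hh8 : 8 ≤ h := by rw [hhd]; exact le_max_right _ _
  have hhh : h0 ≤ h := by rw [hhd]; exact le_max_left _ _
  refine ⟨max 1 (2 * (h / (2 * Real.pi))), le_max_left _ _, ?_⟩
  filter_upwards [hN, tot_ends (show (1:ℝ) ≤ 5 by norm_num) (show 0 < ε / 2 by positivity),
    Real.tendsto_log_atTop.eventually_ge_atTop 1, Real.tendsto_log_atTop.eventually_ge_atTop h,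
    log_small 20 1 (show (0:ℝ) < 1 by norm_num), eventually_ge_atTop 10, EE_pos] with T tN tE tL th tsm tT tEE
  rw [pow_one] at tsm
  set L := Real.log T with hL
  have hL0 : 0 < L := by linarith
  have hT0 : 0 < T := by linarith
  obtain ⟨H, hH⟩ : ∃ H, H = h / L := ⟨_, rfl⟩
  have hH0 : 0 < H := by rw [hH]; positivity
  have hH1 : H ≤ 1 := by rw [hH, div_le_one hL0]; exact th
  have hHL : H * L = h := by rw [hH]; field_simp
  obtain ⟨E0, hE0⟩ : ∃ E0, E0 = h / (2 * Real.pi) := ⟨_, rfl⟩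
  have hE00 : 0 < E0 := by rw [hE0]; positivity
  rw [← hE0]
  set J := Set.Icc (T + 3 * L) (2 * T - 3 * L - H) with hJ
  set B : Set ℝ := J ∩ {t | 2 * E0 < Gm (fun m => (m:ℝ)) T (2 * T) H t} with hB
  have hBm : MeasurableSet B := measurableSet_Icc.inter (measurableSet_lt measurable_const (Gm_meas _ _ _ _))
  have hBJ : B ⊆ J := Set.inter_subset_left
  have hBf : volume B ≠ ⊤ := ne_top_of_le_ne_top (by simp [hJ]) (measure_mono hBJ)
  have h1 := tN H (by rw [hH]; gcongr) B hBm hBJ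
  rw [hHL, ← hE0] at h1
  have h2 : volume.real B * (2 * E0) ≤ ∫ t in B, Gm (fun m => (m:ℝ)) T (2 * T) H t := by
    have h3 : ∫ _ in B, (2 * E0) ≤ ∫ t in B, Gm (fun m => (m:ℝ)) T (2 * T) H t :=
      setIntegral_mono_on (integrableOn_const hBf) (Gm_int _ _ _ _ hBf) hBm fun t ht => le_of_lt ht.2
    rw [setIntegral_const, smul_eq_mul] at h3
    exact h3
  have h3 := (abs_le.1 h1).2
  have h4 : ∫ t in B, Gm (fun m => (m:ℝ)) T (2 * T) H t ≤ 2 * (ε / 8 * T * E0) := by linarith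
  have h5 : H / 2 * tot T (fun s => (T + 5 * L < s.im ∧ s.im ≤ 2 * T - 5 * L) ∧ max 1 (2 * E0) < nr T s) ≤
      ∫ t in B, Gm (fun m => (m:ℝ)) T (2 * T) H t := by
    refine near_low (Zb T) (fun s => (T + 5 * L < s.im ∧ s.im ≤ 2 * T - 5 * L) ∧ max 1 (2 * E0) < nr T s)
      (m := fun s => (mult riemannZeta s : ℝ)) (fun s => Nat.cast_nonneg _) hBf (by positivity) ?_
    rintro s hs ⟨⟨hs1, hs2⟩, hs3⟩
    have h8 : 8 / L ≤ H := by rw [hH]; gcongr
    have h9 : 2 / L = (8 / L) / 4 := by ring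
    obtain ⟨d, hd⟩ : ∃ d, d = 2 / L := ⟨_, rfl⟩
    have hd0 : 0 < d := by rw [hd]; positivity
    have hdH : 4 * d ≤ H := by rw [hd]; linarith
    refine ⟨s.im - H + d, ?_, by linarith, by linarith⟩
    intro t ht
    refine ⟨⟨by linarith [ht.1], by linarith [ht.2]⟩, ?_⟩
    have h10 : 2 * E0 < nr T s := lt_of_le_of_lt (le_max_right _ _) hs3
    refine lt_of_lt_of_le h10 ?_
    unfold nr Gm
    rw [← hL, ← hd]
    refine Finset.sum_le_sum fun s' _ => ?_
    by_cases h11 : |s'.im - s.im| ≤ d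
    · rw [ind_pos (p := fun s' => |s'.im - s.im| ≤ d) h11, if_pos]
      have h12 := abs_le.1 h11
      constructor
      · linarith [ht.2, h12.1]
      · linarith [ht.1, h12.2]
    · rw [ind_neg (p := fun s' => |s'.im - s.im| ≤ d) h11]
      split_ifs <;> simp
  have h6 : tot T (fun s => (T + 5 * L < s.im ∧ s.im ≤ 2 * T - 5 * L) ∧ max 1 (2 * E0) < nr T s) ≤
      ε / 2 * EE T := by
    have h7 := h5.trans h4
    have e : 2 * (ε / 8 * T * E0) = H / 2 * (ε / 2 * EE T) := by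
      rw [hE0]
      unfold EE
      rw [← hL, ← hHL]
      ring
    rw [e] at h7
    exact le_of_mul_le_mul_left h7 (by positivity)
  have h7 : tot T (fun s => max 1 (2 * E0) < nr T s) ≤
      tot T (fun s => (¬ (T + 5 * L < s.im ∧ s.im ≤ 2 * T - 5 * L)) ∨
        ((T + 5 * L < s.im ∧ s.im ≤ 2 * T - 5 * L) ∧ max 1 (2 * E0) < nr T s)) := by
    refine tot_mono fun s _ hs => ?_
    by_cases h8 : T + 5 * L < s.im ∧ s.im ≤ 2 * T - 5 * L
    · exact Or.inr ⟨h8, hs⟩
    · exact Or.inl h8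
  have h8 := tot_or (T := T) (fun s => ¬ (T + 5 * L < s.im ∧ s.im ≤ 2 * T - 5 * L))
    (fun s => (T + 5 * L < s.im ∧ s.im ≤ 2 * T - 5 * L) ∧ max 1 (2 * E0) < nr T s)
  linarith

end

end Pool.Agent.K4H6.GL
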