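import Pool.Agent.K4H6.GL.LawG
import Pool.Agent.K4H8.JG.Fin

set_option autoImplicit false

/-! The joint law of the prime sum and the remainder term of the zero counting function at the zeros. -/

namespace Pool.Agent.K4H6.GL

open Filter Topology MeasureTheory Complex H370 ProbabilityTheory Pool.Agent.K4H6.Win Pool.Agent.K4H6.Qn
  Pool.Agent.K4H6.Cov
open Pool.Agent.Y745.SW (Px nrm)
open Pool.Agent.K4H8.JG (NP SV E1 nrm2 shrink)

noncomputable section

/-- the prime sum and the remainder term at the height `t` -/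
def pr (T t : ℝ) : ℂ := ⟨XX T t, Real.sqrt 2 * (Real.pi * E1 t / Real.sqrt (Real.log (Real.log T)))⟩

/-- the standard Gaussian measure of the plane -/
def gs (U : Set ℂ) : ℝ := (stdGaussian ℂ).real U

lemma gs_nonneg (U : Set ℂ) : 0 ≤ gs U := measureReal_nonneg

lemma gs_le_one (U : Set ℂ) : gs U ≤ 1 := measureReal_le_one

lemma NP_eq (T t : ℝ) : NP T t = ⟨XX T t, Real.sqrt 2 * ((Px T t).im / Real.sqrt (Real.log (Real.log T)))⟩ := by
  unfold NP XX
  apply Complex.ext
  · rw [Complex.re_ofReal_mul, Complex.div_ofReal_re]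
  · rw [Complex.im_ofReal_mul, Complex.div_ofReal_im]

lemma sv {V : Set ℂ} (hV : MeasurableSet V) (hf : stdGaussian ℂ (frontier V) = 0) {δ : ℝ} (hδ : 0 < δ) :
    ∀ᶠ T : ℝ in atTop, (gs V - δ) * T ≤ volume.real (SV V T) := by
  have h := (Pool.Agent.K4H8.JG.lim_vol2 Pool.Agent.Y745.SW.a_FM hV hf).eventually_const_le
    (show gs V - δ < (stdGaussian ℂ).real V by unfold gs; linarith)
  filter_upwards [h, eventually_gt_atTop 0] with T hT hT0
  rw [one_div, inv_mul_eq_div, le_div_iff₀ hT0] at hT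
  exact hT

/-- the joint law at the zeros, lower bound for open sets -/
theorem lowG2 {U : Set ℂ} (hU : IsOpen U) {ε : ℝ} (hε : 0 < ε) : ∀ᶠ T : ℝ in atTop,
    (gs U - ε) * EE T ≤ tot T (fun s => pr T s.im ∈ U) := by
  have hpi := Real.pi_pos
  obtain ⟨V, r, R, hVm, hVf, hr, hVR, hVU, hG⟩ := shrink (stdGaussian ℂ) hU (show 0 < ε / 8 by positivity)
  change gs U - ε / 8 ≤ gs V at hG
  obtain ⟨h0, hh0, hN⟩ := arbN (show 0 < ε / 8 by positivity)
  filter_upwards [hN, sv hVm hVf (show 0 < ε / 8 by positivity),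
    Pool.Agent.Y895.SW.t_BV h0 (ε / 8) hh0 (by positivity),
    Pool.Agent.K4H8.JG.a_BE h0 (ε / 8) (r / 20) hh0 (by positivity) (by positivity),
    loglog_tt.eventually_ge_atTop (4 / r),
    Real.tendsto_log_atTop.eventually_ge_atTop 1, Real.tendsto_log_atTop.eventually_ge_atTop h0,
    log_small 5 1 (show 0 < ε / 8 by positivity), eventually_ge_atTop 10] with T tN tsv tbv tbe tσ tL th0 tsm tT
  obtain ⟨Bd, hBdm, hBd1, hBd2, hBd3⟩ := tbv
  obtain ⟨Be, hBem, hBe1, hBe2, hBe3⟩ := tbe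
  rw [pow_one] at tsm
  set L := Real.log T with hL
  obtain ⟨σ, hσd⟩ : ∃ σ, σ = Real.sqrt (Real.log L) := ⟨_, rfl⟩
  rw [← hσd] at tσ hBe3
  have hσ0 : 0 < σ := lt_of_lt_of_le (by positivity) tσ
  have hL0 : 0 < L := by linarith
  have hT0 : 0 < T := by linarith
  obtain ⟨H, hH⟩ : ∃ H, H = h0 / L := ⟨_, rfl⟩
  have hH0 : 0 < H := by rw [hH]; positivity
  have hH1 : H ≤ 1 := by rw [hH, div_le_one hL0]; exact th0
  obtain ⟨SS, hSS⟩ : ∃ SS, SS = SV V T := ⟨_, rfl⟩
  have tm : MeasurableSet SS := by rw [hSS]; exact Pool.Agent.K4H8.JG.SV_meas hVm T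
  rw [← hSS] at tsv
  have hSSI : SS ⊆ Set.Icc (T + L) (2 * T - L) := fun t ht => by rw [hSS] at ht; exact ht.1
  have hSSV : ∀ t ∈ SS, NP T t ∈ V := fun t ht => by rw [hSS] at ht; exact ht.2
  set J := Set.Icc (T + 3 * L) (2 * T - 3 * L - H) with hJ
  set S := (SS \ (Bd ∪ Be)) ∩ J with hS
  have hSm : MeasurableSet S := (tm.diff (hBdm.union hBem)).inter measurableSet_Icc
  have hSI : S ⊆ J := Set.inter_subset_right
  have hSf : volume S ≠ ⊤ := ne_top_of_le_ne_top (by simp [hJ]) (measure_mono hSI)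
  have h1 := tN H (by rw [hH]) S hSm hSI
  -- the measure of `S`
  have hvol : volume.real SS ≤ volume.real S + (volume.real Bd + volume.real Be) + 5 * L := by
    have h2 : SS ⊆ (S ∪ (Bd ∪ Be)) ∪ (Set.Icc (T + L) (T + 3 * L) ∪ Set.Icc (2 * T - 3 * L - H) (2 * T - L)) := by
      intro t ht
      by_cases hb : t ∈ Bd ∪ Be
      · exact Or.inl (Or.inr hb)
      · have h3 := hSSI ht
        by_cases h4 : t < T + 3 * L
        · exact Or.inr (Or.inl ⟨h3.1, h4.le⟩)
        · by_cases h5 : 2 * T - 3 * L - H < t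
          · exact Or.inr (Or.inr ⟨h5.le, h3.2⟩)
          · exact Or.inl (Or.inl ⟨⟨ht, hb⟩, ⟨not_lt.1 h4, not_lt.1 h5⟩⟩)
    have hBf : volume Bd ≠ ⊤ := ne_top_of_le_ne_top (by simp) (measure_mono hBd1)
    have hBf' : volume Be ≠ ⊤ := ne_top_of_le_ne_top (by simp) (measure_mono hBe1)
    have hBB : volume (Bd ∪ Be) < ⊤ := measure_union_lt_top (lt_top_iff_ne_top.2 hBf) (lt_top_iff_ne_top.2 hBf')
    have h3 : volume ((S ∪ (Bd ∪ Be)) ∪ (Set.Icc (T + L) (T + 3 * L) ∪
        Set.Icc (2 * T - 3 * L - H) (2 * T - L))) ≠ ⊤ := by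
      refine (measure_union_lt_top (measure_union_lt_top (lt_top_iff_ne_top.2 hSf) hBB)
        (measure_union_lt_top ?_ ?_)).ne
      · rw [Real.volume_Icc]; exact ENNReal.ofReal_lt_top
      · rw [Real.volume_Icc]; exact ENNReal.ofReal_lt_top
    have h4 := measureReal_mono h2 h3
    have h5 := measureReal_union_le (μ := volume) (S ∪ (Bd ∪ Be))
      (Set.Icc (T + L) (T + 3 * L) ∪ Set.Icc (2 * T - 3 * L - H) (2 * T - L))
    have h6 := measureReal_union_le (μ := volume) S (Bd ∪ Be)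
    have h6' := measureReal_union_le (μ := volume) Bd Be
    have h7 := measureReal_union_le (μ := volume) (Set.Icc (T + L) (T + 3 * L))
      (Set.Icc (2 * T - 3 * L - H) (2 * T - L))
    rw [Real.volume_real_Icc_of_le (by linarith), Real.volume_real_Icc_of_le (by linarith)] at h7
    linarith
  have hlow : (gs U - 5 * ε / 8) * T ≤ volume.real S := by
    have h3 : (gs U - ε / 8 - ε / 8) * T ≤ (gs V - ε / 8) * T := mul_le_mul_of_nonneg_right (by linarith) hT0.le
    linarith
  -- the zeros near `S`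
  have hnear := near_int (Zb T) (fun s => pr T s.im ∈ U) (m := fun s => (mult riemannZeta s : ℝ))
    (fun s => Nat.cast_nonneg _) hH0.le hSf ?_
  · change (∫ t in S, Gm (fun m => (m:ℝ)) T (2 * T) H t) ≤ H * tot T (fun s => pr T s.im ∈ U) at hnear
    have h2 := (abs_le.1 h1).1
    have h3 : (volume.real S - ε / 8 * T) * (H * L / (2 * Real.pi)) ≤
        H * tot T (fun s => pr T s.im ∈ U) := by
      refine le_trans ?_ hnear
      linarith
    have h4 : (volume.real S - ε / 8 * T) * (H * L / (2 * Real.pi)) =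
        H * ((volume.real S - ε / 8 * T) * (L / (2 * Real.pi))) := by ring
    rw [h4] at h3
    have h5 := le_of_mul_le_mul_left h3 hH0
    refine le_trans ?_ h5
    unfold EE
    rw [← hL]
    have e : (gs U - ε) * (T * L / (2 * Real.pi)) = ((gs U - ε) * T) * (L / (2 * Real.pi)) := by ring
    rw [e]
    refine mul_le_mul_of_nonneg_right ?_ (by positivity)
    have : 0 < ε * T := by positivity
    linarith
  · rintro s - ⟨t, ht, ht1, ht2⟩
    obtain ⟨⟨ht3, ht6⟩, ht7, ht8⟩ := ht
    have ht6a : t ∉ Bd := fun h => ht6 (Or.inl h)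
    have ht6b : t ∉ Be := fun h => ht6 (Or.inr h)
    have hst : |s.im - t| ≤ h0 / L := by
      rw [abs_of_pos (by linarith), ← hH]; linarith
    have h2 := hBd3 t ⟨by linarith, by linarith⟩ ht6a (s.im - t) hst
    rw [add_sub_cancel] at h2
    have h3 := (Complex.abs_re_le_norm _).trans h2
    rw [Complex.sub_re] at h3
    have h2' := hBe3 t ⟨by linarith, by linarith⟩ ht6b (s.im - t) hst
    rw [add_sub_cancel] at h2'
    have h6 : Real.sqrt 2 ≤ 1.42 := by
      rw [Real.sqrt_le_left (by norm_num)]; norm_num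
    have h7 := Real.sqrt_nonneg 2
    have h8 : |XX T s.im - XX T t| ≤ r / 2 := by
      unfold XX
      rw [← hL, ← hσd, ← mul_sub, ← sub_div, abs_mul, abs_of_nonneg h7, abs_div, abs_of_pos hσ0]
      have h9 : |(Px T s.im).re - (Px T t).re| / σ ≤ 1 / σ := by gcongr
      have h10 : 1 / σ ≤ r / 4 := by
        rw [div_le_div_iff₀ hσ0 (by norm_num)]
        rw [div_le_iff₀ hr] at tσ
        linarith
      calc Real.sqrt 2 * (|(Px T s.im).re - (Px T t).re| / σ) ≤ 1.42 * (r / 4) :=
            mul_le_mul h6 (h9.trans h10) (by positivity) (by norm_num)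
        _ ≤ r / 2 := by linarith
    have h11 : |Real.sqrt 2 * (Real.pi * E1 s.im / σ) - Real.sqrt 2 * ((Px T t).im / σ)| ≤ r / 4 := by
      have e : Real.sqrt 2 * (Real.pi * E1 s.im / σ) - Real.sqrt 2 * ((Px T t).im / σ) =
          Real.sqrt 2 * Real.pi / σ * (E1 s.im - (Px T t).im / Real.pi) := by
        field_simp
      rw [e, abs_mul, abs_of_nonneg (by positivity)]
      calc Real.sqrt 2 * Real.pi / σ * |E1 s.im - (Px T t).im / Real.pi| ≤
          Real.sqrt 2 * Real.pi / σ * (r / 20 * σ) := mul_le_mul_of_nonneg_left h2' (by positivity)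
        _ = Real.sqrt 2 * Real.pi * (r / 20) := by field_simp
        _ ≤ 1.42 * 3.15 * (r / 20) := by
            have := Real.pi_lt_d2
            gcongr
        _ ≤ r / 4 := by linarith
    refine hVU (NP T t) (hSSV t ht3) _ ?_
    rw [NP_eq]
    unfold pr
    rw [← hL, ← hσd]
    refine (Complex.norm_le_abs_re_add_abs_im _).trans_lt ?_
    rw [Complex.sub_re, Complex.sub_im]
    show |XX T s.im - XX T t| +
        |Real.sqrt 2 * (Real.pi * E1 s.im / σ) - Real.sqrt 2 * ((Px T t).im / σ)| < r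
    linarith

end

end Pool.Agent.K4H6.GL
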