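import Pool.Agent.K4H6.GL.Jt

set_option autoImplicit false

/-! The joint law of the leading coefficient and the displacement at all zeros; the criterion. -/

namespace Pool.Agent.K4H6.GL

open Filter Topology MeasureTheory Complex H370 ProbabilityTheory
open Pool.Agent.Y745.SW (Px nrm)
open Pool.Agent.K4H8.JG (NP SV E1 nrm2 shrink)

noncomputable section

/-- the normalised displacement -/
def dsp (c0 t : ℝ) : ℝ := Real.sqrt 2 * (Real.pi * (E1 t + c0) / Real.sqrt (Real.log (Real.log t)))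

/-- the pair with the leading coefficient -/
def WW (c0 : ℝ) (s : ℂ) : ℂ := ⟨VV s, dsp c0 s.im⟩

/-- the pair with the derivative -/
def YD (c0 : ℝ) (s : ℂ) : ℂ := ⟨YC s, dsp c0 s.im⟩

/-- few zeros have large values -/
lemma far2 {ε : ℝ} (hε : 0 < ε) : ∃ M : ℝ, 0 < M ∧ ∀ᶠ T : ℝ in atTop,
    tot T (fun s => ¬ ‖pr T s.im‖ < M) ≤ ε * EE T := by
  obtain ⟨V, r, R, hVm, hVf, hr, hVR, hVU, hG⟩ := shrink (stdGaussian ℂ) isOpen_univ (show 0 < ε / 4 by positivity)
  have h1 : (stdGaussian ℂ).real Set.univ = 1 := probReal_univ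
  rw [h1] at hG
  obtain ⟨M, hM⟩ : ∃ M, M = |R| + 1 := ⟨_, rfl⟩
  have hM0 : 0 < M := by rw [hM]; positivity
  have hb : 1 - ε / 4 ≤ gs (Metric.ball 0 M) := by
    refine hG.trans (measureReal_mono ?_)
    intro z hz
    rw [Metric.mem_ball, dist_zero_right, hM]
    have := hVR z hz
    linarith [le_abs_self R]
  refine ⟨M, hM0, ?_⟩
  filter_upwards [lowG2 (U := Metric.ball 0 M) Metric.isOpen_ball (show 0 < ε / 4 by positivity),
    tot_all (show 0 < ε / 4 by positivity), EE_pos] with T h2 h3 h4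
  have h5 : tot T (fun s => pr T s.im ∈ Metric.ball (0:ℂ) M) + tot T (fun s => ¬ ‖pr T s.im‖ < M) ≤
      tot T (fun _ => True) :=
    tot_add (fun s _ h1 h2 => by
      rw [Metric.mem_ball, dist_zero_right] at h1
      exact h2 h1) (fun _ _ _ => trivial) (fun _ _ _ => trivial)
  have h6 := (abs_le.1 h3).2
  have h7 : (1 - ε / 4 - ε / 4) * EE T ≤ (gs (Metric.ball 0 M) - ε / 4) * EE T :=
    mul_le_mul_of_nonneg_right (by linarith) h4.le
  have h8 : 0 < ε * EE T := by positivity
  linarith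

/-- the pair with the leading coefficient is close to the pair with the prime sum -/
theorem closeW (c0 : ℝ) {θ δ : ℝ} (hθ : 0 < θ) (hδ : 0 < δ) : ∀ᶠ T : ℝ in atTop,
    tot T (fun s => ¬ ‖WW c0 s - pr T s.im‖ < θ) ≤ δ * EE T := by
  obtain ⟨M, hM, hfar⟩ := far2 (show 0 < δ / 2 by positivity)
  filter_upwards [hfar, closeV (show 0 < θ / 2 by positivity) (show 0 < δ / 2 by positivity),
    Pool.Agent.K4H8.JG.nrm2_ev c0 (r := θ / 2) (R := M) (by positivity), eventually_ge_atTop 1] with T h1 h2 h3 h4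
  have h5 : tot T (fun s => ¬ ‖WW c0 s - pr T s.im‖ < θ) ≤
      tot T (fun s => (¬ ‖pr T s.im‖ < M) ∨ ¬ |VV s - XX T s.im| ≤ θ / 2) := by
    refine tot_mono fun s hs hb => ?_
    by_contra hcon
    rw [not_or, not_not, not_not] at hcon
    obtain ⟨n1, n2⟩ := hcon
    refine hb ?_
    obtain ⟨m1, m2⟩ := mem_block h4 hs
    have h6 : nrm2 T (Real.log (Real.log T)) (E1 s.im) =
        ⟨0, Real.sqrt 2 * (Real.pi * E1 s.im / Real.sqrt (Real.log (Real.log T)))⟩ := by
      unfold nrm2 nrm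
      rw [sub_self, zero_div, mul_zero]
    have h7 : ‖nrm2 T (Real.log (Real.log T)) (E1 s.im)‖ ≤ M := by
      rw [h6]
      have h8 : ‖(⟨0, Real.sqrt 2 * (Real.pi * E1 s.im / Real.sqrt (Real.log (Real.log T)))⟩ : ℂ)‖ =
          |(pr T s.im).im| := by
        have e : (⟨0, Real.sqrt 2 * (Real.pi * E1 s.im / Real.sqrt (Real.log (Real.log T)))⟩ : ℂ) =
            ((pr T s.im).im : ℂ) * I := by
          apply Complex.ext <;> simp [pr]
        rw [e, norm_mul, Complex.norm_I, mul_one, Complex.norm_real, Real.norm_eq_abs]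
      rw [h8]
      exact (Complex.abs_im_le_norm _).trans n1.le
    have h8 := h3 s.im m1 m2 _ _ h7
    have h9 := (Complex.abs_im_le_norm _).trans_lt h8
    rw [Complex.sub_im, h6] at h9
    refine (Complex.norm_le_abs_re_add_abs_im _).trans_lt ?_
    rw [Complex.sub_re, Complex.sub_im]
    have h10 : |(WW c0 s).im - (pr T s.im).im| < θ / 2 := h9
    have h11 : |(WW c0 s).re - (pr T s.im).re| ≤ θ / 2 := n2
    linarith
  refine h5.trans ((tot_or _ _).trans ?_)
  linarith

/-- transfer of the lower bounds -/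
theorem transfer {f g : ℝ → ℂ → ℂ} {p : ℂ → Prop}
    (hf : ∀ U : Set ℂ, IsOpen U → ∀ ε : ℝ, 0 < ε → ∀ᶠ T : ℝ in atTop,
      (gs U - ε) * EE T ≤ tot T (fun s => f T s ∈ U))
    (hfg : ∀ θ : ℝ, 0 < θ → ∀ δ : ℝ, 0 < δ → ∀ᶠ T : ℝ in atTop,
      tot T (fun s => ¬ (p s ∧ ‖g T s - f T s‖ < θ)) ≤ δ * EE T) :
    ∀ U : Set ℂ, IsOpen U → ∀ ε : ℝ, 0 < ε → ∀ᶠ T : ℝ in atTop,
      (gs U - ε) * EE T ≤ tot T (fun s => p s ∧ g T s ∈ U) := by
  intro U hU ε hε
  obtain ⟨V, r, R, hVm, hVf, hr, hVR, hVU, hG⟩ := shrink (stdGaussian ℂ) hU (show 0 < ε / 4 by positivity)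
  change gs U - ε / 4 ≤ gs V at hG
  have hV' : gs V ≤ gs (Metric.thickening (r / 2) V) :=
    measureReal_mono (Metric.self_subset_thickening (by positivity) V)
  filter_upwards [hf _ (Metric.isOpen_thickening (δ := r / 2) (E := V)) (ε / 4) (by positivity),
    hfg (r / 2) (by positivity) (ε / 4) (by positivity), EE_pos] with T h1 h2 h3
  have h4 : tot T (fun s => f T s ∈ Metric.thickening (r / 2) V) ≤
      tot T (fun s => (p s ∧ g T s ∈ U) ∨ ¬ (p s ∧ ‖g T s - f T s‖ < r / 2)) := by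
    refine tot_mono fun s hs hb => ?_
    by_cases h : p s ∧ ‖g T s - f T s‖ < r / 2
    · left
      refine ⟨h.1, ?_⟩
      rw [Metric.mem_thickening_iff] at hb
      obtain ⟨z, hz, hd⟩ := hb
      refine hVU z hz _ ?_
      rw [dist_eq_norm] at hd
      have e : g T s - z = (g T s - f T s) + (f T s - z) := by ring
      rw [e]
      refine (norm_add_le _ _).trans_lt ?_
      linarith [h.2]
    · exact Or.inr h
  have h5 := h4.trans (tot_or _ _)
  have h6 : (gs U - ε / 4 - ε / 4) * EE T ≤ (gs (Metric.thickening (r / 2) V) - ε / 4) * EE T :=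
    mul_le_mul_of_nonneg_right (by linarith) h3.le
  have h7 : 0 < ε * EE T := by positivity
  linarith

/-- exact law from lower bounds for open sets -/
theorem exactC {g : ℂ → ℂ} {p : ℂ → Prop}
    (h : ∀ U : Set ℂ, IsOpen U → ∀ ε : ℝ, 0 < ε → ∀ᶠ T : ℝ in atTop,
      (gs U - ε) * EE T ≤ tot T (fun s => p s ∧ g s ∈ U)) :
    ∀ A : Set ℂ, stdGaussian ℂ (frontier A) = 0 → ∀ ε : ℝ, 0 < ε → ∀ᶠ X : ℝ in atTop,
      |cum (fun s => p s ∧ g s ∈ A) X - gs A * cum (fun _ => True) X| ≤ ε * cum (fun _ => True) X := by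
  intro A hA
  have hcl : gs (closure A) ≤ gs (interior A) := by
    have h1 : closure A = interior A ∪ frontier A := closure_eq_interior_union_frontier A
    unfold gs
    rw [h1]
    refine (measureReal_union_le _ _).trans ?_
    have h2 : (stdGaussian ℂ).real (frontier A) = 0 := by rw [measureReal_def, hA]; rfl
    rw [h2, add_zero]
  have h1 : gs A ≤ gs (closure A) := measureReal_mono subset_closure
  have h2 : gs (interior A) ≤ gs A := measureReal_mono interior_subset
  have h3 : gs (interior Aᶜ) = 1 - gs (closure A) := by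
    unfold gs
    rw [interior_compl]
    exact probReal_compl_eq_one_sub isClosed_closure.measurableSet
  refine (asy_N _ (gs_nonneg A)).2 fun ε hε => ?_
  filter_upwards [h _ (isOpen_interior (s := A)) ε hε, h _ (isOpen_interior (s := Aᶜ)) (ε / 2) (by positivity),
    tot_all (show 0 < ε / 2 by positivity), EE_pos] with T t1 t2 t3 t4
  have t5 : tot T (fun s => p s ∧ g s ∈ interior A) ≤ tot T (fun s => p s ∧ g s ∈ A) :=
    tot_mono fun s _ hs => ⟨hs.1, interior_subset hs.2⟩
  have t6 : tot T (fun s => p s ∧ g s ∈ A) + tot T (fun s => p s ∧ g s ∈ interior Aᶜ) ≤ tot T (fun _ => True) :=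
    tot_add (fun s _ h1 h2 => (interior_subset h2.2 : g s ∈ Aᶜ) h1.2) (fun _ _ _ => trivial) (fun _ _ _ => trivial)
  have t7 := (abs_le.1 t3).2
  have t8 : (gs A - ε) * EE T ≤ (gs (interior A) - ε) * EE T := mul_le_mul_of_nonneg_right (by linarith) t4.le
  have t9 : (1 - gs A - ε / 2) * EE T ≤ (gs (interior Aᶜ) - ε / 2) * EE T := by
    refine mul_le_mul_of_nonneg_right ?_ t4.le
    rw [h3]
    linarith
  rw [abs_le]
  constructor <;> linarith

/-- **the joint law at all zeros** -/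
theorem lawW (c0 : ℝ) (A : Set ℂ) (hA : stdGaussian ℂ (frontier A) = 0) : ∀ ε : ℝ, 0 < ε → ∀ᶠ X : ℝ in atTop,
    |cum (fun s => WW c0 s ∈ A) X - gs A * cum (fun _ => True) X| ≤ ε * cum (fun _ => True) X := by
  have h := exactC (p := fun _ => True) (g := WW c0) (transfer (f := fun T s => pr T s.im) (g := fun _ s => WW c0 s)
    (p := fun _ => True) (fun U hU ε hε => lowG2 hU hε) (fun θ hθ δ hδ => by
      filter_upwards [closeW c0 hθ hδ] with T hT
      refine le_trans (tot_mono fun s _ hs h => hs ⟨trivial, h⟩) hT)) A hA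
  intro ε hε
  filter_upwards [h ε hε] with X hX
  have e : cum (fun s => WW c0 s ∈ A) X = cum (fun s => True ∧ WW c0 s ∈ A) X := by
    congr 1
    ext s
    simp
  rw [e]
  exact hX

/-- the joint law with the derivative -/
def Law2C (c0 : ℝ) : Prop := ∀ A : Set ℂ, stdGaussian ℂ (frontier A) = 0 → ∀ ε : ℝ, 0 < ε → ∀ᶠ X : ℝ in atTop,
  |cum (fun s => sc s ∧ YD c0 s ∈ A) X - gs A * cum (fun _ => True) X| ≤ ε * cum (fun _ => True) X

lemma isoC_tot (h : IsoC) {ε δ : ℝ} (hε : 0 < ε) (hδ : 0 < δ) : ∀ᶠ T : ℝ in atTop,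
    tot T (fun s => ¬ (sc s ∧ isoC ε s)) ≤ δ * EE T := by
  have h1 := (asy_N (fun s => ¬ (sc s ∧ isoC ε s)) (le_refl (0:ℝ))).1 (fun δ hδ => by
    filter_upwards [h ε hε δ hδ] with X hX
    rw [zero_mul, sub_zero, abs_of_nonneg (cum_nonneg _ _)]
    exact hX)
  filter_upwards [h1 δ hδ] with T hT
  rw [zero_mul, sub_zero] at hT
  exact (le_abs_self _).trans hT

open Classical in
/-- at an isolated simple zero the contribution of the close zeros is small -/
lemma Rp_iso {ε R K0 T : ℝ} (hε : 0 < ε) (hT : 10 ≤ T) (hR : 1 ≤ R) (hL : 1 ≤ Real.log T) {s : ℂ} (hs : s ∈ Zb T)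
    (hs1 : T + 5 * Real.log T < s.im) (hs2 : s.im ≤ 2 * T - 5 * Real.log T) (hnr : nrA (6 * R) T s ≤ K0)
    (hi : isoC ε s) : 0 ≤ Rp s ∧ Rp s ≤ K0 * (ε * Real.sqrt (Real.log (Real.log s.im))) := by
  have hR0 : 0 < R := by linarith
  have hl : Real.log T ≤ Real.log s.im := Real.log_le_log (by linarith) (by linarith)
  obtain ⟨l, hld⟩ : ∃ l, l = Real.log s.im := ⟨_, rfl⟩
  have hl0 : 0 < l := by rw [hld]; linarith
  obtain ⟨x, hx⟩ : ∃ x, x = ε * Real.sqrt (Real.log (Real.log s.im)) := ⟨_, rfl⟩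
  have hx0 : 0 ≤ x := by rw [hx]; positivity
  rw [← hx]
  unfold Rp
  rw [near_eq hT hR hL hs1 hs2, finsum_mem_coe_finset, ← hld]
  have hterm : ∀ w ∈ (nbG R T s).filter (fun w => ‖w - s‖ ≤ 1 / l),
      0 ≤ (mult riemannZeta w : ℝ) * Real.log (1 / (‖w - s‖ * l)) ∧
      (mult riemannZeta w : ℝ) * Real.log (1 / (‖w - s‖ * l)) ≤ (mult riemannZeta w : ℝ) * x := by
    intro w hw
    rw [Finset.mem_filter, mem_nbG] at hw
    obtain ⟨⟨a1, a2, a3⟩, a4⟩ := hw
    have a5 := (mem_Zb (by linarith)).1 a1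
    have hpos : 0 < ‖w - s‖ := norm_pos_iff.2 (sub_ne_zero.2 a2)
    have a6 := hi w a5.2.2.2.2 a5.1 a5.2.1 a2
    rw [← hld] at a6
    have e1 : -ε * Real.sqrt (Real.log l) = -x := by rw [hx, hld]; ring
    rw [e1] at a6
    constructor
    · refine mul_nonneg (Nat.cast_nonneg _) (Real.log_nonneg ?_)
      rw [le_div_iff₀ (by positivity), one_mul]
      rwa [le_div_iff₀ hl0] at a4
    · refine mul_le_mul_of_nonneg_left ?_ (Nat.cast_nonneg _)
      rw [Real.log_le_iff_le_exp (by positivity), div_le_iff₀ (by positivity)]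
      rw [div_le_iff₀ hl0] at a6
      have h6 : Real.exp x * Real.exp (-x) = 1 := by rw [← Real.exp_add, add_neg_cancel, Real.exp_zero]
      calc (1:ℝ) = Real.exp x * Real.exp (-x) := h6.symm
        _ ≤ Real.exp x * (‖w - s‖ * l) := mul_le_mul_of_nonneg_left a6 (Real.exp_pos _).le
  constructor
  · exact Finset.sum_nonneg fun w hw => (hterm w hw).1
  · refine (Finset.sum_le_sum fun w hw => (hterm w hw).2).trans ?_
    rw [← Finset.sum_mul]
    refine mul_le_mul_of_nonneg_right ?_ hx0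
    have h1 : ∑ w ∈ (nbG R T s).filter (fun w => ‖w - s‖ ≤ 1 / l), (mult riemannZeta w : ℝ) ≤
        ∑ w ∈ nbG R T s, (mult riemannZeta w : ℝ) :=
      Finset.sum_le_sum_of_subset_of_nonneg (Finset.filter_subset _ _) fun _ _ _ => Nat.cast_nonneg _
    have h2 := (nbG_le hR0 (by linarith) hs).trans hnr
    have h3 : (0:ℝ) ≤ mult riemannZeta s := Nat.cast_nonneg _
    linarith

lemma lead_simple {s : ℂ} (hs1 : s ≠ 1) (hs0 : riemannZeta s = 0) (hm : mult riemannZeta s = 1)
    (hfin : analyticOrderAt riemannZeta s ≠ ⊤) :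
    meromorphicTrailingCoeffAt riemannZeta s = deriv riemannZeta s := by
  have hd1 : DifferentiableOn ℂ riemannZeta ({1}ᶜ : Set ℂ) := fun z hz =>
    (differentiableAt_riemannZeta hz).differentiableWithinAt
  have ha : AnalyticAt ℂ riemannZeta s := hd1.analyticAt (isOpen_compl_singleton.mem_nhds hs1)
  obtain ⟨g, hg, hgs, he⟩ := (ha.analyticOrderAt_ne_top).1 hfin
  change analyticOrderNatAt riemannZeta s = 1 at hm
  rw [hm] at he
  have h1 : meromorphicTrailingCoeffAt riemannZeta s = g s := by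
    refine AnalyticAt.meromorphicTrailingCoeffAt_of_ne_zero_of_eq_nhdsNE (n := 1) hg hgs ?_
    filter_upwards [nhdsWithin_le_nhds he] with z hz
    rw [hz, zpow_one, pow_one]
  rw [h1]
  have h2 : HasDerivAt (fun z => (z - s) ^ 1 • g z) (g s) s := by
    have h3 := ((hasDerivAt_id s).sub_const s).mul hg.differentiableAt.hasDerivAt
    have e : (1:ℂ) * g s + (id s - s) * deriv g s = g s := by simp
    rw [e] at h3
    refine h3.congr_of_eventuallyEq (Filter.Eventually.of_forall fun z => ?_)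
    simp
  exact ((h2.congr_of_eventuallyEq he).deriv).symm

/-- isolated zeros give the joint law with the derivative -/
theorem law2_of_iso (c0 : ℝ) (h : IsoC) : Law2C c0 := by
  refine exactC (p := sc) (g := YD c0) (transfer (f := fun T s => pr T s.im) (g := fun _ s => YD c0 s)
    (p := sc) (fun U hU ε hε => lowG2 hU hε) fun θ hθ δ hδ => ?_)
  obtain ⟨R, K0, hR, hK0, hlead⟩ := leadG (show 0 < δ / 4 by positivity)
  have hK0' : 0 < K0 := by linarith
  filter_upwards [hlead, closeW c0 (show 0 < θ / 2 by positivity) (show 0 < δ / 4 by positivity),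
    isoC_tot h (show 0 < θ / (8 * K0) by positivity) (show 0 < δ / 4 by positivity),
    Real.tendsto_log_atTop.eventually_ge_atTop 1, eventually_ge_atTop 10, EE_pos,
    loglog_tt.eventually_ge_atTop 1] with T t1 t2 t3 t4 t5 t6 t7
  have hcov : tot T (fun s => ¬ (sc s ∧ ‖YD c0 s - pr T s.im‖ < θ)) ≤
      tot T (fun s => (¬ good R K0 (δ / 4) T s) ∨ ((¬ ‖WW c0 s - pr T s.im‖ < θ / 2) ∨
        ¬ (sc s ∧ isoC (θ / (8 * K0)) s))) := by
    refine tot_mono fun s hs hb => ?_
    by_contra hcon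
    rw [not_or, not_or, not_not, not_not, not_not] at hcon
    obtain ⟨⟨⟨g1, g2⟩, g3, g4⟩, n2, n3, n4⟩ := hcon
    refine hb ⟨n3, ?_⟩
    obtain ⟨r1, r2⟩ := Rp_iso (show 0 < θ / (8 * K0) by positivity) t5 hR t4 hs g1 g2 g3 n4
    have hsz := (mem_Zb (by linarith)).1 hs
    have hs1 : s ≠ 1 := by
      rintro rfl
      simp at g1
      linarith
    have hlead := lead_simple hs1 hsz.2.2.2.2 n3.2 (ord_ne_top (by linarith) hs)
    obtain ⟨S', hS'⟩ : ∃ S', S' = Real.sqrt (Real.log (Real.log s.im)) := ⟨_, rfl⟩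
    have hl : Real.log T ≤ Real.log s.im := Real.log_le_log (by linarith) (by linarith)
    have hS1 : 1 ≤ S' := by
      refine t7.trans ?_
      rw [hS']
      exact Real.sqrt_le_sqrt (Real.log_le_log (by linarith) hl)
    have hS0 : 0 < S' := by linarith
    have e1 : VV s = YC s + Real.sqrt 2 * (Rp s / S') := by
      unfold VV YC Gg nrm
      rw [hlead, n3.2, Real.sqrt_div' _ (by norm_num : (0:ℝ) ≤ 2), ← hS']
      push_cast
      field_simp
    have e2 : ‖YD c0 s - WW c0 s‖ ≤ θ / 4 := by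
      have e3 : YD c0 s - WW c0 s = ((-(Real.sqrt 2 * (Rp s / S')) : ℝ) : ℂ) := by
        apply Complex.ext
        · rw [Complex.sub_re, Complex.ofReal_re]
          show YC s - VV s = _
          rw [e1]
          ring
        · rw [Complex.sub_im, Complex.ofReal_im]
          show dsp c0 s.im - dsp c0 s.im = 0
          ring
      rw [e3, Complex.norm_real, Real.norm_eq_abs, abs_neg, abs_of_nonneg (by positivity)]
      have h7 : Rp s / S' ≤ θ / 8 := by
        rw [div_le_iff₀ hS0]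
        refine r2.trans (le_of_eq ?_)
        rw [← hS']
        field_simp
      calc Real.sqrt 2 * (Rp s / S') ≤ 2 * (θ / 8) := mul_le_mul sq2 h7 (by positivity) (by norm_num)
        _ = θ / 4 := by ring
    have e4 : YD c0 s - pr T s.im = (YD c0 s - WW c0 s) + (WW c0 s - pr T s.im) := by ring
    rw [e4]
    refine (norm_add_le _ _).trans_lt ?_
    linarith
  have h1 := hcov.trans ((tot_or _ _).trans (add_le_add le_rfl (tot_or _ _)))
  have h2 : 0 < δ * EE T := by positivity
  linarith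

/-- the marginal of the Gaussian law -/
lemma map_re : (stdGaussian ℂ).map Complex.re = gaussianReal 0 1 := by
  have hm : Measurable Complex.re := Complex.measurable_re
  have : IsProbabilityMeasure ((stdGaussian ℂ).map Complex.re) := Measure.isProbabilityMeasure_map hm.aemeasurable
  refine Measure.ext_of_charFun ?_
  funext t
  rw [charFun_apply, integral_map hm.aemeasurable (by
    refine (Continuous.measurable ?_).aestronglyMeasurable
    fun_prop), charFun_gaussianReal]
  have h1 := charFun_stdGaussian (E := ℂ) (t : ℂ)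
  rw [charFun_apply] at h1
  have e : (fun x : ℂ => cexp (((inner ℝ x.re t : ℝ) : ℂ) * I)) =
      fun x : ℂ => cexp (((inner ℝ x (t : ℂ) : ℝ) : ℂ) * I) := by
    funext x
    congr 3
    rw [Complex.inner]
    simp
  rw [e, h1]
  congr 1
  rw [Complex.norm_real, Real.norm_eq_abs]
  have : ((|t| : ℝ) : ℂ) ^ 2 = (t : ℂ) ^ 2 := by
    rw [← Complex.ofReal_pow, sq_abs, Complex.ofReal_pow]
  rw [this]
  simp
  ring

lemma gs_strip {a b : ℝ} (hab : a < b) : gs {z : ℂ | a < z.re ∧ z.re < b} = nm a b := by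
  rw [← Gm01_eq hab]
  unfold gs Pool.Agent.Y745.SW.Gm01
  rw [← map_re, measureReal_def, measureReal_def, Measure.map_apply Complex.measurable_re measurableSet_Ioo]
  rfl

lemma frontier_strip (a b : ℝ) : stdGaussian ℂ (frontier {z : ℂ | a < z.re ∧ z.re < b}) = 0 := by
  have h1 : frontier {z : ℂ | a < z.re ∧ z.re < b} ⊆ Complex.re ⁻¹' {a, b} := by
    have h2 : {z : ℂ | a < z.re ∧ z.re < b} = Complex.re ⁻¹' (Set.Ioo a b) := rfl
    rw [h2]
    refine (Complex.continuous_re.frontier_preimage_subset _).trans (Set.preimage_mono ?_)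
    rcases lt_or_ge a b with h | h
    · rw [frontier_Ioo h]
    · rw [Set.Ioo_eq_empty (not_lt.2 h), frontier_empty]
      exact Set.empty_subset _
  refine measure_mono_null h1 ?_
  rw [← Measure.map_apply Complex.measurable_re (by simp), map_re]
  have := nullSingletonClass_gaussianReal (μ := 0) (v := 1) one_ne_zero
  exact (Set.toFinite _).measure_zero _

/-- **the criterion** -/
theorem criterion2 (c0 : ℝ) : [LawC, Law2C c0, IsoC].TFAE := by
  tfae_have 1 → 3 := criterion.1
  tfae_have 3 → 2 := law2_of_iso c0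
  tfae_have 2 → 1 := by
    intro h a b hab ε hε
    filter_upwards [h _ (frontier_strip a b) ε hε] with X hX
    rw [gs_strip hab] at hX
    exact hX
  tfae_finish

end

end Pool.Agent.K4H6.GL
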