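import Pool.Agent.K4H6.GL.TwoG
import Pool.Agent.K4H6.GL.Four

set_option autoImplicit false

/-! The Gaussian law of the leading coefficient at all zeros, with the contribution of the close zeros. -/

namespace Pool.Agent.K4H6.GL

open Filter Topology MeasureTheory Metric H370
open Pool.Agent.Y745.SW (Px nrm)

noncomputable section

/-- the other nontrivial zeros near `s` -/
def near (s : ℂ) : Set ℂ :=
  {w : ℂ | riemannZeta w = 0 ∧ 0 < w.re ∧ w.re < 1 ∧ w ≠ s ∧ ‖w - s‖ ≤ 1 / Real.log s.im}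

/-- the contribution of the other zeros near `s` -/
def Rp (s : ℂ) : ℝ := ∑ᶠ w ∈ near s, (mult riemannZeta w : ℝ) * Real.log (1 / (‖w - s‖ * Real.log s.im))

/-- the logarithm of the leading coefficient with the contribution of the other zeros near `s` -/
def Gg (s : ℂ) : ℝ := Real.log ‖meromorphicTrailingCoeffAt riemannZeta s‖ -
  (mult riemannZeta s : ℝ) * Real.log (Real.log s.im) + Rp s

/-- its normalisation -/
def VV (s : ℂ) : ℝ := Gg s / Real.sqrt (Real.log (Real.log s.im) / 2)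

open Classical in
lemma near_eq {R T : ℝ} (hT : 10 ≤ T) (hR : 1 ≤ R) (hL : 1 ≤ Real.log T) {s : ℂ} (hs1 : T + 5 * Real.log T < s.im)
    (hs2 : s.im ≤ 2 * T - 5 * Real.log T) :
    near s = (((nbG R T s).filter (fun w => ‖w - s‖ ≤ 1 / Real.log s.im) : Finset ℂ) : Set ℂ) := by
  have hL0 : 0 < Real.log T := by linarith
  have hl : Real.log T ≤ Real.log s.im := Real.log_le_log (by linarith) (by linarith)
  have h1 : 1 / Real.log s.im ≤ R / Real.log T := by
    rw [div_le_div_iff₀ (by linarith) hL0]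
    nlinarith
  have h2 : 1 / Real.log s.im ≤ 1 := by
    rw [div_le_one (by linarith)]; linarith
  ext w
  rw [Finset.mem_coe, Finset.mem_filter, mem_nbG, mem_Zb (by linarith)]
  constructor
  · rintro ⟨a1, a2, a3, a4, a5⟩
    have h3 := (Complex.abs_im_le_norm (w - s)).trans (a5.trans h2)
    rw [Complex.sub_im, abs_le] at h3
    exact ⟨⟨⟨a2, a3, by linarith [h3.1], by linarith [h3.2], a1⟩, a4, a5.trans h1⟩, a5⟩
  · rintro ⟨⟨⟨a1, a2, a3, a4, a5⟩, a6, a7⟩, a8⟩
    exact ⟨a5, a1, a2, a6, a8⟩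

open Classical in
/-- comparison of the two forms of the contribution of the close zeros -/
lemma QQ_cmp {R K0 T : ℝ} (hT : 10 ≤ T) (hR : 1 ≤ R) (hL : 1 ≤ Real.log T) {s : ℂ} (hs : s ∈ Zb T)
    (hs1 : T + 5 * Real.log T < s.im) (hs2 : s.im ≤ 2 * T - 5 * Real.log T) (hnr : nrA (6 * R) T s ≤ K0) :
    |QQ R T s - Gg s| ≤ K0 * Real.log (4 * R) := by
  have hL0 : 0 < Real.log T := by linarith
  have hT0 : 0 < T := by linarith
  have hR0 : 0 < R := by linarith
  obtain ⟨L, hLd⟩ : ∃ L, L = Real.log T := ⟨_, rfl⟩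
  obtain ⟨l, hl⟩ : ∃ l, l = Real.log s.im := ⟨_, rfl⟩
  have hl1 : L ≤ l := by rw [hLd, hl]; exact Real.log_le_log hT0 (by linarith)
  have hl2 : l ≤ 2 * L := by
    have h1 : l ≤ Real.log (2 * T) := by rw [hl]; exact Real.log_le_log (by linarith) (by linarith)
    rw [Real.log_mul (by norm_num) hT0.ne', ← hLd] at h1
    have := Real.log_two_lt_d9
    linarith
  rw [← hLd] at hL hL0
  have hl0 : 0 < l := by linarith
  have hlR : Real.log (2 * (R / L)) + Real.log l = Real.log (2 * (R / L) * l) := by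
    rw [Real.log_mul (by positivity) hl0.ne']
  have hb1 : 1 ≤ 2 * (R / L) * l := by
    have h1 : 1 ≤ R / L * l := by
      rw [div_mul_eq_mul_div, le_div_iff₀ hL0]
      nlinarith
    linarith
  have hb2 : 2 * (R / L) * l ≤ 4 * R := by
    have h1 : R / L * l ≤ R * 2 := by
      rw [div_mul_eq_mul_div, div_le_iff₀ hL0]
      nlinarith
    linarith
  have hc1 : 0 ≤ Real.log (2 * (R / L) * l) := Real.log_nonneg hb1
  have hc2 : Real.log (2 * (R / L) * l) ≤ Real.log (4 * R) := Real.log_le_log (by linarith) hb2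
  have h4R : 0 ≤ Real.log (4 * R) := hc1.trans hc2
  have hRp : Rp s = ∑ w ∈ nbG R T s, (mult riemannZeta w : ℝ) *
      (if ‖w - s‖ ≤ 1 / l then Real.log (1 / (‖w - s‖ * l)) else 0) := by
    unfold Rp
    rw [near_eq hT hR (by rw [← hLd]; exact hL) hs1 hs2, finsum_mem_coe_finset, Finset.sum_filter, ← hl]
    refine Finset.sum_congr rfl fun w _ => ?_
    split_ifs <;> simp
  have hkey : QQ R T s - Gg s = (mult riemannZeta s : ℝ) * Real.log (2 * (R / L) * l) +
      ∑ w ∈ nbG R T s, (mult riemannZeta w : ℝ) * (Real.log (2 * (R / L) / ‖s - w‖) -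
        (if ‖w - s‖ ≤ 1 / l then Real.log (1 / (‖w - s‖ * l)) else 0)) := by
    unfold QQ Gg
    rw [hRp, ← hlR, ← hl, ← hLd]
    simp_rw [mul_sub]
    rw [Finset.sum_sub_distrib]
    ring
  have hterm : ∀ w ∈ nbG R T s, 0 ≤ Real.log (2 * (R / L) / ‖s - w‖) -
        (if ‖w - s‖ ≤ 1 / l then Real.log (1 / (‖w - s‖ * l)) else 0) ∧
      Real.log (2 * (R / L) / ‖s - w‖) -
        (if ‖w - s‖ ≤ 1 / l then Real.log (1 / (‖w - s‖ * l)) else 0) ≤ Real.log (4 * R) := by
    intro w hw
    obtain ⟨-, h2, h3⟩ := mem_nbG.1 hw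
    rw [← hLd] at h3
    have h4 : 0 < ‖w - s‖ := norm_pos_iff.2 (sub_ne_zero.2 h2)
    rw [norm_sub_rev s w]
    obtain ⟨x, hx⟩ : ∃ x, x = ‖w - s‖ := ⟨_, rfl⟩
    rw [← hx] at h3 h4 ⊢
    split_ifs with h5
    · have e : Real.log (2 * (R / L) / x) - Real.log (1 / (x * l)) = Real.log (2 * (R / L) * l) := by
        rw [← Real.log_div (by positivity) (by positivity)]
        congr 1
        field_simp
      rw [e]
      exact ⟨hc1, hc2⟩
    · rw [sub_zero]
      push Not at h5
      constructor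
      · refine Real.log_nonneg ?_
        rw [le_div_iff₀ h4]
        linarith
      · refine le_trans (Real.log_le_log (by positivity) ?_) hc2
        rw [div_le_iff₀ h4]
        rw [div_lt_iff₀ hl0] at h5
        have : 0 < 2 * (R / L) := by positivity
        nlinarith
  have hsum0 : 0 ≤ ∑ w ∈ nbG R T s, (mult riemannZeta w : ℝ) * (Real.log (2 * (R / L) / ‖s - w‖) -
        (if ‖w - s‖ ≤ 1 / l then Real.log (1 / (‖w - s‖ * l)) else 0)) :=
    Finset.sum_nonneg fun w hw => mul_nonneg (Nat.cast_nonneg _) (hterm w hw).1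
  have hsum1 : ∑ w ∈ nbG R T s, (mult riemannZeta w : ℝ) * (Real.log (2 * (R / L) / ‖s - w‖) -
        (if ‖w - s‖ ≤ 1 / l then Real.log (1 / (‖w - s‖ * l)) else 0)) ≤
        (∑ w ∈ nbG R T s, (mult riemannZeta w : ℝ)) * Real.log (4 * R) := by
    rw [Finset.sum_mul]
    exact Finset.sum_le_sum fun w hw => mul_le_mul_of_nonneg_left (hterm w hw).2 (Nat.cast_nonneg _)
  have hm0 : (0:ℝ) ≤ mult riemannZeta s := Nat.cast_nonneg _
  have hn := (nbG_le hR0 (by rw [← hLd]; exact hL0) hs).trans hnr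
  have h1 := mul_le_mul_of_nonneg_left hc2 hm0
  have h2 := mul_nonneg hm0 hc1
  have h3 := mul_le_mul_of_nonneg_right hn h4R
  rw [hkey, abs_of_nonneg (by linarith)]
  linarith

/-- at almost all zeros the normalised quantity is close to the prime sum -/
theorem closeV {θ δ : ℝ} (hθ : 0 < θ) (hδ : 0 < δ) : ∀ᶠ T : ℝ in atTop,
    tot T (fun s => ¬ |VV s - XX T s.im| ≤ θ) ≤ δ * EE T := by
  obtain ⟨ε, hε⟩ : ∃ ε, ε = min (θ / 8) (δ / 2) := ⟨_, rfl⟩
  have hε0 : 0 < ε := by rw [hε]; positivity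
  have hε1 : ε ≤ θ / 8 := by rw [hε]; exact min_le_left _ _
  have hε2 : ε ≤ δ / 2 := by rw [hε]; exact min_le_right _ _
  obtain ⟨R, K0, hR, hK0, hlead⟩ := leadG hε0
  obtain ⟨M, hM1, hM⟩ := bigG (show 0 < δ / 2 by positivity)
  filter_upwards [hlead, hM M le_rfl, loglog_tt.eventually_ge_atTop (max 1 (max (4 * M / θ) (K0 * Real.log (4 * R) / ε))),
    Real.tendsto_log_atTop.eventually_ge_atTop 1, eventually_ge_atTop 10, EE_pos] with T h1 h2 h3 h4 h5 h6
  have hS1 : 1 ≤ Real.sqrt (Real.log (Real.log T)) := (le_max_left _ _).trans h3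
  have hS2 : 4 * M / θ ≤ Real.sqrt (Real.log (Real.log T)) := (le_max_left _ _).trans ((le_max_right _ _).trans h3)
  have hS3 : K0 * Real.log (4 * R) / ε ≤ Real.sqrt (Real.log (Real.log T)) :=
    (le_max_right _ _).trans ((le_max_right _ _).trans h3)
  obtain ⟨S, hS⟩ : ∃ S, S = Real.sqrt (Real.log (Real.log T)) := ⟨_, rfl⟩
  rw [← hS] at hS1 hS2 hS3
  have hS0 : 0 < S := by linarith
  have hT0 : 0 < T := by linarith
  have hcov : tot T (fun s => ¬ |VV s - XX T s.im| ≤ θ) ≤
      tot T (fun s => (¬ good R K0 ε T s) ∨ M ≤ |XX T s.im|) := by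
    refine tot_mono fun s hs hb => ?_
    by_contra hcon
    rw [not_or, not_not, not_le] at hcon
    obtain ⟨⟨⟨g1, g2⟩, g3, g4⟩, n2⟩ := hcon
    refine hb ?_
    have hc := QQ_cmp h5 hR h4 hs g1 g2 g3
    rw [← hS] at g4
    -- the height
    obtain ⟨S', hS'⟩ : ∃ S', S' = Real.sqrt (Real.log (Real.log s.im)) := ⟨_, rfl⟩
    have hL0 : 0 < Real.log T := by linarith
    have hl1 : Real.log T ≤ Real.log s.im := Real.log_le_log hT0 (by linarith)
    have hl2 : Real.log s.im ≤ 2 * Real.log T := by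
      have h7 := Real.log_le_log (by linarith) (show s.im ≤ 2 * T by linarith)
      rw [Real.log_mul (by norm_num) hT0.ne'] at h7
      have := Real.log_two_lt_d9
      linarith
    have hll1 : Real.log (Real.log T) ≤ Real.log (Real.log s.im) := Real.log_le_log hL0 hl1
    have hll2 : Real.log (Real.log s.im) ≤ Real.log (Real.log T) + 1 := by
      have h7 := Real.log_le_log (by linarith) hl2
      rw [Real.log_mul (by norm_num) hL0.ne'] at h7
      have := Real.log_two_lt_d9
      linarith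
    have hll0 : 1 ≤ Real.log (Real.log T) := by rwa [hS, Real.one_le_sqrt] at hS1
    have hSS : S ≤ S' := by rw [hS, hS']; exact Real.sqrt_le_sqrt hll1
    have hsq : S ^ 2 = Real.log (Real.log T) := by rw [hS]; exact Real.sq_sqrt (by linarith)
    have hsq' : S' ^ 2 = Real.log (Real.log s.im) := by rw [hS']; exact Real.sq_sqrt (by linarith)
    have hS0' : 0 < S' := by linarith
    have hdiff : (S' - S) * S ≤ 1 := by nlinarith
    have hVV : VV s = Real.sqrt 2 * (Gg s / S') := by
      unfold VV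
      rw [Real.sqrt_div' _ (by norm_num : (0:ℝ) ≤ 2), ← hS', div_div_eq_mul_div]
      ring
    have hXX : XX T s.im = Real.sqrt 2 * ((Px T s.im).re / S) := by
      unfold XX
      rw [← hS]
    have hs20 := Real.sqrt_nonneg 2
    have hG : |Gg s - (Px T s.im).re| ≤ 2 * ε * S := by
      have e : Gg s - (Px T s.im).re = -(QQ R T s - Gg s) + (QQ R T s - (Px T s.im).re) := by ring
      rw [e]
      refine (abs_add_le _ _).trans ?_
      rw [abs_neg]
      rw [div_le_iff₀ hε0] at hS3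
      linarith
    have e1 : VV s - XX T s.im = Real.sqrt 2 * ((Gg s - (Px T s.im).re) / S') - XX T s.im * ((S' - S) / S') := by
      rw [hVV, hXX]
      field_simp
      ring
    have e2 : |Real.sqrt 2 * ((Gg s - (Px T s.im).re) / S')| ≤ 4 * ε := by
      rw [abs_mul, abs_of_nonneg hs20, abs_div, abs_of_pos hS0']
      have h7 : |Gg s - (Px T s.im).re| / S' ≤ 2 * ε := by
        rw [div_le_iff₀ hS0']
        refine hG.trans (mul_le_mul_of_nonneg_left hSS (by positivity))
      calc Real.sqrt 2 * (|Gg s - (Px T s.im).re| / S') ≤ 2 * (2 * ε) :=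
            mul_le_mul sq2 h7 (by positivity) (by norm_num)
        _ = _ := by ring
    have e3 : |XX T s.im * ((S' - S) / S')| ≤ θ / 4 := by
      have h7 : 0 ≤ (S' - S) / S' := div_nonneg (by linarith) hS0'.le
      rw [abs_mul, abs_of_nonneg h7]
      have h8 : (S' - S) / S' ≤ 1 / S := by
        rw [div_le_div_iff₀ hS0' hS0]
        nlinarith
      have h9 : M * (1 / S) ≤ θ / 4 := by
        rw [div_le_iff₀ hθ] at hS2
        rw [mul_one_div, div_le_iff₀ hS0]
        linarith
      exact (mul_le_mul n2.le h8 h7 (by linarith)).trans h9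
    rw [e1]
    refine (abs_sub _ _).trans ?_
    linarith
  refine hcov.trans ((tot_or _ _).trans ?_)
  have h7 : ε * EE T ≤ δ / 2 * EE T := mul_le_mul_of_nonneg_right hε2 h6.le
  linarith

/-- the law in a block -/
theorem lawVB {a b : ℝ} (hab : a < b) {ε : ℝ} (hε : 0 < ε) : ∀ᶠ T : ℝ in atTop,
    |tot T (fun s => a < VV s ∧ VV s < b) - nm a b * EE T| ≤ ε * EE T := by
  obtain ⟨θ, hθ⟩ : ∃ θ, θ = min (ε / 16) ((b - a) / 4) := ⟨_, rfl⟩
  have hθ0 : 0 < θ := by rw [hθ]; exact lt_min (by positivity) (by linarith)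
  have hθ1 : θ ≤ ε / 16 := by rw [hθ]; exact min_le_left _ _
  have hθ2 : θ ≤ (b - a) / 4 := by rw [hθ]; exact min_le_right _ _
  filter_upwards [closeV (show 0 < θ / 2 by positivity) (show 0 < ε / 4 by positivity),
    lowG' (show a + θ < b - θ by linarith) (show 0 < ε / 4 by positivity),
    upG (show a - θ ≤ b + θ by linarith) (show 0 < ε / 4 by positivity), EE_pos] with T t1 t3 t4 tE
  have hlow : tot T (fun s => a + θ < XX T s.im ∧ XX T s.im < b - θ) ≤
      tot T (fun s => a < VV s ∧ VV s < b) + ε / 4 * EE T := by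
    have h1 : tot T (fun s => a + θ < XX T s.im ∧ XX T s.im < b - θ) ≤
        tot T (fun s => (a < VV s ∧ VV s < b) ∨ ¬ |VV s - XX T s.im| ≤ θ / 2) := by
      refine tot_mono fun s hs hb => ?_
      by_cases h1 : |VV s - XX T s.im| ≤ θ / 2
      · left
        have h3 := abs_le.1 h1
        exact ⟨by linarith [h3.1, hb.1], by linarith [h3.2, hb.2]⟩
      · exact Or.inr h1
    have h2 := h1.trans (tot_or _ _)
    linarith
  have hupp : tot T (fun s => a < VV s ∧ VV s < b) ≤
      tot T (fun s => a - θ ≤ XX T s.im ∧ XX T s.im ≤ b + θ) + ε / 4 * EE T := by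
    have h1 : tot T (fun s => a < VV s ∧ VV s < b) ≤
        tot T (fun s => (a - θ ≤ XX T s.im ∧ XX T s.im ≤ b + θ) ∨ ¬ |VV s - XX T s.im| ≤ θ / 2) := by
      refine tot_mono fun s hs hb => ?_
      by_cases h1 : |VV s - XX T s.im| ≤ θ / 2
      · left
        have h3 := abs_le.1 h1
        exact ⟨by linarith [h3.2, hb.1], by linarith [h3.1, hb.2]⟩
      · exact Or.inr h1
    have h2 := h1.trans (tot_or _ _)
    linarith
  have n1 := nm_le_len (a := a) (b := a + θ) (by linarith)
  have n2 := nm_le_len (a := b - θ) (b := b) (by linarith)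
  have n3 := nm_add a (a + θ) (b - θ)
  have n4 := nm_add a (b - θ) b
  have n5 := nm_le_len (a := a - θ) (b := a) (by linarith)
  have n6 := nm_le_len (a := b) (b := b + θ) (by linarith)
  have n7 := nm_add (a - θ) a b
  have n8 := nm_add (a - θ) b (b + θ)
  have h5 : (nm a b - ε / 8) * EE T ≤ nm (a + θ) (b - θ) * EE T := mul_le_mul_of_nonneg_right (by linarith) tE.le
  have h6 : nm (a - θ) (b + θ) * EE T ≤ (nm a b + ε / 8) * EE T := mul_le_mul_of_nonneg_right (by linarith) tE.le
  have h7 : 0 < ε * EE T := by positivity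
  rw [abs_le]
  constructor <;> linarith

/-- **the law at all zeros** -/
theorem lawV (a b : ℝ) (hab : a < b) : ∀ ε : ℝ, 0 < ε → ∀ᶠ X : ℝ in atTop,
    |cum (fun s => a < VV s ∧ VV s < b) X - nm a b * cum (fun _ => True) X| ≤ ε * cum (fun _ => True) X :=
  (asy_N _ (nm_nonneg' hab)).2 fun _ hε => lawVB hab hε

end

end Pool.Agent.K4H6.GL
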