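import Pool.Agent.K4H6.GL.Eq
import Pool.Agent.H965R2.SI.CountShort

set_option autoImplicit false

/-! The normal law; counting the zeros near the ends of a block. -/

namespace Pool.Agent.K4H6.GL

open Filter Topology MeasureTheory Complex H370 Pool.Agent.K4H6.Win Pool.Agent.K4H6.Qn Pool.Agent.K4H6.Cov
open Pool.Agent.Y745.SW (Gm01 SB Px nrm)

noncomputable section

/-- the density of the standard normal law -/
def phi0 (x : ℝ) : ℝ := Real.exp (-x ^ 2 / 2) / Real.sqrt (2 * Real.pi)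

lemma phi0_cont : Continuous phi0 := by unfold phi0; fun_prop

lemma phi0_nonneg (x : ℝ) : 0 ≤ phi0 x := by unfold phi0; positivity

lemma phi0_le (x : ℝ) : phi0 x ≤ 1 := by
  unfold phi0
  have hpi := Real.pi_gt_three
  have h1 : 1 ≤ Real.sqrt (2 * Real.pi) := by
    rw [Real.one_le_sqrt]; linarith
  rw [div_le_one (by linarith)]
  refine le_trans ?_ h1
  rw [Real.exp_le_one_iff]
  nlinarith [sq_nonneg x]

/-- the normal mass of an interval -/
def nm (a b : ℝ) : ℝ := ∫ x in a..b, phi0 x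

lemma phi0_ii (a b : ℝ) : IntervalIntegrable phi0 volume a b := phi0_cont.intervalIntegrable _ _

lemma nm_add (a b c : ℝ) : nm a b + nm b c = nm a c :=
  intervalIntegral.integral_add_adjacent_intervals (phi0_ii _ _) (phi0_ii _ _)

lemma nm_nonneg {a b : ℝ} (h : a ≤ b) : 0 ≤ nm a b :=
  intervalIntegral.integral_nonneg h fun x _ => phi0_nonneg x

lemma nm_le_len {a b : ℝ} (h : a ≤ b) : nm a b ≤ b - a := by
  have h1 : nm a b ≤ ∫ _ in a..b, (1:ℝ) :=
    intervalIntegral.integral_mono_on h (phi0_ii _ _) intervalIntegrable_const fun x _ => phi0_le x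
  simpa using h1

lemma Gm01_eq {a b : ℝ} (hab : a < b) : Gm01 a b = nm a b := by
  unfold Gm01 nm phi0
  rw [MeasureTheory.measureReal_def, ProbabilityTheory.gaussianReal_apply_eq_integral _ one_ne_zero,
    ENNReal.toReal_ofReal (MeasureTheory.integral_nonneg fun x => ProbabilityTheory.gaussianPDFReal_nonneg _ _ _),
    intervalIntegral.integral_of_le hab.le, MeasureTheory.integral_Ioc_eq_integral_Ioo]
  refine MeasureTheory.integral_congr_ae (Filter.Eventually.of_forall fun x => ?_)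
  simp only [ProbabilityTheory.gaussianPDFReal, NNReal.coe_one, mul_one, sub_zero]
  rw [div_eq_inv_mul (Real.exp _)]

lemma nm_le_one {a b : ℝ} (hab : a ≤ b) : nm a b ≤ 1 := by
  rcases hab.eq_or_lt with h | h
  · rw [h]; unfold nm; simp
  · rw [← Gm01_eq h]; exact Pool.Agent.Y745.SW.Gm01_le a b

lemma phi0_integrable : Integrable phi0 := by
  have h1 : Integrable (fun x : ℝ => Real.exp (-(1/2) * x ^ 2)) := integrable_exp_neg_mul_sq (by norm_num)
  have h2 := h1.div_const (Real.sqrt (2 * Real.pi))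
  refine h2.congr (Filter.Eventually.of_forall fun x => ?_)
  unfold phi0
  beta_reduce
  congr 2
  ring

lemma phi0_total : ∫ x, phi0 x = 1 := by
  have h1 := integral_gaussian (1/2)
  have e : (fun x : ℝ => phi0 x) = fun x : ℝ => (Real.sqrt (2 * Real.pi))⁻¹ * Real.exp (-(1/2) * x ^ 2) := by
    ext x
    unfold phi0
    rw [div_eq_inv_mul]
    congr 2
    ring
  rw [e, integral_const_mul, h1]
  have : Real.pi / (1/2) = 2 * Real.pi := by ring
  rw [this, inv_mul_cancel₀]
  have := Real.pi_pos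
  positivity

/-- the upper tail of the normal law -/
def tail (a : ℝ) : ℝ := ∫ x in Set.Ioi a, phi0 x

lemma tail_nonneg (a : ℝ) : 0 ≤ tail a := integral_nonneg fun x => phi0_nonneg x

/-- almost all the mass is in a compact interval -/
lemma nm_large {ε : ℝ} (hε : 0 < ε) : ∃ M : ℝ, 1 ≤ M ∧ ∀ M' : ℝ, M ≤ M' → 1 - ε ≤ nm (-M') M' := by
  have h1 := intervalIntegral_tendsto_integral phi0_integrable tendsto_neg_atTop_atBot tendsto_id
  rw [phi0_total] at h1
  have h2 := h1.eventually_const_le (show 1 - ε < 1 by linarith)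
  obtain ⟨M, hM⟩ := Filter.eventually_atTop.1 h2
  exact ⟨max M 1, le_max_right _ _, fun M' hM' => hM M' ((le_max_left _ _).trans hM')⟩

lemma tail_large {ε : ℝ} (hε : 0 < ε) (a : ℝ) : ∃ M : ℝ, |a| + 1 ≤ M ∧ ∀ M' : ℝ, M ≤ M' →
    1 - tail a - ε ≤ nm (-M') a ∧ tail a - ε ≤ nm a M' := by
  have h1 := intervalIntegral_tendsto_integral_Ioi (f := phi0) (μ := volume) a phi0_integrable.integrableOn tendsto_id
  have h2 := intervalIntegral_tendsto_integral_Iic (f := phi0) (μ := volume) a phi0_integrable.integrableOn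
    tendsto_neg_atTop_atBot
  have h3 : (∫ x in Set.Iic a, phi0 x) = 1 - tail a := by
    unfold tail
    rw [← phi0_total, ← integral_add_compl (measurableSet_Iic (a := a)) phi0_integrable, Set.compl_Iic]
    ring
  rw [h3] at h2
  have h4 := h1.eventually_const_le (show tail a - ε < ∫ x in Set.Ioi a, phi0 x by
    change tail a - ε < tail a; linarith)
  have h5 := h2.eventually_const_le (show 1 - tail a - ε < 1 - tail a by linarith)
  obtain ⟨M, hM⟩ := Filter.eventually_atTop.1 (h4.and h5)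
  refine ⟨max M (|a| + 1), le_max_right _ _, fun M' hM' => ?_⟩
  obtain ⟨h6, h7⟩ := hM M' ((le_max_left _ _).trans hM')
  exact ⟨h7, h6⟩

/-- a crude bound for the number of zeros in an interval -/
lemma crude : ∃ C : ℝ, 0 < C ∧ ∀ T : ℝ, 10 ≤ T → ∀ t H : ℝ, T ≤ t → 0 < H → t + H ≤ 2 * T →
    (NN riemannZeta t (t + H) : ℝ) ≤ C * (H + 1) * (Real.log T) ^ 2 := by
  obtain ⟨C, hC, h⟩ := H965SI.countShort riemannZeta H370.good_zeta
  refine ⟨6 + 24 * C, by positivity, fun T hT t H h1 hH h2 => ?_⟩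
  have hHm : max H 3 ≤ t := max_le (by linarith) (by linarith)
  have h3 := h t (by linarith) (max H 3) (le_max_right _ _) hHm (t + 1) (t + max H 3 - 1) (by linarith) le_rfl le_rfl
    (by linarith)
  have hmono : H370.NN riemannZeta t (t + H) ≤ H370.NN riemannZeta t (t + max H 3) :=
    H370.NN_mono H370.good_zeta (by linarith) le_rfl (by linarith [le_max_left H 3])
  have hmono' : (H370.NN riemannZeta t (t + H) : ℝ) ≤ H370.NN riemannZeta t (t + max H 3) := by
    exact_mod_cast hmono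
  have h4 := (abs_le.1 h3.1).2
  have h5 := h3.2
  have hL1 : 1 ≤ Real.log T := by
    rw [Real.le_log_iff_exp_le (by linarith)]
    have := Real.exp_one_lt_d9
    linarith
  have hlt : Real.log t ≤ 2 * Real.log T := by
    have h6 : Real.log t ≤ Real.log (T ^ 2) := Real.log_le_log (by linarith) (by nlinarith)
    rwa [Real.log_pow, Nat.cast_ofNat] at h6
  have hlt0 : 0 ≤ Real.log t := Real.log_nonneg (by linarith)
  have hm3 : max H 3 ≤ 3 * (H + 1) := max_le (by linarith) (by linarith)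
  have hm0 : 0 < max H 3 := lt_of_lt_of_le (by norm_num) (le_max_right _ _)
  obtain ⟨L, hL⟩ : ∃ L, L = Real.log T := ⟨_, rfl⟩
  obtain ⟨l, hl⟩ : ∃ l, l = Real.log t := ⟨_, rfl⟩
  obtain ⟨M, hM⟩ : ∃ M, M = max H 3 := ⟨_, rfl⟩
  rw [← hL] at hL1 hlt ⊢
  rw [← hl] at hlt hlt0 h4 h5
  rw [← hM] at hm3 hm0 h4 h5 hmono'
  have hLL : L ≤ L ^ 2 := by nlinarith
  have hl2 : l ^ 2 ≤ 4 * L ^ 2 := by
    have : l ^ 2 ≤ (2 * L) ^ 2 := pow_le_pow_left₀ hlt0 hlt 2
    linarith
  have hpi := Real.pi_gt_three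
  have k1 : M * l / (2 * Real.pi) ≤ 6 * (H + 1) * L ^ 2 := by
    rw [div_le_iff₀ (by positivity)]
    have k2 : M * l ≤ 3 * (H + 1) * (2 * L) := mul_le_mul hm3 hlt hlt0 (by positivity)
    have k3 : 3 * (H + 1) * (2 * L) ≤ 6 * (H + 1) * L ^ 2 := by nlinarith
    have k4 : 0 ≤ 6 * (H + 1) * L ^ 2 := by positivity
    nlinarith
  have k2 : C * (M + l ^ 2) ≤ 7 * C * ((H + 1) * L ^ 2) := by
    have k3 : M + l ^ 2 ≤ 7 * ((H + 1) * L ^ 2) := by
      have k4 : 3 * (H + 1) ≤ 3 * ((H + 1) * L ^ 2) := by nlinarith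
      have k5 : 4 * L ^ 2 ≤ 4 * ((H + 1) * L ^ 2) := by nlinarith [sq_nonneg L]
      linarith
    calc C * (M + l ^ 2) ≤ C * (7 * ((H + 1) * L ^ 2)) := mul_le_mul_of_nonneg_left k3 hC.le
      _ = _ := by ring
  have k3 : C * l ≤ 2 * C * ((H + 1) * L ^ 2) := by
    have k4 : l ≤ 2 * ((H + 1) * L ^ 2) := by
      have : L ^ 2 ≤ (H + 1) * L ^ 2 := by nlinarith [sq_nonneg L]
      linarith
    calc C * l ≤ C * (2 * ((H + 1) * L ^ 2)) := mul_le_mul_of_nonneg_left k4 hC.le
      _ = _ := by ring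
  have k4 : 0 ≤ C * ((H + 1) * L ^ 2) := by positivity
  linarith

/-- the zeros of the block -/
abbrev Zb (T : ℝ) : Finset ℂ := Zf riemannZeta T (2 * T)

lemma mem_Zb {T : ℝ} (hT : 1 ≤ T) {s : ℂ} : s ∈ Zb T ↔ s ∈ zset riemannZeta T (2 * T) := mem_Zf good_zeta hT

/-- powers of the logarithm are small -/
lemma log_small (c : ℝ) (k : ℕ) {ε : ℝ} (hε : 0 < ε) : ∀ᶠ T : ℝ in atTop, c * Real.log T ^ k ≤ ε * T := by
  have h1 := (Real.isLittleO_pow_log_id_atTop (n := k)).def (c := ε / (|c| + 1)) (by positivity)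
  filter_upwards [h1, eventually_ge_atTop 1] with T hT hT1
  rw [Real.norm_eq_abs, Real.norm_eq_abs, id, abs_of_pos (by linarith : 0 < T)] at hT
  have h2 : c * Real.log T ^ k ≤ (|c| + 1) * |Real.log T ^ k| := by
    have h3 : c * Real.log T ^ k ≤ |c| * |Real.log T ^ k| := by
      rw [← abs_mul]; exact le_abs_self _
    have := abs_nonneg (Real.log T ^ k)
    linarith
  refine h2.trans ?_
  calc (|c| + 1) * |Real.log T ^ k| ≤ (|c| + 1) * (ε / (|c| + 1) * T) :=
        mul_le_mul_of_nonneg_left hT (by positivity)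
    _ = ε * T := by
        have : |c| + 1 ≠ 0 := by positivity
        field_simp

/-- the zeros near the ends of the block -/
lemma ends {A ε : ℝ} (hA : 1 ≤ A) (hε : 0 < ε) : ∀ᶠ T : ℝ in atTop,
    ∑ s ∈ (Zb T).filter (fun s => ¬ (T + A * Real.log T < s.im ∧ s.im ≤ 2 * T - A * Real.log T)),
      (mult riemannZeta s : ℝ) ≤ ε * (T * Real.log T) := by
  obtain ⟨C, hC, h⟩ := crude
  filter_upwards [log_small (2 * (C * (2 * A))) 3 hε, Real.tendsto_log_atTop.eventually_ge_atTop 1,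
    eventually_ge_atTop 10, log_small (2 * A) 1 (show (0:ℝ) < 1 by norm_num)] with T h1 hL hT h2
  have hT0 : 0 < T := by linarith
  rw [pow_one, one_mul] at h2
  set L := Real.log T with hLd
  have hL0 : 0 < L := by linarith
  have hAL : 0 < A * L := by positivity
  have e1 : ∀ U V : ℝ, 1 ≤ U → (NN riemannZeta U V : ℝ) = ∑ s ∈ Zf riemannZeta U V, (mult riemannZeta s : ℝ) := by
    intro U V hU
    unfold NN
    rw [finsum_Zf good_zeta hU]
    push_cast
    rfl
  have k1 := h T hT T (A * L) le_rfl hAL (by linarith)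
  have k2 := h T hT (2 * T - A * L) (A * L) (by linarith) hAL (by linarith)
  rw [sub_add_cancel] at k2
  rw [e1 _ _ (by linarith)] at k1 k2
  have hsub : (Zb T).filter (fun s => ¬ (T + A * L < s.im ∧ s.im ≤ 2 * T - A * L)) ⊆
      Zf riemannZeta T (T + A * L) ∪ Zf riemannZeta (2 * T - A * L) (2 * T) := by
    intro s hs
    rw [Finset.mem_filter, mem_Zb (by linarith)] at hs
    obtain ⟨⟨x1, x2, x3, x4, x5⟩, hs2⟩ := hs
    rw [Finset.mem_union, mem_Zf good_zeta (by linarith), mem_Zf good_zeta (by linarith)]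
    rw [not_and_or, not_lt, not_le] at hs2
    rcases hs2 with hs2 | hs2
    · exact Or.inl ⟨x1, x2, x3, hs2, x5⟩
    · exact Or.inr ⟨x1, x2, hs2, x4, x5⟩
  have k3 : ∑ s ∈ (Zb T).filter (fun s => ¬ (T + A * L < s.im ∧ s.im ≤ 2 * T - A * L)), (mult riemannZeta s : ℝ) ≤
      ∑ s ∈ Zf riemannZeta T (T + A * L), (mult riemannZeta s : ℝ) +
      ∑ s ∈ Zf riemannZeta (2 * T - A * L) (2 * T), (mult riemannZeta s : ℝ) := by
    refine (Finset.sum_le_sum_of_subset_of_nonneg hsub fun _ _ _ => Nat.cast_nonneg _).trans ?_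
    have := Finset.sum_union_inter (s₁ := Zf riemannZeta T (T + A * L)) (s₂ := Zf riemannZeta (2 * T - A * L) (2 * T))
      (f := fun s => (mult riemannZeta s : ℝ))
    have h5 : 0 ≤ ∑ s ∈ Zf riemannZeta T (T + A * L) ∩ Zf riemannZeta (2 * T - A * L) (2 * T),
      (mult riemannZeta s : ℝ) := Finset.sum_nonneg fun _ _ => Nat.cast_nonneg _
    linarith
  have k4 : A * L + 1 ≤ 2 * A * L := by nlinarith
  have k5 : C * (A * L + 1) * L ^ 2 ≤ C * (2 * A * L) * L ^ 2 := by gcongr
  have k6 : ε * T ≤ ε * (T * L) := by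
    refine mul_le_mul_of_nonneg_left ?_ hε.le
    nlinarith
  have e2 : 2 * (C * (2 * A)) * L ^ 3 = 2 * (C * (2 * A * L) * L ^ 2) := by ring
  rw [e2] at h1
  linarith

/-- the number of all zeros of the block -/
lemma total {ε : ℝ} (hε : 0 < ε) : ∀ᶠ T : ℝ in atTop,
    |(∑ s ∈ Zb T, (mult riemannZeta s : ℝ)) - T * Real.log T / (2 * Real.pi)| ≤ ε * (T * Real.log T) := by
  obtain ⟨C1, T1, hC1, hT1, hnn⟩ := nn_asymp good_zeta
  filter_upwards [eventually_ge_atTop T1, Real.tendsto_log_atTop.eventually_ge_atTop (C1 / ε)] with T h1 h2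
  have hT0 : 0 < T := by linarith
  have h3 := hnn T h1 T (2 * T) le_rfl (by linarith) (by linarith) le_rfl
  have e1 : (NN riemannZeta T (2 * T) : ℝ) = ∑ s ∈ Zb T, (mult riemannZeta s : ℝ) := by
    unfold NN
    rw [finsum_Zf good_zeta (by linarith)]
    push_cast
    rfl
  rw [e1] at h3
  refine h3.trans ?_
  rw [div_le_iff₀ hε] at h2
  nlinarith

end

end Pool.Agent.K4H6.GL
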