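import Mathlib

set_option autoImplicit false

/-! Upper bound for `log |f|` from the mean of `|log |f||` over a disc (no condition on the zeros). -/

namespace Pool.Agent.K4H6.GL

open MeasureTheory Filter Topology Set Metric Real

/-- the circle inequality -/
lemma circle_up {f : ℂ → ℂ} {U : Set ℂ} (hU : IsOpen U) (hf : DifferentiableOn ℂ f U) {z : ℂ} {R : ℝ} (hR : 0 < R)
    (hball : closedBall z R ⊆ U) :
    ENNReal.ofReal (2 * π * Real.log ‖f z‖) ≤
      ∫⁻ θ in Ioo (-π) π, ENNReal.ofReal |Real.log ‖f (circleMap z R θ)‖| := by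
  have hpi := Real.pi_pos
  by_cases hz : f z = 0
  · rw [hz, norm_zero, Real.log_zero, mul_zero, ENNReal.ofReal_zero]
    exact zero_le
  have ha : AnalyticOnNhd ℂ f (closedBall z |R|) := by
    rw [abs_of_pos hR]
    exact (hf.analyticOnNhd hU).mono hball
  have hj := ha.circleAverage_log_norm hR.ne' hz
  have hpos : 0 ≤ ∑ᶠ u, (MeromorphicOn.divisor f (closedBall z |R|) u : ℝ) * Real.log (R * ‖z - u‖⁻¹) := by
    refine finsum_nonneg fun u => ?_
    by_cases hu : u ∈ closedBall z |R|
    · have h1 : 0 ≤ MeromorphicOn.divisor f (closedBall z |R|) u :=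
        MeromorphicOn.AnalyticOnNhd.divisor_nonneg ha u
      refine mul_nonneg (by exact_mod_cast h1) ?_
      rw [mem_closedBall, dist_eq_norm, abs_of_pos hR] at hu
      rcases eq_or_ne u z with h | h
      · rw [h, sub_self, norm_zero, inv_zero, mul_zero, Real.log_zero]
      · refine Real.log_nonneg ?_
        have h2 : 0 < ‖z - u‖ := norm_pos_iff.2 (sub_ne_zero.2 h.symm)
        rw [norm_sub_rev] at hu
        rw [← div_eq_mul_inv, le_div_iff₀ h2]
        linarith
    · rw [Function.locallyFinsuppWithin.apply_eq_zero_of_notMem _ hu]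
      simp
  have hint : IntervalIntegrable (fun θ : ℝ => Real.log ‖f (circleMap z R θ)‖) volume 0 (2 * π) := by
    have := ha.meromorphicOn
    have h2 : MeromorphicOn f (sphere z |R|) := fun w hw => this w (sphere_subset_closedBall hw)
    exact h2.circleIntegrable_log_norm
  rw [Real.circleAverage_def, smul_eq_mul] at hj
  have hper : Function.Periodic (fun θ => |Real.log ‖f (circleMap z R θ)‖|) (2 * π) := by
    intro θ
    simp only
    rw [periodic_circleMap z R θ]
  have hshift : (∫ θ in (0:ℝ)..2 * π, |Real.log ‖f (circleMap z R θ)‖|) =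
      ∫ θ in (-π)..π, |Real.log ‖f (circleMap z R θ)‖| := by
    have := hper.intervalIntegral_add_eq 0 (-π)
    rw [zero_add] at this
    rw [this]
    congr 1
    ring
  have habs : (∫ θ in (0:ℝ)..2 * π, Real.log ‖f (circleMap z R θ)‖) ≤
      ∫ θ in (0:ℝ)..2 * π, |Real.log ‖f (circleMap z R θ)‖| :=
    intervalIntegral.integral_mono_on (by positivity) hint hint.abs fun θ _ => le_abs_self _
  have h5 : 2 * π * Real.log ‖f z‖ ≤ ∫ θ in (-π)..π, |Real.log ‖f (circleMap z R θ)‖| := by
    rw [← hshift]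
    refine le_trans ?_ habs
    have h6 : Real.log ‖f z‖ ≤ (2 * π)⁻¹ * ∫ θ in (0:ℝ)..2 * π, Real.log ‖f (circleMap z R θ)‖ := by linarith
    calc 2 * π * Real.log ‖f z‖ ≤ 2 * π * ((2 * π)⁻¹ * ∫ θ in (0:ℝ)..2 * π, Real.log ‖f (circleMap z R θ)‖) := by
          gcongr
      _ = _ := by field_simp
  have hint2 : IntervalIntegrable (fun θ => |Real.log ‖f (circleMap z R θ)‖|) volume (-π) π := by
    have h7 : IntervalIntegrable (fun θ => |Real.log ‖f (circleMap z R θ)‖|) volume 0 (0 + 2 * π) := by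
      rw [zero_add]; exact hint.abs
    exact hper.intervalIntegrable (by positivity) h7 _ _
  refine (ENNReal.ofReal_le_ofReal h5).trans (le_of_eq ?_)
  rw [intervalIntegral.integral_of_le (by linarith), integral_Ioc_eq_integral_Ioo,
    ofReal_integral_eq_lintegral_ofReal]
  · rw [intervalIntegrable_iff_integrableOn_Ioo_of_le (by linarith)] at hint2
    exact hint2
  · exact Eventually.of_forall fun t => abs_nonneg _

/-- the disc inequality -/
theorem disc_up {f : ℂ → ℂ} {U : Set ℂ} (hU : IsOpen U) (hf : DifferentiableOn ℂ f U) (hfm : Measurable f)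
    {z : ℂ} {δ : ℝ} (hδ : 0 < δ) (hball : closedBall z δ ⊆ U) :
    ENNReal.ofReal (δ ^ 2 * Real.log ‖f z‖) ≤
      ∫⁻ w in ball z δ, ENNReal.ofReal |Real.log ‖f w‖| := by
  have hpi := Real.pi_pos
  have hpi3 := Real.pi_gt_three
  set X : ℝ := Real.log ‖f z‖ with hX
  by_cases hX0 : X ≤ 0
  · rw [ENNReal.ofReal_of_nonpos (mul_nonpos_of_nonneg_of_nonpos (by positivity) hX0)]
    exact zero_le
  push Not at hX0
  set F : ℂ → ENNReal := fun z => ENNReal.ofReal |Real.log ‖f z‖| with hF
  have hFm : Measurable F := by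
    rw [hF]
    have := hfm.norm
    fun_prop
  -- polar coordinates
  have hpol : ∫⁻ w in ball z δ, F w =
      ∫⁻ p in polarCoord.target, ENNReal.ofReal p.1 *
        (ball z δ).indicator F (z + Complex.polarCoord.symm p) := by
    rw [← lintegral_indicator measurableSet_ball, ← lintegral_add_left_eq_self _ z]
    exact (Complex.lintegral_comp_polarCoord_symm fun w => (ball z δ).indicator F (z + w)).symm
  have hsub : Ioo (δ / 2) δ ×ˢ Ioo (-π) π ⊆ polarCoord.target := by
    rintro ⟨r, θ⟩ ⟨hr, hθ⟩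
    exact ⟨by
      have : δ / 2 < r := hr.1
      show (0:ℝ) < r
      linarith, hθ⟩
  have hcm : ∀ r θ : ℝ, z + Complex.polarCoord.symm (r, θ) = circleMap z r θ := by
    intro r θ
    rw [Complex.polarCoord_symm_apply, circleMap, Complex.exp_mul_I]
    push_cast
    rfl
  have hmeas : Measurable fun p : ℝ × ℝ => ENNReal.ofReal p.1 * F (circleMap z p.1 p.2) := by
    refine (measurable_fst.ennreal_ofReal).mul (hFm.comp ?_)
    have : Continuous fun p : ℝ × ℝ => circleMap z p.1 p.2 := by
      unfold circleMap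
      fun_prop
    exact this.measurable
  have hlow : ∫⁻ r in Ioo (δ / 2) δ, ∫⁻ θ in Ioo (-π) π, ENNReal.ofReal r * F (circleMap z r θ) ≤
      ∫⁻ w in ball z δ, F w := by
    rw [hpol]
    calc ∫⁻ r in Ioo (δ / 2) δ, ∫⁻ θ in Ioo (-π) π, ENNReal.ofReal r * F (circleMap z r θ) =
        ∫⁻ p in Ioo (δ / 2) δ ×ˢ Ioo (-π) π, ENNReal.ofReal p.1 * F (circleMap z p.1 p.2) := by
          rw [Measure.volume_eq_prod, ← Measure.prod_restrict, lintegral_prod _ hmeas.aemeasurable]
      _ = ∫⁻ p in Ioo (δ / 2) δ ×ˢ Ioo (-π) π, ENNReal.ofReal p.1 *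
          (ball z δ).indicator F (z + Complex.polarCoord.symm p) := by
          refine setLIntegral_congr_fun (measurableSet_Ioo.prod measurableSet_Ioo) ?_
          rintro ⟨r, θ⟩ ⟨hr, hθ⟩
          simp only at hr hθ ⊢
          rw [hcm, indicator_of_mem]
          rw [mem_ball, dist_eq_norm, circleMap_sub_center, norm_circleMap_zero,
            abs_of_pos (by linarith [hr.1])]
          exact hr.2
      _ ≤ _ := lintegral_mono_set hsub
  have hinner : ∀ r ∈ Ioo (δ / 2) δ, ENNReal.ofReal (δ / 2 * (2 * π * X)) ≤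
      ∫⁻ θ in Ioo (-π) π, ENNReal.ofReal r * F (circleMap z r θ) := by
    intro r hr
    have hr0 : 0 < r := by linarith [hr.1]
    rw [lintegral_const_mul' _ _ ENNReal.ofReal_ne_top]
    have hsb : closedBall z r ⊆ closedBall z δ := closedBall_subset_closedBall hr.2.le
    have h2 := circle_up hU hf hr0 (hsb.trans hball)
    refine le_trans ?_ (mul_le_mul' le_rfl h2)
    rw [← ENNReal.ofReal_mul hr0.le]
    refine ENNReal.ofReal_le_ofReal ?_
    gcongr
    exact hr.1.le
  have hmain : ENNReal.ofReal (δ / 2 * (2 * π * X)) * ENNReal.ofReal (δ / 2) ≤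
      ∫⁻ w in ball z δ, F w := by
    refine le_trans ?_ hlow
    calc ENNReal.ofReal (δ / 2 * (2 * π * X)) * ENNReal.ofReal (δ / 2) =
        ∫⁻ _ in Ioo (δ / 2) δ, ENNReal.ofReal (δ / 2 * (2 * π * X)) := by
          rw [setLIntegral_const, Real.volume_Ioo]
          congr 2; ring
      _ ≤ _ := setLIntegral_mono' measurableSet_Ioo fun r hr => hinner r hr
  rw [← ENNReal.ofReal_mul' (by positivity)] at hmain
  refine le_trans (ENNReal.ofReal_le_ofReal ?_) hmain
  have e : δ / 2 * (2 * π * X) * (δ / 2) = δ ^ 2 * X * (π / 2) := by ring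
  rw [e]
  have : 0 < δ ^ 2 * X := by positivity
  nlinarith

end Pool.Agent.K4H6.GL
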