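import Pool.Agent.K4H6.GL.Gt
import Pool.Agent.K4H6.GL.Up
import Pool.Agent.K4H6.GL.Fac

set_option autoImplicit false

/-! The derivative at one simple zero, with the contribution of the zeros near it. -/

namespace Pool.Agent.K4H6.GL

open Filter Topology MeasureTheory Metric H370
open Pool.Agent.Y745.SW (Px)

noncomputable section

open Classical in
/-- the other zeros near `s` -/
def nb (T : ℝ) (s : ℂ) : Finset ℂ := (Zb T).filter (fun w => w ≠ s ∧ ‖w - s‖ ≤ 1 / (4 * Real.log T))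

/-- the contribution of the other zeros near `s` -/
def DD (T : ℝ) (s : ℂ) : ℝ :=
  ∑ w ∈ nb T s, (mult riemannZeta w : ℝ) * Real.log (2 * (1 / (4 * Real.log T)) / ‖s - w‖)

lemma mem_nb {T : ℝ} {s w : ℂ} : w ∈ nb T s ↔ w ∈ Zb T ∧ w ≠ s ∧ ‖w - s‖ ≤ 1 / (4 * Real.log T) := by
  classical
  unfold nb
  rw [Finset.mem_filter]

lemma DD_nonneg {T : ℝ} {s : ℂ} : 0 ≤ DD T s := by
  unfold DD
  refine Finset.sum_nonneg fun w hw => mul_nonneg (Nat.cast_nonneg _) (Real.log_nonneg ?_)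
  obtain ⟨-, h1, h2⟩ := mem_nb.1 hw
  have h3 : 0 < ‖s - w‖ := norm_pos_iff.2 (sub_ne_zero.2 h1.symm)
  rw [le_div_iff₀ h3, one_mul]
  rw [norm_sub_rev] at h2
  linarith

lemma near_nr {T : ℝ} {s : ℂ} {F : Finset ℂ} (hF : F ⊆ Zb T) (h : ∀ w ∈ F, |w.im - s.im| ≤ 2 / Real.log T) :
    ∑ w ∈ F, (mult riemannZeta w : ℝ) ≤ nr T s := by
  unfold nr
  refine le_trans ?_ (Finset.sum_le_sum_of_subset_of_nonneg hF fun w _ _ =>
    ind_nonneg (fun s' => |s'.im - s.im| ≤ 2 / Real.log T) w)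
  refine Finset.sum_le_sum fun w hw => ?_
  rw [ind_pos (p := fun s' => |s'.im - s.im| ≤ 2 / Real.log T) (h w hw)]

lemma nb_le {T : ℝ} (hL : 0 < Real.log T) (s : ℂ) : ∑ w ∈ nb T s, (mult riemannZeta w : ℝ) ≤ nr T s := by
  refine near_nr (fun w hw => (mem_nb.1 hw).1) fun w hw => ?_
  obtain ⟨-, -, h2⟩ := mem_nb.1 hw
  have h3 := Complex.abs_im_le_norm (w - s)
  rw [Complex.sub_im] at h3
  have h4 : 1 / (4 * Real.log T) ≤ 2 / Real.log T := by
    rw [div_le_div_iff₀ (by positivity) hL]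
    linarith
  linarith

lemma card_le_mult {T : ℝ} (hT : 1 ≤ T) {F : Finset ℂ} (hF : F ⊆ Zb T) :
    (F.card : ℝ) ≤ ∑ w ∈ F, (mult riemannZeta w : ℝ) := by
  rw [Finset.card_eq_sum_ones]
  push_cast
  refine Finset.sum_le_sum fun w hw => ?_
  have h1 := (mem_Zb hT).1 (hF hw)
  have := Loc.mult_pos' good_zeta (by linarith [h1.2.2.1]) h1.2.2.2.2
  exact_mod_cast this

/-- the estimate at one zero -/
lemma one_zeroD {C θ K K0 K2 S L W η T r d : ℝ} (hC : 1 ≤ C) (hθ : 0 < θ)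
    (hθ1 : θ ≤ 1 / 4) (hK : 0 < K) (hS : 1 ≤ S) (hL : 1 ≤ L) (hLT : L = Real.log T)
    (hr : r = 1 / (4 * L)) (hd : 0 < d) (hdr : d ≤ r) (hT : 10 ≤ T)
    (hH : ∀ (f : ℂ → ℂ) (ρ s1 : ℂ) (r M θ : ℝ), 0 < r → 0 < θ → θ ≤ 1 / 4 →
      AnalyticOnNhd ℂ f (Metric.closedBall ρ r) → f ρ = 0 → deriv f ρ ≠ 0 →
      (∀ z ∈ Metric.closedBall ρ r, z ≠ ρ → f z ≠ 0) → (∀ z ∈ Metric.closedBall ρ r, ‖f z‖ ≤ Real.exp M) →
      s1 ≠ ρ → ‖s1 - ρ‖ ≤ θ * r →
        |Real.log ‖deriv f ρ‖ - (Real.log ‖f s1‖ - Real.log ‖s1 - ρ‖)| ≤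
          C * θ * (M - Real.log r - (Real.log ‖f s1‖ - Real.log ‖s1 - ρ‖)))
    {s : ℂ} (hs : s ∈ Zb T) (hsre : s.re = 1 / 2) (hs1 : T + 5 * L < s.im) (hs2 : s.im ≤ 2 * T - 5 * L)
    (hm : mult riemannZeta s = 1) (hnr : nr T s ≤ K0)
    (hA : ∫⁻ w in ball s (1 / L), ENNReal.ofReal |Real.log ‖riemannZeta w‖| ≤
      ENNReal.ofReal (K * S * r ^ 2))
    {t : ℝ} (ht1 : s.im + θ * r / 2 ≤ t) (ht2 : t ≤ s.im + θ * r)
    (htd : ∀ w ∈ nb T s, d ≤ |t - w.im|)
    (hz : riemannZeta (1 / 2 + t * Complex.I) ≠ 0)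
    (hloc : ∀ u : ℝ, |u| ≤ 1 / L → |Real.log ‖riemannZeta (1 / 2 + t * Complex.I)‖ -
          (Px T (t + u)).re| ≤ W + η * S)
    (hP : -K2 * S ≤ (Px T s.im).re) :
    |Real.log ‖deriv riemannZeta s‖ + DD T s - Real.log L - (Px T s.im).re| ≤
      C * θ * (K * S + K0 * Real.log 2 + K2 * S + W + η * S) + K0 * Real.log (2 * r / d) + |Real.log (θ / 8)| +
        (W + η * S) := by
  have hL0 : 0 < L := by linarith
  have hr0 : 0 < r := by rw [hr]; positivity
  have hrL : r * L = 1 / 4 := by rw [hr]; field_simp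
  have hr4 : 4 * r = 1 / L := by rw [hr]; field_simp
  have hr1 : r ≤ 1 / 4 := by
    rw [hr, div_le_div_iff₀ (by positivity) (by norm_num)]
    linarith
  have hsz := (mem_Zb (by linarith)).1 hs
  have hs0 : riemannZeta s = 0 := hsz.2.2.2.2
  have hs1ne : s ≠ 1 := by
    rintro rfl
    simp at hs1
    linarith
  have hsd : deriv riemannZeta s ≠ 0 := Pool.Agent.Y141.SW.deriv_ne_of_simple hs1ne hs0 hm
  have hd1 : DifferentiableOn ℂ riemannZeta ({1}ᶜ : Set ℂ) := fun z hz =>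
    (differentiableAt_riemannZeta hz).differentiableWithinAt
  have hUall : ∀ z : ℂ, ‖z - s‖ ≤ 4 * r → z ∈ ({1}ᶜ : Set ℂ) := by
    intro z hz
    rw [Set.mem_compl_iff, Set.mem_singleton_iff]
    rintro rfl
    have h2 := (Complex.abs_im_le_norm (1 - s)).trans hz
    rw [Complex.sub_im, Complex.one_im, zero_sub, abs_neg, abs_of_pos (by linarith)] at h2
    linarith
  -- the upper bound
  have hup : ∀ z : ℂ, ‖z - s‖ ≤ 2 * r → ‖riemannZeta z‖ ≤ Real.exp (K * S) := by
    intro z hz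
    by_cases h0 : riemannZeta z = 0
    · rw [h0, norm_zero]; positivity
    have hb : closedBall z r ⊆ ({1}ᶜ : Set ℂ) := by
      intro u hu
      rw [mem_closedBall, dist_eq_norm] at hu
      refine hUall u ?_
      have := norm_add_le (u - z) (z - s)
      rw [sub_add_sub_cancel] at this
      linarith
    have h2 := disc_up isOpen_compl_singleton hd1 Pool.Agent.W354.ZP.zeta_meas hr0 hb
    have hsub : ball z r ⊆ ball s (1 / L) := by
      intro u hu
      rw [mem_ball, dist_eq_norm] at hu ⊢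
      have := norm_add_le (u - z) (z - s)
      rw [sub_add_sub_cancel] at this
      linarith
    have h3 := (h2.trans (lintegral_mono_set hsub)).trans hA
    rw [ENNReal.ofReal_le_ofReal_iff (by positivity)] at h3
    have h4 : Real.log ‖riemannZeta z‖ ≤ K * S := by
      have h5 : r ^ 2 * Real.log ‖riemannZeta z‖ ≤ r ^ 2 * (K * S) := by linarith
      exact le_of_mul_le_mul_left h5 (by positivity)
    calc ‖riemannZeta z‖ = Real.exp (Real.log ‖riemannZeta z‖) := by
          rw [Real.exp_log (norm_pos_iff.mpr h0)]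
      _ ≤ _ := Real.exp_le_exp.mpr h4
  have hr' : 1 / (4 * Real.log T) = r := by rw [hr, hLT]
  -- the other zeros
  have hnb : ∀ w ∈ nb T s, w ∈ Zb T ∧ w ≠ s ∧ ‖w - s‖ ≤ r := by
    intro w hw
    have := mem_nb.1 hw
    rwa [hr'] at this
  obtain ⟨F, F1, F2, F3, F4, F5, F6, F7⟩ := local_fac isOpen_compl_singleton hd1 hr0
    (fun z hz => hUall z (by rw [mem_closedBall, dist_eq_norm] at hz; linarith)) hs0 hsd (nb T s)
    (fun h => (hnb s h).2.1 rfl) (fun w hw => by
      obtain ⟨h1, h2, h3⟩ := hnb w hw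
      have h4 := (mem_Zb (by linarith)).1 h1
      refine ⟨by rw [mem_closedBall, dist_eq_norm]; exact h3, h4.2.2.2.2, ?_⟩
      intro h5
      have h6 := Loc.mult_pos' good_zeta (by linarith [h4.2.2.1]) h4.2.2.2.2
      unfold mult analyticOrderNatAt at h6
      rw [h5] at h6
      simp at h6) (fun w hw hw0 => by
      by_cases h : w = s
      · exact Or.inl h
      · right
        rw [mem_closedBall, dist_eq_norm] at hw
        rw [mem_nb, hr']
        refine ⟨?_, h, hw⟩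
        rw [mem_Zb (by linarith)]
        have h1 := (Complex.abs_re_le_norm (w - s)).trans hw
        have h2 := (Complex.abs_im_le_norm (w - s)).trans hw
        rw [Complex.sub_re, hsre] at h1
        rw [Complex.sub_im] at h2
        have h1' := abs_le.mp h1
        have h2' := abs_le.mp h2
        exact ⟨by linarith, by linarith, by linarith, by linarith, hw0⟩)
    (M := K * S) (fun z hz => hup z (by rw [mem_sphere, dist_eq_norm] at hz; linarith))
  obtain ⟨n, hn⟩ : ∃ n : ℝ, n = ∑ w ∈ nb T s, (mult riemannZeta w : ℝ) := ⟨_, rfl⟩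
  have hnK : n ≤ K0 := by rw [hn]; exact (nb_le (by rw [← hLT]; exact hL0) s).trans hnr
  have hn0 : 0 ≤ n := by rw [hn]; exact Finset.sum_nonneg fun _ _ => Nat.cast_nonneg _
  change ∀ z ∈ closedBall s r, ‖F z‖ ≤ Real.exp (K * S + (∑ w ∈ nb T s, (mult riemannZeta w : ℝ)) * Real.log 2) at F5
  rw [← hn] at F5
  have F6' : Real.log ‖deriv F s‖ = Real.log ‖deriv riemannZeta s‖ + DD T s := by
    rw [F6]
    unfold DD
    rw [hr']
    rfl
  change ∀ z, riemannZeta z ≠ 0 → Real.log ‖F z‖ = Real.log ‖riemannZeta z‖ +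
        ∑ w ∈ nb T s, (mult riemannZeta w : ℝ) * Real.log (2 * r / ‖z - w‖) at F7
  set s1 : ℂ := 1 / 2 + t * Complex.I with hs1d
  have hs1s : s1 - s = ((t - s.im : ℝ) : ℂ) * Complex.I := by
    apply Complex.ext
    · simp [hs1d, hsre]
    · simp [hs1d]
  have htp : 0 < t - s.im := by
    have : 0 < θ * r / 2 := by positivity
    linarith
  have hnorm : ‖s1 - s‖ = t - s.im := by
    rw [hs1s, norm_mul, Complex.norm_I, mul_one, Complex.norm_real, Real.norm_of_nonneg htp.le]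
  have hs1ne' : s1 ≠ s := by
    intro h
    rw [h, sub_self, norm_zero] at hnorm
    linarith
  have hhar := hH F s s1 r (K * S + n * Real.log 2) θ hr0 hθ hθ1 F1 F2 F3 F4 F5 hs1ne' (by rw [hnorm]; linarith)
  rw [hnorm, F6', F7 s1 hz] at hhar
  obtain ⟨sg, hsg⟩ : ∃ x : ℝ, x = ∑ w ∈ nb T s, (mult riemannZeta w : ℝ) * Real.log (2 * r / ‖s1 - w‖) := ⟨_, rfl⟩
  rw [← hsg] at hhar
  have hθr : θ * r ≤ r := by nlinarith
  have hdist : ∀ w ∈ nb T s, d ≤ ‖s1 - w‖ ∧ ‖s1 - w‖ ≤ 2 * r := by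
    intro w hw
    obtain ⟨h1, h2, h3⟩ := hnb w hw
    constructor
    · have h4 := Complex.abs_im_le_norm (s1 - w)
      have h5 : (s1 - w).im = t - w.im := by simp [hs1d]
      rw [h5] at h4
      exact (htd w hw).trans h4
    · have h4 := norm_add_le (s1 - s) (s - w)
      rw [sub_add_sub_cancel, hnorm] at h4
      rw [norm_sub_rev] at h3
      linarith
  have hsg0 : 0 ≤ sg := by
    rw [hsg]
    refine Finset.sum_nonneg fun w hw => mul_nonneg (Nat.cast_nonneg _) (Real.log_nonneg ?_)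
    obtain ⟨h1, h2⟩ := hdist w hw
    rw [le_div_iff₀ (by linarith)]
    linarith
  have h2rd : 0 ≤ Real.log (2 * r / d) := by
    refine Real.log_nonneg ?_
    rw [le_div_iff₀ hd]
    linarith
  have hsg : sg ≤ K0 * Real.log (2 * r / d) := by
    refine le_trans ?_ (mul_le_mul_of_nonneg_right hnK h2rd)
    rw [hsg, hn, Finset.sum_mul]
    refine Finset.sum_le_sum fun w hw => mul_le_mul_of_nonneg_left ?_ (Nat.cast_nonneg _)
    obtain ⟨h1, h2⟩ := hdist w hw
    refine Real.log_le_log (div_pos (by linarith) (by linarith)) ?_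
    gcongr
  have hloc1 := hloc (s.im - t) (by
    rw [abs_sub_comm, abs_of_pos htp]
    linarith)
  rw [show t + (s.im - t) = s.im by ring] at hloc1
  have e2 := abs_le.mp hloc1
  have hlog2 : 0 < Real.log 2 := Real.log_pos (by norm_num)
  -- the right hand side
  have hrhs : K * S + n * Real.log 2 - Real.log r - (Real.log ‖riemannZeta s1‖ + sg - Real.log (t - s.im)) ≤
      K * S + K0 * Real.log 2 + K2 * S + W + η * S := by
    have h1 : Real.log (t - s.im) ≤ Real.log r := Real.log_le_log htp (by linarith)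
    have h2 : n * Real.log 2 ≤ K0 * Real.log 2 := mul_le_mul_of_nonneg_right hnK hlog2.le
    linarith [e2.1]
  have hCθ : 0 ≤ C * θ := by positivity
  have hhar2 := hhar.trans (mul_le_mul_of_nonneg_left hrhs hCθ)
  -- the distance
  have hdist2 : |(-Real.log (t - s.im)) - Real.log L| ≤ |Real.log (θ / 8)| := by
    have h2 : -Real.log (t - s.im) - Real.log L = -Real.log ((t - s.im) * L) := by
      rw [Real.log_mul htp.ne' (by linarith)]; ring
    have h4 : θ / 8 ≤ (t - s.im) * L := by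
      calc θ / 8 = θ * (r * L) / 2 := by rw [hrL]; ring
        _ = (θ * r / 2) * L := by ring
        _ ≤ _ := mul_le_mul_of_nonneg_right (by linarith) hL0.le
    have h5 : (t - s.im) * L ≤ 1 := by
      have h6 : (t - s.im) * L ≤ r * L := mul_le_mul_of_nonneg_right (by linarith) hL0.le
      rw [hrL] at h6
      linarith
    have h6 : 0 < θ / 8 := by positivity
    rw [h2, abs_neg, abs_of_nonpos (Real.log_nonpos (by positivity) h5),
      abs_of_nonpos (Real.log_nonpos h6.le (h4.trans h5))]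
    have := Real.log_le_log h6 h4
    linarith
  have e1 := abs_le.mp hhar2
  have e3 := abs_le.mp hdist2
  have h2 : 0 ≤ W + η * S := (abs_nonneg _).trans hloc1
  rw [abs_le]
  constructor <;> linarith [e1.1, e1.2, e2.1, e2.2, e3.1, e3.2]

end

end Pool.Agent.K4H6.GL
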