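import Pool.Agent.K4H6.GL.Cr
import Pool.Agent.K4H6.GL.Up
import Pool.Agent.K4H6.GL.FacG

set_option autoImplicit false

/-! The leading coefficient at one zero of any multiplicity, on or off the line, with the contribution of the
zeros near it. -/

namespace Pool.Agent.K4H6.GL

open Filter Topology MeasureTheory Metric H370
open Pool.Agent.Y745.SW (Px)

noncomputable section

open Classical in
/-- the other zeros near `s` -/
def nbG (R T : ℝ) (s : ℂ) : Finset ℂ := (Zb T).filter (fun w => w ≠ s ∧ ‖w - s‖ ≤ R / Real.log T)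

/-- the leading coefficient with the contribution of the zeros near `s` -/
def QQ (R T : ℝ) (s : ℂ) : ℝ := Real.log ‖meromorphicTrailingCoeffAt riemannZeta s‖ +
  ((mult riemannZeta s : ℝ) * Real.log (2 * (R / Real.log T)) +
    ∑ w ∈ nbG R T s, (mult riemannZeta w : ℝ) * Real.log (2 * (R / Real.log T) / ‖s - w‖))

lemma mem_nbG {R T : ℝ} {s w : ℂ} : w ∈ nbG R T s ↔ w ∈ Zb T ∧ w ≠ s ∧ ‖w - s‖ ≤ R / Real.log T := by
  classical
  unfold nbG
  rw [Finset.mem_filter]

lemma notMem_nbG {R T : ℝ} {s : ℂ} : s ∉ nbG R T s := fun h => (mem_nbG.1 h).2.1 rfl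

/-- the multiplicities near `s` -/
lemma nbG_le {R T : ℝ} (hR : 0 < R) (hL : 0 < Real.log T) {s : ℂ} (hs : s ∈ Zb T) :
    (mult riemannZeta s : ℝ) + ∑ w ∈ nbG R T s, (mult riemannZeta w : ℝ) ≤ nrA (6 * R) T s := by
  classical
  rw [← Finset.sum_insert (f := fun w => (mult riemannZeta w : ℝ)) notMem_nbG]
  refine near_nrA (fun w hw => ?_) fun w hw => ?_
  · rw [Finset.mem_insert] at hw
    rcases hw with h | h
    · rw [h]; exact hs
    · exact (mem_nbG.1 h).1
  · have h6 : R / Real.log T ≤ 6 * R / Real.log T := by gcongr; linarith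
    rw [Finset.mem_insert] at hw
    rcases hw with h | h
    · rw [h, sub_self, abs_zero]
      positivity
    · have h3 := Complex.abs_im_le_norm (w - s)
      rw [Complex.sub_im] at h3
      exact (h3.trans (mem_nbG.1 h).2.2).trans h6

lemma mult_one_le {T : ℝ} (hT : 1 ≤ T) {s : ℂ} (hs : s ∈ Zb T) : (1:ℝ) ≤ mult riemannZeta s := by
  have h1 := (mem_Zb hT).1 hs
  have := Loc.mult_pos' good_zeta (by linarith [h1.2.2.1]) h1.2.2.2.2
  exact_mod_cast this

lemma card_le_multG {T : ℝ} (hT : 1 ≤ T) {F : Finset ℂ} (hF : F ⊆ Zb T) :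
    (F.card : ℝ) ≤ ∑ w ∈ F, (mult riemannZeta w : ℝ) := by
  rw [Finset.card_eq_sum_ones]
  push_cast
  exact Finset.sum_le_sum fun w hw => mult_one_le hT (hF hw)

lemma ord_ne_top {T : ℝ} (hT : 1 ≤ T) {s : ℂ} (hs : s ∈ Zb T) : analyticOrderAt riemannZeta s ≠ ⊤ := by
  intro h5
  have h4 := (mem_Zb hT).1 hs
  have h6 := Loc.mult_pos' good_zeta (by linarith [h4.2.2.1]) h4.2.2.2.2
  unfold mult analyticOrderNatAt at h6
  rw [h5] at h6
  simp at h6

/-- the estimate at one zero -/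
lemma one_zeroG {C θ K K0 K2 S L W η T r d R A0 : ℝ} (hC : 1 ≤ C) (hθ : 0 < θ)
    (hθ1 : θ ≤ 1 / 4) (hK : 0 < K) (hS : 1 ≤ S) (hL : 1 ≤ L) (hLT : L = Real.log T)
    (hr : r = R / L) (hR1 : 1 ≤ R) (hr4 : r ≤ 1 / 4) (hd : 0 < d) (hdr : d ≤ r) (hT : 10 ≤ T)
    (hA0 : 1 ≤ A0) (hRA : 2 * A0 ≤ θ * R)
    (hH : ∀ (f : ℂ → ℂ) (ρ s1 : ℂ) (r M θ : ℝ), 0 < r → 0 < θ → θ ≤ 1 / 4 →
      AnalyticOnNhd ℂ f (Metric.closedBall ρ r) → f ρ = 0 → deriv f ρ ≠ 0 →
      (∀ z ∈ Metric.closedBall ρ r, z ≠ ρ → f z ≠ 0) → (∀ z ∈ Metric.closedBall ρ r, ‖f z‖ ≤ Real.exp M) →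
      s1 ≠ ρ → ‖s1 - ρ‖ ≤ θ * r →
        |Real.log ‖deriv f ρ‖ - (Real.log ‖f s1‖ - Real.log ‖s1 - ρ‖)| ≤
          C * θ * (M - Real.log r - (Real.log ‖f s1‖ - Real.log ‖s1 - ρ‖)))
    {s : ℂ} (hs : s ∈ Zb T) (hsre : |s.re - 1 / 2| ≤ A0 / L) (hs1 : T + 5 * L < s.im) (hs2 : s.im ≤ 2 * T - 5 * L)
    (hnr : nrA (6 * R) T s ≤ K0)
    (hA : ∫⁻ w in ball s (3 * r), ENNReal.ofReal |Real.log ‖riemannZeta w‖| ≤
      ENNReal.ofReal (K * S * r ^ 2))
    {t : ℝ} (ht1 : s.im + 1 / L / 2 ≤ t) (ht2 : t ≤ s.im + 1 / L)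
    (htd : ∀ w, w = s ∨ w ∈ nbG R T s → d ≤ |t - w.im|)
    (hz : riemannZeta (1 / 2 + t * Complex.I) ≠ 0)
    (hloc : ∀ u : ℝ, |u| ≤ 1 / L → |Real.log ‖riemannZeta (1 / 2 + t * Complex.I)‖ -
          (Px T (t + u)).re| ≤ W + η * S)
    (hP : -K2 * S ≤ (Px T s.im).re) :
    |QQ R T s - (Px T s.im).re| ≤
      C * θ * (K * S + K0 * Real.log 2 + K2 * S + W + η * S) + K0 * Real.log (2 * r / d) + (W + η * S) := by
  have hL0 : 0 < L := by linarith
  have hR0 : 0 < R := by linarith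
  have hr0 : 0 < r := by rw [hr]; positivity
  have hsz := (mem_Zb (by linarith)).1 hs
  have hs0 : riemannZeta s = 0 := hsz.2.2.2.2
  have hd1 : DifferentiableOn ℂ riemannZeta ({1}ᶜ : Set ℂ) := fun z hz =>
    (differentiableAt_riemannZeta hz).differentiableWithinAt
  have hUall : ∀ z : ℂ, ‖z - s‖ ≤ 3 * r → z ∈ ({1}ᶜ : Set ℂ) := by
    intro z hz
    rw [Set.mem_compl_iff, Set.mem_singleton_iff]
    rintro rfl
    have h2 := (Complex.abs_im_le_norm (1 - s)).trans hz
    rw [Complex.sub_im, Complex.one_im, zero_sub, abs_neg, abs_of_pos (by linarith)] at h2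
    linarith
  -- the upper bound
  have hup : ∀ z : ℂ, ‖z - s‖ ≤ 2 * r → ‖riemannZeta z‖ ≤ Real.exp (K * S) := by
    intro z hz
    by_cases h0 : riemannZeta z = 0
    · rw [h0, norm_zero]; positivity
    have hb : closedBall z r ⊆ ({1}ᶜ : Set ℂ) := by
      intro u hu
      rw [mem_closedBall, dist_eq_norm] at hu
      refine hUall u ?_
      have := norm_add_le (u - z) (z - s)
      rw [sub_add_sub_cancel] at this
      linarith
    have h2 := disc_up isOpen_compl_singleton hd1 Pool.Agent.W354.ZP.zeta_meas hr0 hb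
    have hsub : ball z r ⊆ ball s (3 * r) := by
      intro u hu
      rw [mem_ball, dist_eq_norm] at hu ⊢
      have := norm_add_le (u - z) (z - s)
      rw [sub_add_sub_cancel] at this
      linarith
    have h3 := (h2.trans (lintegral_mono_set hsub)).trans hA
    rw [ENNReal.ofReal_le_ofReal_iff (by positivity)] at h3
    have h4 : Real.log ‖riemannZeta z‖ ≤ K * S := by
      have h5 : r ^ 2 * Real.log ‖riemannZeta z‖ ≤ r ^ 2 * (K * S) := by linarith
      exact le_of_mul_le_mul_left h5 (by positivity)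
    calc ‖riemannZeta z‖ = Real.exp (Real.log ‖riemannZeta z‖) := by
          rw [Real.exp_log (norm_pos_iff.mpr h0)]
      _ ≤ _ := Real.exp_le_exp.mpr h4
  have hr' : R / Real.log T = r := by rw [hr, hLT]
  -- the other zeros
  have hnb : ∀ w ∈ nbG R T s, w ∈ Zb T ∧ w ≠ s ∧ ‖w - s‖ ≤ r := by
    intro w hw
    have := mem_nbG.1 hw
    rwa [hr'] at this
  have hAr : A0 / L ≤ r / 8 := by
    rw [hr]
    have h1 : A0 ≤ R / 8 := by nlinarith
    calc A0 / L ≤ R / 8 / L := by gcongr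
      _ = _ := by ring
  obtain ⟨F, F1, F4, F5, F6, F7⟩ := local_facG isOpen_compl_singleton hd1 hr0
    (fun z hz => hUall z (by rw [mem_closedBall, dist_eq_norm] at hz; linarith)) (nbG R T s)
    notMem_nbG (ord_ne_top (by linarith) hs) hs0 (fun w hw => by
      obtain ⟨h1, h2, h3⟩ := hnb w hw
      have h4 := (mem_Zb (by linarith)).1 h1
      exact ⟨by rw [mem_closedBall, dist_eq_norm]; exact h3, h4.2.2.2.2, ord_ne_top (by linarith) h1⟩)
    (fun w hw hw0 => by
      by_cases h : w = s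
      · exact Or.inl h
      · right
        rw [mem_closedBall, dist_eq_norm] at hw
        rw [mem_nbG, hr']
        refine ⟨?_, h, hw⟩
        rw [mem_Zb (by linarith)]
        have h1 := (Complex.abs_re_le_norm (w - s)).trans hw
        have h2 := (Complex.abs_im_le_norm (w - s)).trans hw
        rw [Complex.sub_re] at h1
        rw [Complex.sub_im] at h2
        have h1' := abs_le.mp h1
        have h2' := abs_le.mp h2
        have h3' := abs_le.mp hsre
        exact ⟨by linarith [h1'.1, h3'.1], by linarith [h1'.2, h3'.2], by linarith [h2'.1], by linarith [h2'.2], hw0⟩)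
    (M := K * S) (fun z hz => hup z (by rw [mem_sphere, dist_eq_norm] at hz; linarith))
  change ∀ z ∈ closedBall s r, ‖F z‖ ≤ Real.exp (K * S + ((mult riemannZeta s : ℝ) +
    ∑ w ∈ nbG R T s, (mult riemannZeta w : ℝ)) * Real.log 2) at F5
  have F6' : Real.log ‖F s‖ = QQ R T s := by
    rw [F6]
    unfold QQ
    rw [hr']
    rfl
  change ∀ z, riemannZeta z ≠ 0 → Real.log ‖F z‖ = Real.log ‖riemannZeta z‖ +
        ((mult riemannZeta s : ℝ) * Real.log (2 * r / ‖z - s‖) +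
        ∑ w ∈ nbG R T s, (mult riemannZeta w : ℝ) * Real.log (2 * r / ‖z - w‖)) at F7
  obtain ⟨n, hn⟩ : ∃ n : ℝ, n = (mult riemannZeta s : ℝ) + ∑ w ∈ nbG R T s, (mult riemannZeta w : ℝ) := ⟨_, rfl⟩
  rw [← hn] at F5
  have hnK : n ≤ K0 := by rw [hn]; exact (nbG_le hR0 (by rw [← hLT]; exact hL0) hs).trans hnr
  set s1 : ℂ := 1 / 2 + t * Complex.I with hs1d
  have hw0 : 0 < 1 / L := by positivity
  have htp : 0 < t - s.im := by linarith
  have hs1re : (s1 - s).re = 1 / 2 - s.re := by simp [hs1d]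
  have hs1im : (s1 - s).im = t - s.im := by simp [hs1d]
  have hs1ne' : s1 ≠ s := by
    intro h
    rw [h, sub_self, Complex.zero_im] at hs1im
    linarith
  have hθr : θ * r ≤ r := by nlinarith
  have hnorm : ‖s1 - s‖ ≤ θ * r := by
    have h1 := Complex.norm_le_abs_re_add_abs_im (s1 - s)
    rw [hs1re, hs1im, abs_sub_comm, abs_of_pos htp] at h1
    have h2 : A0 / L + 1 / L ≤ θ * r := by
      rw [hr, ← add_div, ← mul_div_assoc]
      gcongr
      linarith
    linarith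
  have hhar := harG (C := C) hH hr0 hθ hθ1 F1 F4 F5 hs1ne' hnorm
  rw [F6', F7 s1 hz] at hhar
  obtain ⟨sg, hsg⟩ : ∃ x : ℝ, x = (mult riemannZeta s : ℝ) * Real.log (2 * r / ‖s1 - s‖) +
    ∑ w ∈ nbG R T s, (mult riemannZeta w : ℝ) * Real.log (2 * r / ‖s1 - w‖) := ⟨_, rfl⟩
  rw [← hsg] at hhar
  have hdist : ∀ w, w = s ∨ w ∈ nbG R T s → d ≤ ‖s1 - w‖ ∧ ‖s1 - w‖ ≤ 2 * r := by
    intro w hw
    constructor
    · have h4 := Complex.abs_im_le_norm (s1 - w)
      have h5 : (s1 - w).im = t - w.im := by simp [hs1d]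
      rw [h5] at h4
      exact (htd w hw).trans h4
    · rcases hw with h | h
      · rw [h]; linarith
      · obtain ⟨h1, h2, h3⟩ := hnb w h
        have h4 := norm_add_le (s1 - s) (s - w)
        rw [sub_add_sub_cancel] at h4
        rw [norm_sub_rev] at h3
        linarith
  have hlg : ∀ w, w = s ∨ w ∈ nbG R T s → 0 ≤ Real.log (2 * r / ‖s1 - w‖) ∧
      Real.log (2 * r / ‖s1 - w‖) ≤ Real.log (2 * r / d) := by
    intro w hw
    obtain ⟨h1, h2⟩ := hdist w hw
    constructor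
    · refine Real.log_nonneg ?_
      rw [le_div_iff₀ (by linarith)]
      linarith
    · refine Real.log_le_log (div_pos (by linarith) (by linarith)) ?_
      gcongr
  have hsg0 : 0 ≤ sg := by
    rw [hsg]
    refine add_nonneg (mul_nonneg (Nat.cast_nonneg _) (hlg s (Or.inl rfl)).1) ?_
    exact Finset.sum_nonneg fun w hw => mul_nonneg (Nat.cast_nonneg _) (hlg w (Or.inr hw)).1
  have h2rd : 0 ≤ Real.log (2 * r / d) := by
    refine Real.log_nonneg ?_
    rw [le_div_iff₀ hd]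
    linarith
  have hsg1 : sg ≤ K0 * Real.log (2 * r / d) := by
    refine le_trans ?_ (mul_le_mul_of_nonneg_right hnK h2rd)
    rw [hsg, hn, add_mul, Finset.sum_mul]
    refine add_le_add (mul_le_mul_of_nonneg_left (hlg s (Or.inl rfl)).2 (Nat.cast_nonneg _)) ?_
    exact Finset.sum_le_sum fun w hw => mul_le_mul_of_nonneg_left (hlg w (Or.inr hw)).2 (Nat.cast_nonneg _)
  have hloc1 := hloc (s.im - t) (by
    rw [abs_sub_comm, abs_of_pos htp]
    linarith)
  rw [show t + (s.im - t) = s.im by ring] at hloc1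
  have e2 := abs_le.mp hloc1
  have hlog2 : 0 < Real.log 2 := Real.log_pos (by norm_num)
  -- the right hand side
  have hrhs : K * S + n * Real.log 2 - (Real.log ‖riemannZeta s1‖ + sg) ≤
      K * S + K0 * Real.log 2 + K2 * S + W + η * S := by
    have h2 : n * Real.log 2 ≤ K0 * Real.log 2 := mul_le_mul_of_nonneg_right hnK hlog2.le
    linarith [e2.1]
  have hCθ : 0 ≤ C * θ := by positivity
  have hhar2 := hhar.trans (mul_le_mul_of_nonneg_left hrhs hCθ)
  have e1 := abs_le.mp hhar2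
  rw [abs_le]
  constructor <;> linarith [e1.1, e1.2, e2.1, e2.2]

end

end Pool.Agent.K4H6.GL
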