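import Pool.Agent.K4H6.GL.Two

set_option autoImplicit false

/-! The law of the derivative and the close zeros: the criterion in one block. -/

namespace Pool.Agent.K4H6.GL

open Filter Topology MeasureTheory Metric H370
open Pool.Agent.Y745.SW (Px nrm)

noncomputable section

/-- the normalised logarithm of the derivative -/
def YY (T : ℝ) (s : ℂ) : ℝ := nrm T (Real.log ‖deriv riemannZeta s‖)

/-- simple zero on the critical line -/
def sc (s : ℂ) : Prop := s.re = 1 / 2 ∧ mult riemannZeta s = 1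

/-- no other zero of the block is near `s` -/
def iso (ε T : ℝ) (s : ℂ) : Prop :=
  ∀ w ∈ Zb T, w ≠ s → Real.exp (-ε * Real.sqrt (Real.log (Real.log T))) / Real.log T < ‖w - s‖

/-- the typical zeros -/
def typ (θ K0 T : ℝ) (s : ℂ) : Prop :=
  (T + 5 * Real.log T < s.im ∧ s.im ≤ 2 * T - 5 * Real.log T) ∧ nr T s ≤ K0 ∧
    (sc s → |YY T s + Real.sqrt 2 * (DD T s / Real.sqrt (Real.log (Real.log T))) - XX T s.im| ≤ θ)

/-- the law of the derivative in the block -/
def LawB : Prop := ∀ a b : ℝ, a < b → ∀ ε : ℝ, 0 < ε → ∀ᶠ T : ℝ in atTop,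
  |tot T (fun s => sc s ∧ a < YY T s ∧ YY T s < b) - nm a b * EE T| ≤ ε * EE T

/-- almost all zeros are simple, on the line and isolated -/
def IsoB : Prop := ∀ ε : ℝ, 0 < ε → ∀ δ : ℝ, 0 < δ → ∀ᶠ T : ℝ in atTop,
  tot T (fun s => ¬ (sc s ∧ iso ε T s)) ≤ δ * EE T

lemma sq2 : Real.sqrt 2 ≤ 2 := by
  rw [Real.sqrt_le_left (by norm_num)]; norm_num

lemma sq2' : 1 ≤ Real.sqrt 2 := by
  rw [Real.one_le_sqrt]; norm_num

/-- almost all zeros are typical -/
theorem typical {θ δ : ℝ} (hθ : 0 < θ) (hδ : 0 < δ) : ∃ K0 : ℝ, 1 ≤ K0 ∧ ∀ᶠ T : ℝ in atTop,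
    tot T (fun s => ¬ typ θ K0 T s) ≤ δ * EE T := by
  obtain ⟨K0, hK0, hK⟩ := crowd (show 0 < δ / 3 by positivity)
  refine ⟨K0, hK0, ?_⟩
  have hε : 0 < min (θ / 2) (δ / 3) := by positivity
  filter_upwards [hK, derD hε hK0, tot_ends (show (1:ℝ) ≤ 5 by norm_num) (show 0 < δ / 3 by positivity), EE_pos,
    loglog_tt.eventually_ge_atTop 1] with T h1 h2 h3 hE hS
  have h4 : tot T (fun s => ¬ typ θ K0 T s) ≤ tot T (fun s => K0 < nr T s ∨
      ((¬ (T + 5 * Real.log T < s.im ∧ s.im ≤ 2 * T - 5 * Real.log T)) ∨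
      ((T + 5 * Real.log T < s.im ∧ s.im ≤ 2 * T - 5 * Real.log T) ∧ nr T s ≤ K0 ∧ s.re = 1 / 2 ∧
      mult riemannZeta s = 1 ∧ min (θ / 2) (δ / 3) * Real.sqrt (Real.log (Real.log T)) <
        |Real.log ‖deriv riemannZeta s‖ + DD T s - Real.log (Real.log T) - (Px T s.im).re|))) := by
    refine tot_mono fun s hs hb => ?_
    by_contra hcon
    rw [not_or, not_or, not_not, not_lt] at hcon
    obtain ⟨n1, n2, n3⟩ := hcon
    refine hb ⟨n2, n1, fun hsc => ?_⟩
    have n4 : |Real.log ‖deriv riemannZeta s‖ + DD T s - Real.log (Real.log T) - (Px T s.im).re| ≤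
        min (θ / 2) (δ / 3) * Real.sqrt (Real.log (Real.log T)) := by
      by_contra h
      exact n3 ⟨n2, n1, hsc.1, hsc.2, not_le.1 h⟩
    unfold YY nrm XX
    obtain ⟨σ, hσ⟩ : ∃ σ, σ = Real.sqrt (Real.log (Real.log T)) := ⟨_, rfl⟩
    rw [← hσ] at n4 hS ⊢
    have hσ0 : 0 < σ := by linarith
    have e : Real.sqrt 2 * ((Real.log ‖deriv riemannZeta s‖ - Real.log (Real.log T)) / σ) +
        Real.sqrt 2 * (DD T s / σ) - Real.sqrt 2 * ((Px T s.im).re / σ) = Real.sqrt 2 *
        ((Real.log ‖deriv riemannZeta s‖ + DD T s - Real.log (Real.log T) - (Px T s.im).re) / σ) := by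
      field_simp
      ring
    rw [e, abs_mul, abs_of_nonneg (Real.sqrt_nonneg 2), abs_div, abs_of_pos hσ0]
    have h5 : |Real.log ‖deriv riemannZeta s‖ + DD T s - Real.log (Real.log T) - (Px T s.im).re| / σ ≤ θ / 2 := by
      rw [div_le_iff₀ hσ0]
      exact n4.trans (mul_le_mul_of_nonneg_right (min_le_left _ _) hσ0.le)
    calc Real.sqrt 2 * (|Real.log ‖deriv riemannZeta s‖ + DD T s - Real.log (Real.log T) - (Px T s.im).re| / σ) ≤
        2 * (θ / 2) := mul_le_mul sq2 h5 (by positivity) (by norm_num)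
      _ = θ := by ring
  refine h4.trans ((tot_or _ _).trans ?_)
  have h5 := tot_or (T := T) (fun s => ¬ (T + 5 * Real.log T < s.im ∧ s.im ≤ 2 * T - 5 * Real.log T))
    (fun s => (T + 5 * Real.log T < s.im ∧ s.im ≤ 2 * T - 5 * Real.log T) ∧ nr T s ≤ K0 ∧ s.re = 1 / 2 ∧
      mult riemannZeta s = 1 ∧ min (θ / 2) (δ / 3) * Real.sqrt (Real.log (Real.log T)) <
        |Real.log ‖deriv riemannZeta s‖ + DD T s - Real.log (Real.log T) - (Px T s.im).re|)
  have h6 : min (θ / 2) (δ / 3) * EE T ≤ δ / 3 * EE T := mul_le_mul_of_nonneg_right (min_le_right _ _) hE.le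
  linarith

/-- the derivative is at most as large as predicted -/
lemma typ_le {θ K0 T : ℝ} {s : ℂ} (h : typ θ K0 T s) (hs : sc s) : YY T s ≤ XX T s.im + θ := by
  have h1 := (abs_le.1 (h.2.2 hs)).2
  have h2 : 0 ≤ Real.sqrt 2 * (DD T s / Real.sqrt (Real.log (Real.log T))) :=
    mul_nonneg (Real.sqrt_nonneg 2) (div_nonneg DD_nonneg (Real.sqrt_nonneg _))
  linarith

/-- **upper half of the law** -/
theorem upperB {a ε : ℝ} (hε : 0 < ε) : ∀ᶠ T : ℝ in atTop,
    tot T (fun s => sc s ∧ a < YY T s) ≤ (tail a + ε) * EE T := by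
  obtain ⟨K0, hK0, hK⟩ := typical (show 0 < ε / 4 by positivity) (show 0 < ε / 4 by positivity)
  filter_upwards [hK, upT (show 0 < ε / 4 by positivity) (a - ε / 4), EE_pos] with T h1 h2 hE
  have h3 : tot T (fun s => sc s ∧ a < YY T s) ≤ tot T (fun s => (¬ typ (ε / 4) K0 T s) ∨ a - ε / 4 ≤ XX T s.im) := by
    refine tot_mono fun s hs hb => ?_
    by_cases h : typ (ε / 4) K0 T s
    · right
      have := typ_le h hb.1
      linarith [hb.2]
    · exact Or.inl h
  have h4 := h3.trans (tot_or _ _)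
  have h5 := tail_split (a := a - ε / 4) (b := a)
  have h6 := nm_le_len (a := a - ε / 4) (b := a) (by linarith)
  have h7 : (tail (a - ε / 4) + ε / 4) * EE T ≤ (tail a + ε / 4 + ε / 4) * EE T :=
    mul_le_mul_of_nonneg_right (by linarith) hE.le
  have h8 : 0 < ε * EE T := by positivity
  linarith

/-- for isolated zeros the contribution of the near zeros is small -/
lemma DD_iso {ε T K0 : ℝ} {s : ℂ} (hL : 1 ≤ Real.log T) (hnr : nr T s ≤ K0) (hi : iso ε T s) (hε : 0 ≤ ε) :
    DD T s ≤ K0 * (ε * Real.sqrt (Real.log (Real.log T))) := by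
  have hL0 : 0 < Real.log T := by linarith
  have h0 : 0 ≤ ε * Real.sqrt (Real.log (Real.log T)) := mul_nonneg hε (Real.sqrt_nonneg _)
  refine le_trans ?_ (mul_le_mul_of_nonneg_right ((nb_le hL0 s).trans hnr) h0)
  unfold DD
  rw [Finset.sum_mul]
  refine Finset.sum_le_sum fun w hw => mul_le_mul_of_nonneg_left ?_ (Nat.cast_nonneg _)
  obtain ⟨h1, h2, h3⟩ := mem_nb.1 hw
  have h4 := hi w h1 h2
  rw [norm_sub_rev] at h4
  have h5 : 0 < ‖s - w‖ := norm_pos_iff.2 (sub_ne_zero.2 h2.symm)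
  obtain ⟨e, he⟩ : ∃ e, e = ε * Real.sqrt (Real.log (Real.log T)) := ⟨_, rfl⟩
  have he' : -ε * Real.sqrt (Real.log (Real.log T)) = -e := by rw [he]; ring
  rw [he'] at h4
  rw [← he]
  rw [Real.log_le_iff_le_exp (by positivity), div_le_iff₀ h5]
  have h6 : Real.exp e * Real.exp (-e) = 1 := by rw [← Real.exp_add, add_neg_cancel, Real.exp_zero]
  have h7 : Real.exp e * (Real.exp (-e) / Real.log T) ≤ Real.exp e * ‖s - w‖ :=
    mul_le_mul_of_nonneg_left h4.le (Real.exp_pos _).le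
  have h8 : Real.exp e * (Real.exp (-e) / Real.log T) = 1 / Real.log T := by
    rw [← mul_div_assoc, h6]
  have h9 : 2 * (1 / (4 * Real.log T)) ≤ 1 / Real.log T := by
    rw [show 2 * (1 / (4 * Real.log T)) = (1 / 2) / Real.log T by ring]
    gcongr
    norm_num
  linarith

/-- isolated zeros give the law -/
theorem law_of_iso (h : IsoB) : LawB := by
  intro a b hab ε hε
  obtain ⟨θ, hθ⟩ : ∃ θ, θ = min (ε / 16) ((b - a) / 4) := ⟨_, rfl⟩
  have hθ0 : 0 < θ := by rw [hθ]; exact lt_min (by positivity) (by linarith)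
  have hθ1 : θ ≤ ε / 16 := by rw [hθ]; exact min_le_left _ _
  have hθ2 : θ ≤ (b - a) / 4 := by rw [hθ]; exact min_le_right _ _
  obtain ⟨K0, hK0, hK⟩ := typical (show 0 < θ / 2 by positivity) (show 0 < ε / 8 by positivity)
  have hK0' : 0 < K0 := by linarith
  filter_upwards [hK, h (θ / (8 * K0)) (by positivity) (ε / 8) (by positivity),
    lowG' (show a + θ < b - θ by linarith) (show 0 < ε / 4 by positivity),
    upG (show a - θ ≤ b + θ by linarith) (show 0 < ε / 4 by positivity), EE_pos,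
    Real.tendsto_log_atTop.eventually_ge_atTop 1, loglog_tt.eventually_ge_atTop 1] with T t1 t2 t3 t4 tE tL tS
  -- comparison
  have hcmp : ∀ s ∈ Zb T, typ (θ / 2) K0 T s → sc s ∧ iso (θ / (8 * K0)) T s → |YY T s - XX T s.im| < θ := by
    intro s hs h1 h2
    have h3 := h1.2.2 h2.1
    have h4 := DD_iso tL h1.2.1 h2.2 (by positivity)
    obtain ⟨σ, hσ⟩ : ∃ σ, σ = Real.sqrt (Real.log (Real.log T)) := ⟨_, rfl⟩
    rw [← hσ] at h3 h4 tS
    have hσ0 : 0 < σ := by linarith
    have h5 : 0 ≤ Real.sqrt 2 * (DD T s / σ) := mul_nonneg (Real.sqrt_nonneg 2) (div_nonneg DD_nonneg hσ0.le)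
    have h6 : Real.sqrt 2 * (DD T s / σ) ≤ θ / 4 := by
      have h7 : DD T s / σ ≤ θ / 8 := by
        rw [div_le_iff₀ hσ0]
        refine h4.trans (le_of_eq ?_)
        field_simp
      calc Real.sqrt 2 * (DD T s / σ) ≤ 2 * (θ / 8) :=
            mul_le_mul sq2 h7 (div_nonneg DD_nonneg hσ0.le) (by norm_num)
        _ = θ / 4 := by ring
    have h7 := abs_le.1 h3
    rw [abs_lt]
    constructor <;> linarith [h7.1, h7.2]
  -- lower bound
  have hlow : tot T (fun s => a + θ < XX T s.im ∧ XX T s.im < b - θ) ≤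
      tot T (fun s => sc s ∧ a < YY T s ∧ YY T s < b) + (ε / 8 * EE T + ε / 8 * EE T) := by
    have h1 : tot T (fun s => a + θ < XX T s.im ∧ XX T s.im < b - θ) ≤
        tot T (fun s => (sc s ∧ a < YY T s ∧ YY T s < b) ∨ ((¬ typ (θ / 2) K0 T s) ∨
          ¬ (sc s ∧ iso (θ / (8 * K0)) T s))) := by
      refine tot_mono fun s hs hb => ?_
      by_cases h1 : typ (θ / 2) K0 T s
      · by_cases h2 : sc s ∧ iso (θ / (8 * K0)) T s
        · left
          have h3 := abs_lt.1 (hcmp s hs h1 h2)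
          exact ⟨h2.1, by linarith [h3.1, hb.1], by linarith [h3.2, hb.2]⟩
        · exact Or.inr (Or.inr h2)
      · exact Or.inr (Or.inl h1)
    have h2 := h1.trans (tot_or _ _)
    have h3 := tot_or (T := T) (fun s => ¬ typ (θ / 2) K0 T s) (fun s => ¬ (sc s ∧ iso (θ / (8 * K0)) T s))
    linarith
  have hupp : tot T (fun s => sc s ∧ a < YY T s ∧ YY T s < b) ≤
      tot T (fun s => a - θ ≤ XX T s.im ∧ XX T s.im ≤ b + θ) + (ε / 8 * EE T + ε / 8 * EE T) := by
    have h1 : tot T (fun s => sc s ∧ a < YY T s ∧ YY T s < b) ≤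
        tot T (fun s => (a - θ ≤ XX T s.im ∧ XX T s.im ≤ b + θ) ∨ ((¬ typ (θ / 2) K0 T s) ∨
          ¬ (sc s ∧ iso (θ / (8 * K0)) T s))) := by
      refine tot_mono fun s hs hb => ?_
      by_cases h1 : typ (θ / 2) K0 T s
      · by_cases h2 : sc s ∧ iso (θ / (8 * K0)) T s
        · left
          have h3 := abs_lt.1 (hcmp s hs h1 h2)
          exact ⟨by linarith [h3.2, hb.2.1], by linarith [h3.1, hb.2.2]⟩
        · exact Or.inr (Or.inr h2)
      · exact Or.inr (Or.inl h1)
    have h2 := h1.trans (tot_or _ _)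
    have h3 := tot_or (T := T) (fun s => ¬ typ (θ / 2) K0 T s) (fun s => ¬ (sc s ∧ iso (θ / (8 * K0)) T s))
    linarith
  have n1 := nm_le_len (a := a) (b := a + θ) (by linarith)
  have n2 := nm_le_len (a := b - θ) (b := b) (by linarith)
  have n3 := nm_add a (a + θ) (b - θ)
  have n4 := nm_add a (b - θ) b
  have n5 := nm_le_len (a := a - θ) (b := a) (by linarith)
  have n6 := nm_le_len (a := b) (b := b + θ) (by linarith)
  have n7 := nm_add (a - θ) a b
  have n8 := nm_add (a - θ) b (b + θ)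
  have h5 : (nm a b - ε / 8) * EE T ≤ nm (a + θ) (b - θ) * EE T := mul_le_mul_of_nonneg_right (by linarith) tE.le
  have h6 : nm (a - θ) (b + θ) * EE T ≤ (nm a b + ε / 8) * EE T := mul_le_mul_of_nonneg_right (by linarith) tE.le
  have h7 : 0 < ε * EE T := by positivity
  rw [abs_le]
  constructor <;> linarith

/-- tails from the law -/
lemma law_tail (h : LawB) {ε : ℝ} (hε : 0 < ε) (a : ℝ) : ∀ᶠ T : ℝ in atTop,
    (tail a - ε) * EE T ≤ tot T (fun s => sc s ∧ a < YY T s) := by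
  obtain ⟨M, hM, hM2⟩ := tail_large (show 0 < ε / 2 by positivity) a
  have haM : a < M := by linarith [le_abs_self a]
  filter_upwards [h a M haM (ε / 2) (by positivity), EE_pos] with T hT hE
  have h1 := (hM2 M le_rfl).2
  have h2 : tot T (fun s => sc s ∧ a < YY T s ∧ YY T s < M) ≤ tot T (fun s => sc s ∧ a < YY T s) :=
    tot_mono fun s _ hs => ⟨hs.1, hs.2.1⟩
  have h3 := (abs_le.1 hT).1
  have h4 : (tail a - ε / 2) * EE T ≤ nm a M * EE T := mul_le_mul_of_nonneg_right h1 hE.le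
  linarith

lemma tot_ex {ι : Type*} (F : Finset ι) (T : ℝ) (A : ι → ℂ → Prop) :
    tot T (fun s => ∃ j ∈ F, A j s) ≤ ∑ j ∈ F, tot T (A j) := by
  classical
  induction F using Finset.induction_on with
  | empty =>
    have h1 : tot T (fun s => ∃ j ∈ (∅ : Finset ι), A j s) = 0 := by
      unfold tot
      refine Finset.sum_eq_zero fun s _ => ind_neg (p := fun s => ∃ j ∈ (∅ : Finset ι), A j s) ?_
      rintro ⟨j, hj, -⟩
      exact Finset.notMem_empty j hj
    rw [h1, Finset.sum_empty]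
  | insert j0 F hj0 ih =>
    rw [Finset.sum_insert hj0]
    have h1 : tot T (fun s => ∃ j ∈ insert j0 F, A j s) ≤ tot T (fun s => A j0 s ∨ ∃ j ∈ F, A j s) := by
      refine tot_mono fun s _ hs => ?_
      obtain ⟨j, hj, hA⟩ := hs
      rw [Finset.mem_insert] at hj
      rcases hj with h | h
      · left; rw [← h]; exact hA
      · exact Or.inr ⟨j, h, hA⟩
    exact h1.trans ((tot_or _ _).trans (add_le_add le_rfl ih))

/-- the law gives isolated zeros -/
theorem iso_of_law (h : LawB) : IsoB := by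
  intro ε1 hε1 δ hδ
  obtain ⟨M, hM1, hM⟩ := bigG (show 0 < δ / 4 by positivity)
  obtain ⟨g, hg⟩ : ∃ g, g = ε1 / 4 := ⟨_, rfl⟩
  have hg0 : 0 < g := by rw [hg]; positivity
  obtain ⟨J, hJ⟩ : ∃ J : ℕ, (M + 2) / g ≤ J := exists_nat_ge _
  obtain ⟨δ', hδ'⟩ : ∃ δ', δ' = δ / (32 * (2 * J + 1)) := ⟨_, rfl⟩
  have hδ'0 : 0 < δ' := by rw [hδ']; positivity
  have hδ'1 : δ' ≤ δ / 4 := by
    rw [hδ', div_le_div_iff₀ (by positivity) (by norm_num)]
    have : (0:ℝ) ≤ J := Nat.cast_nonneg _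
    nlinarith
  obtain ⟨θ, hθ⟩ : ∃ θ, θ = min (min g 1) δ' := ⟨_, rfl⟩
  have hθ0 : 0 < θ := by rw [hθ]; positivity
  have hθg : θ ≤ g := by rw [hθ]; exact (min_le_left _ _).trans (min_le_left _ _)
  have hθ1 : θ ≤ 1 := by rw [hθ]; exact (min_le_left _ _).trans (min_le_right _ _)
  have hθδ : θ ≤ δ' := by rw [hθ]; exact min_le_right _ _
  obtain ⟨K0, hK0, hK⟩ := typical hθ0 hδ'0
  have hup : ∀ᶠ T : ℝ in atTop, ∀ j ∈ Finset.Icc (-(J:ℤ)) J,
      tot T (fun s => (j:ℝ) * g - θ ≤ XX T s.im) ≤ (tail ((j:ℝ) * g - θ) + δ') * EE T := by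
    rw [Filter.eventually_all_finset]
    intro j _
    exact upT hδ'0 _
  have hlo : ∀ᶠ T : ℝ in atTop, ∀ j ∈ Finset.Icc (-(J:ℤ)) J,
      (tail ((j:ℝ) * g) - δ') * EE T ≤ tot T (fun s => sc s ∧ (j:ℝ) * g < YY T s) := by
    rw [Filter.eventually_all_finset]
    intro j _
    exact law_tail h hδ'0 _
  filter_upwards [hK, hM M le_rfl, hup, hlo, EE_pos, Real.tendsto_log_atTop.eventually_ge_atTop 1,
    loglog_tt.eventually_ge_atTop (max 1 (2 / ε1))] with T tK tM tup tlo tE tL tS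
  obtain ⟨A, hA⟩ : ∃ A : ℤ → ℂ → Prop, A = fun (j : ℤ) s => typ θ K0 T s ∧ (j:ℝ) * g - θ < XX T s.im ∧
    ¬ (sc s ∧ (j:ℝ) * g < YY T s) := ⟨_, rfl⟩
  have hL0 : 0 < Real.log T := by linarith
  -- each class is small
  have hAj : ∀ j ∈ Finset.Icc (-(J:ℤ)) J, tot T (A j) ≤ 4 * δ' * EE T := by
    intro j hj
    have h1 : tot T (A j) + tot T (fun s => typ θ K0 T s ∧ sc s ∧ (j:ℝ) * g < YY T s) ≤
        tot T (fun s => (j:ℝ) * g - θ ≤ XX T s.im) := by
      rw [hA]
      refine tot_add (fun s _ h1 h2 => h1.2.2 h2.2) (fun s _ h1 => h1.2.1.le) (fun s _ h1 => ?_)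
      have := typ_le h1.1 h1.2.1
      linarith [h1.2.2]
    have h2 : tot T (fun s => sc s ∧ (j:ℝ) * g < YY T s) ≤
        tot T (fun s => typ θ K0 T s ∧ sc s ∧ (j:ℝ) * g < YY T s) + tot T (fun s => ¬ typ θ K0 T s) := by
      refine le_trans (tot_mono fun s _ hs => ?_) (tot_or _ _)
      by_cases h : typ θ K0 T s
      · exact Or.inl ⟨h, hs⟩
      · exact Or.inr h
    have h3 := tup j hj
    have h4 := tlo j hj
    have h5 := tail_split (a := (j:ℝ) * g - θ) (b := (j:ℝ) * g)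
    have h6 := nm_le_len (a := (j:ℝ) * g - θ) (b := (j:ℝ) * g) (by linarith)
    have h7 : (tail ((j:ℝ) * g - θ) + δ') * EE T ≤ (tail ((j:ℝ) * g) + δ' + δ') * EE T :=
      mul_le_mul_of_nonneg_right (by linarith) tE.le
    linarith
  -- the covering
  have hcov : tot T (fun s => ¬ (sc s ∧ iso ε1 T s)) ≤
      tot T (fun s => (¬ typ θ K0 T s) ∨ (M ≤ |XX T s.im| ∨ ∃ j ∈ Finset.Icc (-(J:ℤ)) J, A j s)) := by
    refine tot_mono fun s hs hb => ?_
    by_contra hcon
    rw [not_or, not_or, not_not] at hcon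
    obtain ⟨n1, n2, n3⟩ := hcon
    have n2' := not_le.1 n2
    have hX := abs_lt.1 n2'
    -- the grid point
    obtain ⟨j, hj⟩ : ∃ j : ℤ, j = ⌈(XX T s.im + θ) / g⌉ - 1 := ⟨_, rfl⟩
    have hj1 : (j:ℝ) * g < XX T s.im + θ := by
      have h1 : (j:ℝ) < (XX T s.im + θ) / g := by
        have := Int.ceil_lt_add_one ((XX T s.im + θ) / g)
        rw [hj]
        push_cast
        linarith
      rwa [lt_div_iff₀ hg0] at h1
    have hj2 : XX T s.im + θ ≤ (j:ℝ) * g + g := by
      have h1 : (XX T s.im + θ) / g ≤ (j:ℝ) + 1 := by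
        have := Int.le_ceil ((XX T s.im + θ) / g)
        rw [hj]
        push_cast
        linarith
      rw [div_le_iff₀ hg0] at h1
      linarith
    have hjJ : j ∈ Finset.Icc (-(J:ℤ)) J := by
      rw [div_le_iff₀ hg0] at hJ
      rw [Finset.mem_Icc]
      constructor
      · have h1 : (-(J:ℝ)) * g ≤ ((j:ℝ) + 1) * g := by linarith
        by_contra h2
        push Not at h2
        have h3 : (j:ℝ) + 1 ≤ -(J:ℝ) := by exact_mod_cast h2
        have h4 : ((j:ℝ) + 1) * g ≤ -(J:ℝ) * g := mul_le_mul_of_nonneg_right h3 hg0.le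
        linarith [hX.1]
      · have h1 : (j:ℝ) * g < (J:ℝ) * g := by linarith [hX.2]
        have h2 : (j:ℝ) < (J:ℝ) := lt_of_mul_lt_mul_right h1 hg0.le
        exact_mod_cast h2.le
    refine n3 ⟨j, hjJ, ?_⟩
    rw [hA]
    refine ⟨n1, by linarith, ?_⟩
    rintro ⟨h1, h2⟩
    -- the zero is simple and has a close neighbour
    have h3 : ¬ iso ε1 T s := fun h => hb ⟨h1, h⟩
    unfold iso at h3
    push Not at h3
    obtain ⟨w, hw1, hw2, hw3⟩ := h3
    obtain ⟨σ, hσ⟩ : ∃ σ, σ = Real.sqrt (Real.log (Real.log T)) := ⟨_, rfl⟩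
    rw [← hσ] at hw3 tS
    have hσ1 : 1 ≤ σ := (le_max_left _ _).trans tS
    have hσ0 : 0 < σ := by linarith
    have hσ2 : 2 ≤ ε1 * σ := by
      have := (le_max_right _ _).trans tS
      rw [div_le_iff₀ hε1] at this
      linarith
    have hpos : 0 < ‖s - w‖ := norm_pos_iff.2 (sub_ne_zero.2 hw2.symm)
    have hwn : w ∈ nb T s := by
      rw [mem_nb]
      refine ⟨hw1, hw2, hw3.trans ?_⟩
      rw [div_le_div_iff₀ hL0 (by positivity)]
      have h4 : Real.exp (-ε1 * σ) ≤ 1 / 4 := by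
        have h5 : Real.exp (-ε1 * σ) ≤ Real.exp (-2) := by
          rw [Real.exp_le_exp]; linarith
        have h6 : Real.exp (-2) ≤ 1 / 4 := by
          rw [Real.exp_neg, inv_eq_one_div, div_le_div_iff₀ (Real.exp_pos _) (by norm_num)]
          have h7 : (2:ℝ) ≤ Real.exp 1 := by
            have := Real.exp_one_gt_d9
            linarith
          have h8 : Real.exp 2 = Real.exp 1 * Real.exp 1 := by rw [← Real.exp_add]; norm_num
          rw [h8]
          nlinarith
        linarith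
      nlinarith
    have hDD : ε1 / 2 * σ ≤ DD T s := by
      have h4 : (mult riemannZeta w : ℝ) * Real.log (2 * (1 / (4 * Real.log T)) / ‖s - w‖) ≤ DD T s := by
        unfold DD
        refine Finset.single_le_sum (f := fun w => (mult riemannZeta w : ℝ) *
          Real.log (2 * (1 / (4 * Real.log T)) / ‖s - w‖)) (fun v hv => ?_) hwn
        obtain ⟨-, h5, h6⟩ := mem_nb.1 hv
        refine mul_nonneg (Nat.cast_nonneg _) (Real.log_nonneg ?_)
        have h7 : 0 < ‖s - v‖ := norm_pos_iff.2 (sub_ne_zero.2 h5.symm)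
        rw [le_div_iff₀ h7, one_mul]
        rw [norm_sub_rev] at h6
        have : 0 ≤ 1 / (4 * Real.log T) := by positivity
        linarith
      refine le_trans ?_ h4
      have h5 : Real.log (Real.exp (ε1 * σ) / 2) ≤ Real.log (2 * (1 / (4 * Real.log T)) / ‖s - w‖) := by
        refine Real.log_le_log (by positivity) ?_
        rw [le_div_iff₀ hpos]
        rw [norm_sub_rev] at hw3
        have h6 : Real.exp (ε1 * σ) * Real.exp (-ε1 * σ) = 1 := by
          rw [← Real.exp_add]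
          have : ε1 * σ + -ε1 * σ = 0 := by ring
          rw [this, Real.exp_zero]
        calc Real.exp (ε1 * σ) / 2 * ‖s - w‖ ≤ Real.exp (ε1 * σ) / 2 * (Real.exp (-ε1 * σ) / Real.log T) :=
              mul_le_mul_of_nonneg_left hw3 (by positivity)
          _ = (Real.exp (ε1 * σ) * Real.exp (-ε1 * σ)) * (1 / (2 * Real.log T)) := by field_simp
          _ = 2 * (1 / (4 * Real.log T)) := by rw [h6]; field_simp; norm_num
      rw [Real.log_div (Real.exp_pos _).ne' (by norm_num), Real.log_exp] at h5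
      have h6 : Real.log 2 ≤ 1 := by
        have := Real.log_two_lt_d9
        linarith
      have h7 : (1:ℝ) ≤ mult riemannZeta w := by
        by_contra h8
        push Not at h8
        have h9 : mult riemannZeta w = 0 := by
          have : mult riemannZeta w < 1 := by exact_mod_cast h8
          omega
        have hE0 : (0:ℝ) < EE T := tE
        have hT0 : 1 ≤ T := by
          by_contra h10
          push Not at h10
          have h11 : T * Real.log T ≤ 0 ∨ 0 < T := by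
            rcases le_or_gt T 0 with h | h
            · left; exact mul_nonpos_of_nonpos_of_nonneg h hL0.le
            · right; exact h
          rcases h11 with h | h
          · unfold EE at hE0
            have h12 := Real.pi_pos
            have : T * Real.log T / (2 * Real.pi) ≤ 0 := div_nonpos_of_nonpos_of_nonneg h (by positivity)
            linarith
          · have := Real.log_nonpos h.le h10.le
            linarith
        have h10 := (mem_Zb hT0).1 hw1
        have h11 := Loc.mult_pos' good_zeta (by linarith [h10.2.2.1]) h10.2.2.2.2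
        omega
      have h8 : ε1 / 2 * σ ≤ Real.log (2 * (1 / (4 * Real.log T)) / ‖s - w‖) := by linarith
      have h9 : 0 ≤ Real.log (2 * (1 / (4 * Real.log T)) / ‖s - w‖) := le_trans (by positivity) h8
      nlinarith
    have h4 := (abs_le.1 (n1.2.2 h1)).2
    rw [← hσ] at h4
    have h5 : ε1 / 2 ≤ Real.sqrt 2 * (DD T s / σ) := by
      have h6 : ε1 / 2 ≤ DD T s / σ := by rwa [le_div_iff₀ hσ0]
      have h7 : 0 ≤ DD T s / σ := div_nonneg DD_nonneg hσ0.le
      have := sq2'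
      nlinarith
    have h6 : ε1 / 2 = 2 * g := by rw [hg]; ring
    linarith
  have h1 := hcov.trans ((tot_or _ _).trans (add_le_add le_rfl (tot_or _ _)))
  have h2 := tot_ex (Finset.Icc (-(J:ℤ)) J) T A
  have h3 : ∑ j ∈ Finset.Icc (-(J:ℤ)) J, tot T (A j) ≤ ∑ _j ∈ Finset.Icc (-(J:ℤ)) J, 4 * δ' * EE T :=
    Finset.sum_le_sum hAj
  have h4 : ∑ _j ∈ Finset.Icc (-(J:ℤ)) J, 4 * δ' * EE T = δ / 8 * EE T := by
    rw [Finset.sum_const, Int.card_Icc, nsmul_eq_mul]
    have e1 : ((J:ℤ) + 1 - -(J:ℤ)).toNat = 2 * J + 1 := by omega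
    rw [e1, hδ']
    push_cast
    field_simp
    norm_num
  have h5 : δ' * EE T ≤ δ / 4 * EE T := mul_le_mul_of_nonneg_right hδ'1 tE.le
  have h6 : 0 < δ * EE T := by positivity
  linarith

end

end Pool.Agent.K4H6.GL
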