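import Pool.Agent.K4H6.GL.One

set_option autoImplicit false

/-! The derivative at almost all simple zeros, with the contribution of the zeros near them. -/

namespace Pool.Agent.K4H6.GL

open Filter Topology MeasureTheory Metric H370
open Pool.Agent.Y745.SW (Px)

noncomputable section

open Classical in
/-- sets with bounded overlap -/
lemma overlap {α : Type*} [MeasurableSpace α] (μ : Measure α) (F : Finset ℂ) (B : ℂ → Set α) (O : Set α)
    (hB : ∀ s ∈ F, MeasurableSet (B s)) (hsub : ∀ s ∈ F, B s ⊆ O) (hO : MeasurableSet O) {K : ℝ}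
    (h : ∀ x, ∀ s0 ∈ F, x ∈ B s0 → ∀ G : Finset ℂ, G ⊆ F → (∀ s ∈ G, x ∈ B s) → (G.card : ℝ) ≤ K) :
    ∑ s ∈ F, μ (B s) ≤ ENNReal.ofReal K * μ O := by
  have e1 : ∑ s ∈ F, μ (B s) = ∫⁻ x, ∑ s ∈ F, (B s).indicator (fun _ => (1:ENNReal)) x ∂μ := by
    rw [lintegral_finsetSum' _ fun s hs => (measurable_const.indicator (hB s hs)).aemeasurable]
    refine Finset.sum_congr rfl fun s hs => ?_
    rw [lintegral_indicator (hB s hs)]
    simp
  have e2 : ENNReal.ofReal K * μ O = ∫⁻ x, O.indicator (fun _ => ENNReal.ofReal K) x ∂μ := by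
    rw [lintegral_indicator hO]
    simp
  rw [e1, e2]
  refine lintegral_mono fun x => ?_
  have e3 : ∑ s ∈ F, (B s).indicator (fun _ => (1:ENNReal)) x = ((F.filter (fun s => x ∈ B s)).card : ENNReal) := by
    rw [Finset.card_filter]
    push_cast
    refine Finset.sum_congr rfl fun s _ => ?_
    by_cases h : x ∈ B s
    · rw [Set.indicator_of_mem h, if_pos h]
    · rw [Set.indicator_of_notMem h, if_neg h]
  rw [e3]
  by_cases hx : ∃ s0 ∈ F, x ∈ B s0
  · obtain ⟨s0, h1, h2⟩ := hx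
    rw [Set.indicator_of_mem (hsub s0 h1 h2), ← ENNReal.ofReal_natCast]
    refine ENNReal.ofReal_le_ofReal (h x s0 h1 h2 _ (Finset.filter_subset _ _) fun s hs => ?_)
    rw [Finset.mem_filter] at hs
    exact hs.2
  · have : F.filter (fun s => x ∈ B s) = ∅ := by
      rw [Finset.filter_eq_empty_iff]
      intro s hs hxs
      exact hx ⟨s, hs, hxs⟩
    rw [this]
    simp

open Classical in
lemma tot_card {T : ℝ} (p : ℂ → Prop) (h : ∀ s ∈ Zb T, p s → mult riemannZeta s = 1) :
    tot T p = (((Zb T).filter p).card : ℝ) := by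
  rw [tot_filter, Finset.card_eq_sum_ones]
  push_cast
  refine Finset.sum_congr rfl fun s hs => ?_
  rw [Finset.mem_filter] at hs
  rw [h s hs.1 hs.2]
  norm_num

/-- a good height near the zero -/
lemma good_height {γ w d : ℝ} {K0 : ℝ} (hw : 0 < w) (hK0 : 1 ≤ K0) (hd : d = w / (8 * K0)) (Y : Finset ℂ)
    (hY : (Y.card : ℝ) ≤ K0) {X : Set ℝ}
    (h : volume (X ∩ Set.Icc (γ + w / 2) (γ + w)) < ENNReal.ofReal (w / 4)) :
    ∃ t : ℝ, γ + w / 2 ≤ t ∧ t ≤ γ + w ∧ t ∉ X ∧ ∀ v ∈ Y, d ≤ |t - v.im| := by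
  by_contra hcon
  push Not at hcon
  have hd0 : 0 < d := by rw [hd]; positivity
  have h1 : Set.Icc (γ + w / 2) (γ + w) ⊆ (X ∩ Set.Icc (γ + w / 2) (γ + w)) ∪
      ⋃ v ∈ Y, Set.Ioo (v.im - d) (v.im + d) := by
    intro t ht
    by_cases hX : t ∈ X
    · exact Or.inl ⟨hX, ht⟩
    · obtain ⟨v, hv, hvd⟩ := hcon t ht.1 ht.2 hX
      right
      rw [Set.mem_iUnion₂]
      refine ⟨v, hv, ?_⟩
      rw [abs_lt] at hvd
      constructor <;> linarith [hvd.1, hvd.2]
  have h2 : volume (⋃ v ∈ Y, Set.Ioo (v.im - d) (v.im + d)) ≤ ENNReal.ofReal (w / 4) := by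
    refine (measure_biUnion_finset_le _ _).trans ?_
    have h3 : ∀ v ∈ Y, volume (Set.Ioo (v.im - d) (v.im + d)) = ENNReal.ofReal (2 * d) := by
      intro v _
      rw [Real.volume_Ioo]
      congr 1; ring
    rw [Finset.sum_congr rfl h3, Finset.sum_const, nsmul_eq_mul, ← ENNReal.ofReal_natCast,
      ← ENNReal.ofReal_mul (Nat.cast_nonneg _)]
    refine ENNReal.ofReal_le_ofReal ?_
    calc (Y.card : ℝ) * (2 * d) ≤ K0 * (2 * d) := mul_le_mul_of_nonneg_right hY (by linarith)
      _ = w / 4 := by rw [hd]; field_simp; ring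
  have h3 : volume (Set.Icc (γ + w / 2) (γ + w)) < ENNReal.ofReal (w / 4) + ENNReal.ofReal (w / 4) :=
    lt_of_le_of_lt ((measure_mono h1).trans (measure_union_le _ _)) (ENNReal.add_lt_add_of_lt_of_le (by
      exact ne_top_of_le_ne_top ENNReal.ofReal_ne_top h2) h h2)
  rw [Real.volume_Icc, ← ENNReal.ofReal_add (by positivity) (by positivity)] at h3
  have h4 : γ + w - (γ + w / 2) = w / 4 + w / 4 := by ring
  rw [h4] at h3
  exact lt_irrefl _ h3

open Classical in
/-- the derivative at almost all simple zeros -/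
theorem derD {ε K0 : ℝ} (hε : 0 < ε) (hK0 : 1 ≤ K0) : ∀ᶠ T : ℝ in atTop,
    tot T (fun s => (T + 5 * Real.log T < s.im ∧ s.im ≤ 2 * T - 5 * Real.log T) ∧ nr T s ≤ K0 ∧ s.re = 1 / 2 ∧
      mult riemannZeta s = 1 ∧ ε * Real.sqrt (Real.log (Real.log T)) <
        |Real.log ‖deriv riemannZeta s‖ + DD T s - Real.log (Real.log T) - (Px T s.im).re|) ≤ ε * EE T := by
  have hpi := Real.pi_pos
  obtain ⟨C, hC1, hH⟩ := Pool.Agent.Y655.SW.t_HAR
  obtain ⟨CA, hCA, hA⟩ := Pool.Agent.Y141.SW.ar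
  obtain ⟨M, hM1, hM⟩ := bigG (show 0 < ε / 4 by positivity)
  obtain ⟨K, hK⟩ : ∃ K : ℝ, K = 128 * Real.pi * K0 * CA / ε := ⟨_, rfl⟩
  have hK0' : 0 < K0 := by linarith
  have hKp : 0 < K := by rw [hK]; positivity
  have hC0 : 0 < C := by linarith
  obtain ⟨θ, hθ⟩ : ∃ θ : ℝ, θ = min (1 / 4) (ε / (4 * C * (K + K0 + M + 1))) := ⟨_, rfl⟩
  have hθ0 : 0 < θ := by
    rw [hθ]
    refine lt_min (by norm_num) (by positivity)
  have hθ4 : θ ≤ 1 / 4 := by rw [hθ]; exact min_le_left _ _
  have hCθ : C * θ * (K + K0 + M + 1) ≤ ε / 4 := by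
    have h1 : θ ≤ ε / (4 * C * (K + K0 + M + 1)) := by rw [hθ]; exact min_le_right _ _
    calc C * θ * (K + K0 + M + 1) ≤ C * (ε / (4 * C * (K + K0 + M + 1))) * (K + K0 + M + 1) := by gcongr
      _ = ε / 4 := by field_simp
  obtain ⟨η, hη⟩ : ∃ η : ℝ, η = min (ε / 8) (1 / 2) := ⟨_, rfl⟩
  have hη0 : 0 < η := by rw [hη]; positivity
  have hη1 : η ≤ ε / 8 := by rw [hη]; exact min_le_left _ _
  have hη2 : η ≤ 1 / 2 := by rw [hη]; exact min_le_right _ _
  obtain ⟨W, hW, hX⟩ := Pool.Agent.Y141.SW.exc Pool.Agent.Y895.SW.t_BV Pool.Agent.Y895.SW.t_DX Pool.Agent.Y141.SW.ll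
    η (ε * θ / (128 * Real.pi * K0)) hη0 (by positivity)
  obtain ⟨D, hD⟩ : ∃ D : ℝ, D = K0 * Real.log (16 * K0 / θ) + |Real.log (θ / 8)| + W := ⟨_, rfl⟩
  filter_upwards [hA, hX, hM M le_rfl, loglog_tt.eventually_ge_atTop (max 1 (max (4 * D / ε) (2 * W))),
    Real.tendsto_log_atTop.eventually_ge_atTop 1, eventually_ge_atTop (100 : ℝ),
    log_small 10 1 (show (0:ℝ) < 1 by norm_num), EE_pos]
    with T hAT hXT hMT hST hL1 hT100 tsm tEE
  rw [pow_one] at tsm
  set L := Real.log T with hL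
  set S := Real.sqrt (Real.log L) with hS
  have hT0 : 0 < T := by linarith
  have hL0 : 0 < L := by linarith
  have hS1 : 1 ≤ S := (le_max_left _ _).trans hST
  have hSD : D ≤ ε / 4 * S := by
    have h1 : 4 * D / ε ≤ S := (le_max_left _ _).trans ((le_max_right _ _).trans hST)
    rw [div_le_iff₀ hε] at h1
    linarith
  have hSW : W ≤ S / 2 := by
    have h1 : 2 * W ≤ S := (le_max_right _ _).trans ((le_max_right _ _).trans hST)
    linarith
  obtain ⟨X, hXv, hXs⟩ := hXT
  obtain ⟨r, hr⟩ : ∃ r : ℝ, r = 1 / (4 * L) := ⟨_, rfl⟩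
  have hr0 : 0 < r := by rw [hr]; positivity
  have hrL : r * L = 1 / 4 := by rw [hr]; field_simp
  obtain ⟨w, hw⟩ : ∃ w : ℝ, w = θ * r := ⟨_, rfl⟩
  have hw0 : 0 < w := by rw [hw]; positivity
  have hwr : w ≤ r := by rw [hw]; nlinarith
  obtain ⟨d, hd⟩ : ∃ d : ℝ, d = w / (8 * K0) := ⟨_, rfl⟩
  have hd0 : 0 < d := by rw [hd]; positivity
  have hdr : d ≤ r := by
    refine le_trans ?_ hwr
    rw [hd, div_le_iff₀ (by positivity)]
    nlinarith
  have h2rd : 2 * r / d = 16 * K0 / θ := by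
    rw [hd, hw]
    field_simp
    norm_num
  -- the classes
  obtain ⟨q, hq⟩ : ∃ q : ℂ → Prop, q = fun s => (T + 5 * L < s.im ∧ s.im ≤ 2 * T - 5 * L) ∧ nr T s ≤ K0 ∧
    s.re = 1 / 2 ∧ mult riemannZeta s = 1 := ⟨_, rfl⟩
  obtain ⟨pA, hpA⟩ : ∃ pA : ℂ → Prop, pA = fun s => q s ∧ ENNReal.ofReal (K * S * r ^ 2) <
      ∫⁻ w in ball s (1 / L), ENNReal.ofReal |Real.log ‖riemannZeta w‖| := ⟨_, rfl⟩
  obtain ⟨pX, hpX⟩ : ∃ pX : ℂ → Prop, pX = fun s => q s ∧ ENNReal.ofReal (w / 4) ≤
      volume (X ∩ Set.Icc (s.im + w / 2) (s.im + w)) := ⟨_, rfl⟩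
  have hcases : tot T (fun s => (T + 5 * L < s.im ∧ s.im ≤ 2 * T - 5 * L) ∧ nr T s ≤ K0 ∧ s.re = 1 / 2 ∧
      mult riemannZeta s = 1 ∧ ε * S <
        |Real.log ‖deriv riemannZeta s‖ + DD T s - Real.log L - (Px T s.im).re|) ≤
      tot T (fun s => M ≤ |XX T s.im|) + (tot T pA + tot T pX) := by
    have h1 : tot T (fun s => (T + 5 * L < s.im ∧ s.im ≤ 2 * T - 5 * L) ∧ nr T s ≤ K0 ∧ s.re = 1 / 2 ∧
      mult riemannZeta s = 1 ∧ ε * S <
        |Real.log ‖deriv riemannZeta s‖ + DD T s - Real.log L - (Px T s.im).re|) ≤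
        tot T (fun s => M ≤ |XX T s.im| ∨ (pA s ∨ pX s)) := by
      refine tot_mono fun s hs hb => ?_
      obtain ⟨⟨hs1, hs2⟩, hs3, hs4, hs5, hs6⟩ := hb
      by_contra hcon
      rw [not_or, not_or, hpA, hpX] at hcon
      obtain ⟨n1, n2, n3⟩ := hcon
      have hqs : q s := by rw [hq]; exact ⟨⟨hs1, hs2⟩, hs3, hs4, hs5⟩
      have n2' : ∫⁻ w in ball s (1 / L), ENNReal.ofReal |Real.log ‖riemannZeta w‖| ≤
          ENNReal.ofReal (K * S * r ^ 2) := by
        by_contra h; exact n2 ⟨hqs, not_le.1 h⟩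
      have n3' : volume (X ∩ Set.Icc (s.im + w / 2) (s.im + w)) < ENNReal.ofReal (w / 4) := by
        by_contra h; exact n3 ⟨hqs, not_lt.1 h⟩
      have n1' := not_le.1 n1
      have hcard : ((nb T s).card : ℝ) ≤ K0 :=
        (card_le_mult (by linarith) fun w hw => (mem_nb.1 hw).1).trans ((nb_le hL0 s).trans hs3)
      obtain ⟨t, ht1, ht2, ht3, ht4⟩ := good_height hw0 hK0 hd (nb T s) hcard n3'
      have htT : t ∈ Set.Icc T (2 * T) := by
        have hr1 : r ≤ 1 := by
          rw [hr, div_le_one (by positivity)]; linarith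
        exact ⟨by linarith, by linarith⟩
      obtain ⟨hz, hloc⟩ := hXs t htT ht3
      have hP : -M * S ≤ (Px T s.im).re := by
        unfold XX at n1'
        rw [← hL, ← hS, abs_mul, abs_of_nonneg (Real.sqrt_nonneg 2), abs_div, abs_of_pos (by linarith : 0 < S)] at n1'
        have h3 : |(Px T s.im).re| / S ≤ Real.sqrt 2 * (|(Px T s.im).re| / S) := by
          have h4 : 1 ≤ Real.sqrt 2 := by rw [Real.one_le_sqrt]; norm_num
          have h5 : 0 ≤ |(Px T s.im).re| / S := by positivity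
          nlinarith
        have h4 : |(Px T s.im).re| / S < M := lt_of_le_of_lt h3 n1'
        rw [div_lt_iff₀ (by linarith)] at h4
        have := neg_abs_le (Px T s.im).re
        linarith
      have hmain := one_zeroD (C := C) (θ := θ) (K := K) (K0 := K0) (K2 := M) (S := S) (L := L) (W := W) (η := η)
        (T := T) (r := r) (d := d) hC1 hθ0 hθ4 hKp hS1 hL1 hL hr hd0 hdr (by linarith) hH hs hs4 hs1 hs2 hs5 hs3
        n2' (t := t) (by rw [← hw]; exact ht1) (by rw [← hw]; exact ht2) ht4 hz hloc hP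
      rw [h2rd] at hmain
      have hlog2 : Real.log 2 ≤ 1 := by
        have := Real.log_two_lt_d9
        linarith
      have h5 : K * S + K0 * Real.log 2 + M * S + W + η * S ≤ (K + K0 + M + 1) * S := by
        have h6 : K0 * Real.log 2 ≤ K0 * S := mul_le_mul_of_nonneg_left (by linarith) hK0'.le
        have h7 : η * S ≤ 1 / 2 * S := mul_le_mul_of_nonneg_right hη2 (by linarith)
        linarith
      have h6 : C * θ * (K * S + K0 * Real.log 2 + M * S + W + η * S) ≤ ε / 4 * S := by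
        calc C * θ * (K * S + K0 * Real.log 2 + M * S + W + η * S) ≤ C * θ * ((K + K0 + M + 1) * S) :=
              mul_le_mul_of_nonneg_left h5 (by positivity)
          _ = C * θ * (K + K0 + M + 1) * S := by ring
          _ ≤ _ := mul_le_mul_of_nonneg_right hCθ (by linarith)
      have h7 : η * S ≤ ε / 8 * S := mul_le_mul_of_nonneg_right hη1 (by linarith)
      have h8 : 0 < ε * S := by positivity
      rw [hD] at hSD
      linarith
    exact h1.trans ((tot_or _ _).trans (add_le_add le_rfl (tot_or _ _)))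
  -- bounded overlap
  have hover : ∀ (F : Finset ℂ), F ⊆ Zb T → ∀ s0 : ℂ, nr T s0 ≤ K0 → (∀ s ∈ F, |s.im - s0.im| ≤ 2 / L) →
      (F.card : ℝ) ≤ K0 := fun F h1 s0 h2 h3 => (card_le_mult (by linarith) h1).trans ((near_nr h1 h3).trans h2)
  -- the area class
  have hcA : tot T pA ≤ ε / 4 * EE T := by
    rw [tot_card pA (fun s _ h => by rw [hpA, hq] at h; exact h.1.2.2.2)]
    obtain ⟨F, hF⟩ : ∃ F : Finset ℂ, F = (Zb T).filter pA := ⟨_, rfl⟩
    rw [← hF]
    have hFp : ∀ s ∈ F, s ∈ Zb T ∧ q s ∧ ENNReal.ofReal (K * S * r ^ 2) <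
      ∫⁻ w in ball s (1 / L), ENNReal.ofReal |Real.log ‖riemannZeta w‖| := by
      intro s hs
      rw [hF, Finset.mem_filter, hpA] at hs
      exact hs
    have hfm : Measurable fun w : ℂ => ENNReal.ofReal |Real.log ‖riemannZeta w‖| := by
      have := Pool.Agent.W354.ZP.zeta_meas.norm
      fun_prop
    obtain ⟨O, hO⟩ : ∃ O : Set ℂ, O = {z : ℂ | z.re ∈ Set.Ioo (1 / 2 - 1 / L) (1 / 2 + 1 / L) ∧
      z.im ∈ Set.Ioo 0 (2 * T)} := ⟨_, rfl⟩
    have hOm : MeasurableSet O := by
      rw [hO]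
      exact (Complex.measurable_re measurableSet_Ioo).inter (Complex.measurable_im measurableSet_Ioo)
    have h1 := overlap (volume.withDensity fun w : ℂ => ENNReal.ofReal |Real.log ‖riemannZeta w‖|) F
      (fun s => ball s (1 / L)) O (fun s _ => measurableSet_ball) (fun s hs z hz => by
        obtain ⟨p1, p2, p3⟩ := hFp s hs
        rw [hq] at p2
        obtain ⟨⟨p4, p5⟩, p6, p7, p8⟩ := p2
        rw [mem_ball, dist_eq_norm] at hz
        have h1 := (Complex.abs_re_le_norm (z - s)).trans_lt hz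
        have h2 := (Complex.abs_im_le_norm (z - s)).trans_lt hz
        rw [Complex.sub_re, p7, abs_lt] at h1
        rw [Complex.sub_im, abs_lt] at h2
        have h3 : 1 / L ≤ 1 := by rw [div_le_one hL0]; exact hL1
        rw [hO]
        exact ⟨⟨by linarith [h1.1], by linarith [h1.2]⟩, ⟨by linarith [h2.1], by linarith [h2.2]⟩⟩) hOm (K := K0)
      (fun x s0 hs0 hx G hG hGx => by
        refine hover G (fun s hs => (hFp s (hG hs)).1) s0 ?_ ?_
        · have := (hFp s0 hs0).2.1
          rw [hq] at this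
          exact this.2.1
        · intro s hs
          have h3 := hGx s hs
          rw [mem_ball, dist_eq_norm] at hx h3
          have h4 := Complex.abs_im_le_norm (s - s0)
          have h5 := norm_sub_le (x - s0) (x - s)
          rw [sub_sub_sub_cancel_left] at h5
          rw [Complex.sub_im] at h4
          have h6 : 2 / L = 1 / L + 1 / L := by ring
          rw [h6]
          linarith)
    have h2 : (F.card : ENNReal) * ENNReal.ofReal (K * S * r ^ 2) ≤
        ENNReal.ofReal K0 * ENNReal.ofReal (CA * (S * (T * (1 / L)))) := by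
      calc (F.card : ENNReal) * ENNReal.ofReal (K * S * r ^ 2) = ∑ _s ∈ F, ENNReal.ofReal (K * S * r ^ 2) := by
            rw [Finset.sum_const, nsmul_eq_mul]
        _ ≤ ∑ s ∈ F, (volume.withDensity fun w : ℂ => ENNReal.ofReal |Real.log ‖riemannZeta w‖|) (ball s (1 / L)) := by
            refine Finset.sum_le_sum fun s hs => ?_
            rw [withDensity_apply _ measurableSet_ball]
            exact (hFp s hs).2.2.le
        _ ≤ _ := h1
        _ ≤ _ := by
            refine mul_le_mul' le_rfl ?_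
            rw [withDensity_apply _ hOm, hO]
            refine hAT (1 / L) ?_ le_rfl
            exact one_div_le_one_div_of_le hL0 (by linarith)
    rw [← ENNReal.ofReal_mul hK0'.le, ← ENNReal.ofReal_natCast, ← ENNReal.ofReal_mul (Nat.cast_nonneg _),
      ENNReal.ofReal_le_ofReal_iff (by positivity)] at h2
    have h3 : (F.card : ℝ) * (K * S * r ^ 2) * (16 * L ^ 2) = (F.card : ℝ) * (K * S) := by
      rw [hr]; field_simp; norm_num
    have h4 : K0 * (CA * (S * (T * (1 / L)))) * (16 * L ^ 2) = 16 * K0 * CA * S * T * L := by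
      field_simp
    have h5 := mul_le_mul_of_nonneg_right h2 (by positivity : 0 ≤ 16 * L ^ 2)
    rw [h3, h4] at h5
    have h6 : ε / 4 * EE T * (K * S) = 16 * K0 * CA * S * T * L := by
      unfold EE
      rw [hK, ← hL]
      field_simp
      norm_num
    rw [← h6] at h5
    exact le_of_mul_le_mul_right h5 (by positivity)
  -- the class without good heights
  have hcX : tot T pX ≤ ε / 4 * EE T := by
    rw [tot_card pX (fun s _ h => by rw [hpX, hq] at h; exact h.1.2.2.2)]
    obtain ⟨F, hF⟩ : ∃ F : Finset ℂ, F = (Zb T).filter pX := ⟨_, rfl⟩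
    rw [← hF]
    have hFp : ∀ s ∈ F, s ∈ Zb T ∧ q s ∧ ENNReal.ofReal (w / 4) ≤
      volume (X ∩ Set.Icc (s.im + w / 2) (s.im + w)) := by
      intro s hs
      rw [hF, Finset.mem_filter, hpX] at hs
      exact hs
    have h1 := overlap (volume.restrict X) F
      (fun s => Set.Icc (s.im + w / 2) (s.im + w)) Set.univ (fun s _ => measurableSet_Icc) (fun s _ => Set.subset_univ _)
      MeasurableSet.univ (K := K0)
      (fun x s0 hs0 hx G hG hGx => by
        refine hover G (fun s hs => (hFp s (hG hs)).1) s0 ?_ ?_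
        · have := (hFp s0 hs0).2.1
          rw [hq] at this
          exact this.2.1
        · intro s hs
          have h3 := hGx s hs
          have h4 : w ≤ 2 / L := by
            refine hwr.trans ?_
            rw [hr, div_le_div_iff₀ (by positivity) hL0]
            linarith
          rw [abs_le]
          constructor <;> linarith [h3.1, h3.2, hx.1, hx.2])
    have h2 : (F.card : ENNReal) * ENNReal.ofReal (w / 4) ≤
        ENNReal.ofReal K0 * ENNReal.ofReal (ε * θ / (128 * Real.pi * K0) * T) := by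
      calc (F.card : ENNReal) * ENNReal.ofReal (w / 4) = ∑ _s ∈ F, ENNReal.ofReal (w / 4) := by
            rw [Finset.sum_const, nsmul_eq_mul]
        _ ≤ ∑ s ∈ F, (volume.restrict X) (Set.Icc (s.im + w / 2) (s.im + w)) := by
            refine Finset.sum_le_sum fun s hs => ?_
            rw [Measure.restrict_apply measurableSet_Icc, Set.inter_comm]
            exact (hFp s hs).2.2
        _ ≤ _ := h1
        _ ≤ _ := by
            refine mul_le_mul' le_rfl ?_
            rw [Measure.restrict_apply_univ]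
            exact hXv
    rw [← ENNReal.ofReal_mul hK0'.le, ← ENNReal.ofReal_natCast, ← ENNReal.ofReal_mul (Nat.cast_nonneg _),
      ENNReal.ofReal_le_ofReal_iff (by positivity)] at h2
    have h3 : (F.card : ℝ) * (w / 4) = (F.card : ℝ) * (θ / (16 * L)) := by
      rw [hw, hr]; field_simp; norm_num
    have h6 : K0 * (ε * θ / (128 * Real.pi * K0) * T) = ε / 4 * EE T * (θ / (16 * L)) := by
      unfold EE
      rw [← hL]
      field_simp
      norm_num
    rw [h3, h6] at h2
    exact le_of_mul_le_mul_right h2 (by positivity)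
  have h9 : 0 < ε * EE T := by positivity
  linarith

end

end Pool.Agent.K4H6.GL
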