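import Pool.Agent.K4H6.GL.OneG
import Pool.Agent.K4H6.GL.Ar
import Pool.Agent.K4H6.GL.Two

set_option autoImplicit false

/-! The leading coefficient at almost all zeros, with the contribution of the zeros near them. -/

namespace Pool.Agent.K4H6.GL

open Filter Topology MeasureTheory Metric H370
open Pool.Agent.Y745.SW (Px)

noncomputable section

/-- the typical zeros -/
def good (R K0 ε T : ℝ) (s : ℂ) : Prop :=
  (T + 5 * Real.log T < s.im ∧ s.im ≤ 2 * T - 5 * Real.log T) ∧ nrA (6 * R) T s ≤ K0 ∧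
    |QQ R T s - (Px T s.im).re| ≤ ε * Real.sqrt (Real.log (Real.log T))

lemma sum_conv (F : Finset ℂ) (a : ENNReal) : (ENNReal.ofReal (∑ s ∈ F, (mult riemannZeta s : ℝ))) * a =
    ∑ s ∈ F, (mult riemannZeta s : ENNReal) * a := by
  rw [ENNReal.ofReal_sum_of_nonneg fun _ _ => Nat.cast_nonneg _, Finset.sum_mul]
  refine Finset.sum_congr rfl fun s _ => ?_
  rw [ENNReal.ofReal_natCast]

open Classical in
/-- the leading coefficient at almost all zeros -/
theorem leadG {ε : ℝ} (hε : 0 < ε) : ∃ R K0 : ℝ, 1 ≤ R ∧ 1 ≤ K0 ∧ ∀ᶠ T : ℝ in atTop,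
    tot T (fun s => ¬ good R K0 ε T s) ≤ ε * EE T := by
  have hpi := Real.pi_pos
  obtain ⟨C, hC1, hH⟩ := Pool.Agent.Y655.SW.t_HAR
  obtain ⟨CA, hCA, hA⟩ := arA
  obtain ⟨M, hM1, hM⟩ := bigG (show 0 < ε / 6 by positivity)
  obtain ⟨A0, hA01, hfar⟩ := farA (show 0 < ε / 6 by positivity)
  obtain ⟨A1, hA11, hcr⟩ := crowdA (show 0 < ε / 6 by positivity)
  obtain ⟨K, hK⟩ : ∃ K : ℝ, K = 576 * Real.pi * CA / ε := ⟨_, rfl⟩
  have hKp : 0 < K := by rw [hK]; positivity
  have hC0 : 0 < C := by linarith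
  obtain ⟨θ, hθ⟩ : ∃ θ : ℝ, θ = min (1 / 4) (ε / (4 * C * (K + M + 1))) := ⟨_, rfl⟩
  have hθ0 : 0 < θ := by
    rw [hθ]
    refine lt_min (by norm_num) (by positivity)
  have hθ4 : θ ≤ 1 / 4 := by rw [hθ]; exact min_le_left _ _
  have hCθ : C * θ * (K + M + 1) ≤ ε / 4 := by
    have h1 : θ ≤ ε / (4 * C * (K + M + 1)) := by rw [hθ]; exact min_le_right _ _
    calc C * θ * (K + M + 1) ≤ C * (ε / (4 * C * (K + M + 1))) * (K + M + 1) := by gcongr
      _ = ε / 4 := by field_simp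
  obtain ⟨R, hR⟩ : ∃ R : ℝ, R = max (2 * A0 / θ) A1 := ⟨_, rfl⟩
  have hRA1 : A1 ≤ R := by rw [hR]; exact le_max_right _ _
  have hR1 : 1 ≤ R := hA11.trans hRA1
  have hR0 : 0 < R := by linarith
  have hRA : 2 * A0 ≤ θ * R := by
    have h1 : 2 * A0 / θ ≤ R := by rw [hR]; exact le_max_left _ _
    rw [div_le_iff₀ hθ0] at h1
    linarith
  have hA08 : A0 ≤ R / 8 := by nlinarith
  obtain ⟨K0, hK0⟩ : ∃ K0 : ℝ, K0 = 12 * R := ⟨_, rfl⟩
  have hK01 : 1 ≤ K0 := by rw [hK0]; linarith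
  have hK0' : 0 < K0 := by linarith
  refine ⟨R, K0, hR1, hK01, ?_⟩
  obtain ⟨η, hη⟩ : ∃ η : ℝ, η = min (ε / 8) (1 / 2) := ⟨_, rfl⟩
  have hη0 : 0 < η := by rw [hη]; positivity
  have hη1 : η ≤ ε / 8 := by rw [hη]; exact min_le_left _ _
  have hη2 : η ≤ 1 / 2 := by rw [hη]; exact min_le_right _ _
  obtain ⟨W, hW, hX⟩ := Pool.Agent.Y141.SW.exc Pool.Agent.Y895.SW.t_BV Pool.Agent.Y895.SW.t_DX Pool.Agent.Y141.SW.ll
    η (ε / (48 * Real.pi * K0)) hη0 (by positivity)
  obtain ⟨D, hD⟩ : ∃ D : ℝ, D = C * θ * (K0 + W) + K0 * Real.log (16 * K0 * R) + W := ⟨_, rfl⟩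
  filter_upwards [hA (4 * R) (by linarith), hX, hM M le_rfl, hfar, hcr (6 * R) (by linarith),
    tot_ends (show (1:ℝ) ≤ 5 by norm_num) (show 0 < ε / 6 by positivity),
    loglog_tt.eventually_ge_atTop (max 1 (4 * D / ε)),
    Real.tendsto_log_atTop.eventually_ge_atTop (4 * R), eventually_ge_atTop (100 : ℝ),
    log_small 10 1 (show (0:ℝ) < 1 by norm_num), EE_pos]
    with T hAT hXT hMT hfT hcT heT hST hLR hT100 tsm tEE
  rw [pow_one] at tsm
  set L := Real.log T with hL
  set S := Real.sqrt (Real.log L) with hS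
  have hT0 : 0 < T := by linarith
  have hL1 : 1 ≤ L := by linarith
  have hL0 : 0 < L := by linarith
  have hS1 : 1 ≤ S := (le_max_left _ _).trans hST
  have hSD : D ≤ ε / 4 * S := by
    have h1 : 4 * D / ε ≤ S := (le_max_right _ _).trans hST
    rw [div_le_iff₀ hε] at h1
    linarith
  obtain ⟨X, hXv, hXs⟩ := hXT
  obtain ⟨r, hr⟩ : ∃ r : ℝ, r = R / L := ⟨_, rfl⟩
  have hr0 : 0 < r := by rw [hr]; positivity
  have hrL : r * L = R := by rw [hr]; field_simp
  have hr4 : r ≤ 1 / 4 := by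
    rw [hr, div_le_div_iff₀ hL0 (by norm_num)]
    linarith
  obtain ⟨w, hw⟩ : ∃ w : ℝ, w = 1 / L := ⟨_, rfl⟩
  have hw0 : 0 < w := by rw [hw]; positivity
  have hwr : w ≤ r := by rw [hw, hr]; gcongr
  obtain ⟨d, hd⟩ : ∃ d : ℝ, d = w / (8 * K0) := ⟨_, rfl⟩
  have hd0 : 0 < d := by rw [hd]; positivity
  have hdr : d ≤ r := by
    refine le_trans ?_ hwr
    rw [hd, div_le_iff₀ (by positivity)]
    nlinarith
  have h2rd : 2 * r / d = 16 * K0 * R := by
    rw [hd, hw, hr]
    field_simp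
    norm_num
  -- the classes
  obtain ⟨q, hq⟩ : ∃ q : ℂ → Prop, q = fun s => (T + 5 * L < s.im ∧ s.im ≤ 2 * T - 5 * L) ∧ nrA (6 * R) T s ≤ K0 ∧
    |s.re - 1 / 2| ≤ A0 / L := ⟨_, rfl⟩
  obtain ⟨pA, hpA⟩ : ∃ pA : ℂ → Prop, pA = fun s => q s ∧ ENNReal.ofReal (K * S * r ^ 2) <
      ∫⁻ w in ball s (3 * r), ENNReal.ofReal |Real.log ‖riemannZeta w‖| := ⟨_, rfl⟩
  obtain ⟨pX, hpX⟩ : ∃ pX : ℂ → Prop, pX = fun s => q s ∧ ENNReal.ofReal (w / 4) ≤
      volume (X ∩ Set.Icc (s.im + w / 2) (s.im + w)) := ⟨_, rfl⟩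
  have hcases : tot T (fun s => ¬ good R K0 ε T s) ≤ tot T (fun s => M ≤ |XX T s.im|) + ((tot T pA + tot T pX) +
      (tot T (fun s => A0 / L < |s.re - 1 / 2|) + (tot T (fun s => 2 * (6 * R) < nrA (6 * R) T s) +
        tot T (fun s => ¬ (T + 5 * L < s.im ∧ s.im ≤ 2 * T - 5 * L))))) := by
    have h1 : tot T (fun s => ¬ good R K0 ε T s) ≤
        tot T (fun s => M ≤ |XX T s.im| ∨ ((pA s ∨ pX s) ∨ (A0 / L < |s.re - 1 / 2| ∨
          (2 * (6 * R) < nrA (6 * R) T s ∨ ¬ (T + 5 * L < s.im ∧ s.im ≤ 2 * T - 5 * L))))) := by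
      refine tot_mono fun s hs hb => ?_
      by_contra hcon
      rw [not_or, not_or, not_or, not_or, not_or, hpA, hpX] at hcon
      obtain ⟨n1, ⟨n2, n3⟩, n4, n5, n6⟩ := hcon
      rw [not_not] at n6
      have n4' := not_lt.1 n4
      have hs3 : nrA (6 * R) T s ≤ K0 := by
        have := not_lt.1 n5
        rw [hK0]
        linarith
      obtain ⟨hs1, hs2⟩ := n6
      have hqs : q s := by rw [hq]; exact ⟨⟨hs1, hs2⟩, hs3, n4'⟩
      have n2' : ∫⁻ w in ball s (3 * r), ENNReal.ofReal |Real.log ‖riemannZeta w‖| ≤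
          ENNReal.ofReal (K * S * r ^ 2) := by
        by_contra h; exact n2 ⟨hqs, not_le.1 h⟩
      have n3' : volume (X ∩ Set.Icc (s.im + w / 2) (s.im + w)) < ENNReal.ofReal (w / 4) := by
        by_contra h; exact n3 ⟨hqs, not_lt.1 h⟩
      have n1' := not_le.1 n1
      have hsub : insert s (nbG R T s) ⊆ Zb T := by
        intro v hv
        rw [Finset.mem_insert] at hv
        rcases hv with h | h
        · rw [h]; exact hs
        · exact (mem_nbG.1 h).1
      have hcard : ((insert s (nbG R T s)).card : ℝ) ≤ K0 := by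
        refine (card_le_multG (by linarith) hsub).trans ?_
        rw [Finset.sum_insert notMem_nbG]
        exact (nbG_le hR0 hL0 hs).trans hs3
      obtain ⟨t, ht1, ht2, ht3, ht4⟩ := good_height hw0 hK01 hd (insert s (nbG R T s)) hcard n3'
      have htT : t ∈ Set.Icc T (2 * T) := ⟨by linarith, by linarith⟩
      obtain ⟨hz, hloc⟩ := hXs t htT ht3
      have hP : -M * S ≤ (Px T s.im).re := by
        unfold XX at n1'
        rw [← hL, ← hS, abs_mul, abs_of_nonneg (Real.sqrt_nonneg 2), abs_div, abs_of_pos (by linarith : 0 < S)] at n1'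
        have h3 : |(Px T s.im).re| / S ≤ Real.sqrt 2 * (|(Px T s.im).re| / S) := by
          have h4 : 1 ≤ Real.sqrt 2 := by rw [Real.one_le_sqrt]; norm_num
          have h5 : 0 ≤ |(Px T s.im).re| / S := by positivity
          nlinarith
        have h4 : |(Px T s.im).re| / S < M := lt_of_le_of_lt h3 n1'
        rw [div_lt_iff₀ (by linarith)] at h4
        have := neg_abs_le (Px T s.im).re
        linarith
      have hmain := one_zeroG (C := C) (θ := θ) (K := K) (K0 := K0) (K2 := M) (S := S) (L := L) (W := W) (η := η)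
        (T := T) (r := r) (d := d) (R := R) (A0 := A0) hC1 hθ0 hθ4 hKp hS1 hL1 hL hr hR1 hr4 hd0 hdr (by linarith)
        hA01 hRA hH hs n4' hs1 hs2 hs3 n2' (t := t) (by rw [← hw]; exact ht1) (by rw [← hw]; exact ht2)
        (fun v hv => ht4 v (Finset.mem_insert.2 hv)) hz hloc hP
      rw [h2rd] at hmain
      refine hb ⟨⟨hs1, hs2⟩, hs3, hmain.trans ?_⟩
      have hlog2 : Real.log 2 ≤ 1 := by
        have := Real.log_two_lt_d9
        linarith
      have h5 : K * S + K0 * Real.log 2 + M * S + W + η * S ≤ (K + M + 1) * S + (K0 + W) := by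
        have h6 : K0 * Real.log 2 ≤ K0 := mul_le_of_le_one_right hK0'.le hlog2
        have h7 : η * S ≤ 1 / 2 * S := mul_le_mul_of_nonneg_right hη2 (by linarith)
        linarith
      have h6 : C * θ * (K * S + K0 * Real.log 2 + M * S + W + η * S) ≤ ε / 4 * S + C * θ * (K0 + W) := by
        calc C * θ * (K * S + K0 * Real.log 2 + M * S + W + η * S) ≤ C * θ * ((K + M + 1) * S + (K0 + W)) :=
              mul_le_mul_of_nonneg_left h5 (by positivity)
          _ = C * θ * (K + M + 1) * S + C * θ * (K0 + W) := by ring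
          _ ≤ _ := add_le_add (mul_le_mul_of_nonneg_right hCθ (by linarith)) le_rfl
      have h7 : η * S ≤ ε / 8 * S := mul_le_mul_of_nonneg_right hη1 (by linarith)
      have h8 : 0 < ε * S := by positivity
      rw [hD] at hSD
      change _ ≤ ε * S
      linarith
    refine h1.trans ((tot_or _ _).trans (add_le_add le_rfl ((tot_or _ _).trans (add_le_add (tot_or _ _)
      ((tot_or _ _).trans (add_le_add le_rfl (tot_or _ _)))))))
  -- bounded overlap
  have hover : ∀ (F : Finset ℂ), F ⊆ Zb T → ∀ s0 : ℂ, nrA (6 * R) T s0 ≤ K0 →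
      (∀ s ∈ F, |s.im - s0.im| ≤ 6 * R / L) →
      ∑ s ∈ F, (mult riemannZeta s : ℝ) ≤ K0 := fun F h1 s0 h2 h3 => (near_nrA h1 h3).trans h2
  have h6r : 6 * R / L = 3 * r + 3 * r := by rw [hr]; ring
  -- the area class
  have hcA : tot T pA ≤ ε / 6 * EE T := by
    rw [tot_filter]
    obtain ⟨F, hF⟩ : ∃ F : Finset ℂ, F = (Zb T).filter pA := ⟨_, rfl⟩
    rw [← hF]
    have hFp : ∀ s ∈ F, s ∈ Zb T ∧ q s ∧ ENNReal.ofReal (K * S * r ^ 2) <
      ∫⁻ w in ball s (3 * r), ENNReal.ofReal |Real.log ‖riemannZeta w‖| := by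
      intro s hs
      rw [hF, Finset.mem_filter, hpA] at hs
      exact hs
    obtain ⟨O, hO⟩ : ∃ O : Set ℂ, O = {z : ℂ | z.re ∈ Set.Ioo (1 / 2 - 4 * R / L) (1 / 2 + 4 * R / L) ∧
      z.im ∈ Set.Ioo 0 (2 * T)} := ⟨_, rfl⟩
    have hOm : MeasurableSet O := by
      rw [hO]
      exact (Complex.measurable_re measurableSet_Ioo).inter (Complex.measurable_im measurableSet_Ioo)
    have h1 := overlapW (volume.withDensity fun w : ℂ => ENNReal.ofReal |Real.log ‖riemannZeta w‖|) F
      (fun s => mult riemannZeta s) (fun s => ball s (3 * r)) O (fun s _ => measurableSet_ball) (fun s hs z hz => by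
        obtain ⟨p1, p2, p3⟩ := hFp s hs
        rw [hq] at p2
        obtain ⟨⟨p4, p5⟩, p6, p7⟩ := p2
        rw [mem_ball, dist_eq_norm] at hz
        have h1 := (Complex.abs_re_le_norm (z - s)).trans_lt hz
        have h2 := (Complex.abs_im_le_norm (z - s)).trans_lt hz
        rw [Complex.sub_re, abs_lt] at h1
        rw [Complex.sub_im, abs_lt] at h2
        have h3 : A0 / L ≤ r / 8 := by
          rw [hr]
          calc A0 / L ≤ R / 8 / L := by gcongr
            _ = _ := by ring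
        have h4 := abs_le.1 p7
        have h5 : 4 * R / L = 4 * r := by rw [hr]; ring
        rw [hO, h5]
        exact ⟨⟨by linarith [h1.1, h4.1], by linarith [h1.2, h4.2]⟩, ⟨by linarith [h2.1], by linarith [h2.2]⟩⟩)
      hOm (K := K0)
      (fun x s0 hs0 hx G hG hGx => by
        refine hover G (fun s hs => (hFp s (hG hs)).1) s0 ?_ ?_
        · have := (hFp s0 hs0).2.1
          rw [hq] at this
          exact this.2.1
        · intro s hs
          have h3 := hGx s hs
          rw [mem_ball, dist_eq_norm] at hx h3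
          have h4 := Complex.abs_im_le_norm (s - s0)
          have h5 := norm_sub_le (x - s0) (x - s)
          rw [sub_sub_sub_cancel_left] at h5
          rw [Complex.sub_im] at h4
          rw [h6r]
          linarith)
    have h2 : ENNReal.ofReal (∑ s ∈ F, (mult riemannZeta s : ℝ)) * ENNReal.ofReal (K * S * r ^ 2) ≤
        ENNReal.ofReal K0 * ENNReal.ofReal (CA * (S * (T * (4 * R / L)))) := by
      rw [sum_conv]
      refine le_trans (Finset.sum_le_sum fun s hs => mul_le_mul' le_rfl ?_) (h1.trans ?_)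
      · rw [withDensity_apply _ measurableSet_ball]
        exact (hFp s hs).2.2.le
      · refine mul_le_mul' le_rfl ?_
        rw [withDensity_apply _ hOm, hO]
        exact hAT
    have hF0 : 0 ≤ ∑ s ∈ F, (mult riemannZeta s : ℝ) := Finset.sum_nonneg fun _ _ => Nat.cast_nonneg _
    rw [← ENNReal.ofReal_mul hK0'.le, ← ENNReal.ofReal_mul hF0,
      ENNReal.ofReal_le_ofReal_iff (by positivity)] at h2
    obtain ⟨N, hN⟩ : ∃ N, N = ∑ s ∈ F, (mult riemannZeta s : ℝ) := ⟨_, rfl⟩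
    rw [← hN] at h2 hF0 ⊢
    have h3 : N * (K * S * r ^ 2) * (L ^ 2 / R ^ 2) = N * (K * S) := by
      rw [hr]; field_simp
    have h4 : K0 * (CA * (S * (T * (4 * R / L)))) * (L ^ 2 / R ^ 2) = 48 * CA * S * T * L := by
      rw [hK0]; field_simp; norm_num
    have h5 := mul_le_mul_of_nonneg_right h2 (by positivity : 0 ≤ L ^ 2 / R ^ 2)
    rw [h3, h4] at h5
    have h6 : ε / 6 * EE T * (K * S) = 48 * CA * S * T * L := by
      unfold EE
      rw [hK, ← hL]
      field_simp
      norm_num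
    rw [← h6] at h5
    exact le_of_mul_le_mul_right h5 (by positivity)
  -- the class without good heights
  have hcX : tot T pX ≤ ε / 6 * EE T := by
    rw [tot_filter]
    obtain ⟨F, hF⟩ : ∃ F : Finset ℂ, F = (Zb T).filter pX := ⟨_, rfl⟩
    rw [← hF]
    have hFp : ∀ s ∈ F, s ∈ Zb T ∧ q s ∧ ENNReal.ofReal (w / 4) ≤
      volume (X ∩ Set.Icc (s.im + w / 2) (s.im + w)) := by
      intro s hs
      rw [hF, Finset.mem_filter, hpX] at hs
      exact hs
    have h1 := overlapW (volume.restrict X) F (fun s => mult riemannZeta s)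
      (fun s => Set.Icc (s.im + w / 2) (s.im + w)) Set.univ (fun s _ => measurableSet_Icc) (fun s _ => Set.subset_univ _)
      MeasurableSet.univ (K := K0)
      (fun x s0 hs0 hx G hG hGx => by
        refine hover G (fun s hs => (hFp s (hG hs)).1) s0 ?_ ?_
        · have := (hFp s0 hs0).2.1
          rw [hq] at this
          exact this.2.1
        · intro s hs
          have h3 := hGx s hs
          rw [h6r, abs_le]
          constructor <;> linarith [h3.1, h3.2, hx.1, hx.2])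
    have h2 : ENNReal.ofReal (∑ s ∈ F, (mult riemannZeta s : ℝ)) * ENNReal.ofReal (w / 4) ≤
        ENNReal.ofReal K0 * ENNReal.ofReal (ε / (48 * Real.pi * K0) * T) := by
      rw [sum_conv]
      refine le_trans (Finset.sum_le_sum fun s hs => mul_le_mul' le_rfl ?_) (h1.trans ?_)
      · rw [Measure.restrict_apply measurableSet_Icc, Set.inter_comm]
        exact (hFp s hs).2.2
      · refine mul_le_mul' le_rfl ?_
        rw [Measure.restrict_apply_univ]
        exact hXv
    have hF0 : 0 ≤ ∑ s ∈ F, (mult riemannZeta s : ℝ) := Finset.sum_nonneg fun _ _ => Nat.cast_nonneg _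
    rw [← ENNReal.ofReal_mul hK0'.le, ← ENNReal.ofReal_mul hF0,
      ENNReal.ofReal_le_ofReal_iff (by positivity)] at h2
    obtain ⟨N, hN⟩ : ∃ N, N = ∑ s ∈ F, (mult riemannZeta s : ℝ) := ⟨_, rfl⟩
    rw [← hN] at h2 hF0 ⊢
    have h6 : K0 * (ε / (48 * Real.pi * K0) * T) = ε / 6 * EE T * (w / 4) := by
      unfold EE
      rw [← hL, hw]
      field_simp
      norm_num
    rw [h6] at h2
    exact le_of_mul_le_mul_right h2 (by positivity)
  linarith

end

end Pool.Agent.K4H6.GL
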